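import Mathlib

set_option autoImplicit false

namespace Pool.Agent.Z26.HU

open MeasureTheory Finset

/-- `e(t) = exp(2 π i t)` -/
noncomputable def ee (t : ℂ) : ℂ := Complex.exp (2 * Real.pi * Complex.I * t)

/-- pairing of an integer frequency with a real vector -/
noncomputable def dr (ξ : Fin 3 → ℤ) (y : Fin 3 → ℝ) : ℝ := ∑ i, (ξ i : ℝ) * y i

/-- pairing of an integer frequency with a complex vector -/
noncomputable def dz (ξ : Fin 3 → ℤ) (z : Fin 3 → ℂ) : ℂ := ∑ i, (ξ i : ℂ) * z i

/-- the cone of positive definite symmetric 2x2 matrices (y0 y1; y1 y2) -/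
def cone (y : Fin 3 → ℝ) : Prop := 0 < y 0 ∧ y 1 ^ 2 < y 0 * y 2

/-- the unit cube -/
def cube : Set (Fin 3 → ℝ) := Set.univ.pi fun _ => Set.Ico (0 : ℝ) 1

/-- heap numbering of the nodes of the binary tree; the head of the list is the latest digit -/
def code : List Bool → ℕ
  | [] => 1
  | d :: S => 2 * code S + (if d then 1 else 0)

/-- integer numerators of the directions -/
def tau (B : ℕ) : List Bool → ℤ
  | [] => 0
  | d :: S => (B : ℤ) ^ (code (d :: S) - code S) * (tau B S + (if d then 1 else 0))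

/-- direction attached to a node -/
noncomputable def th (B : ℕ) (S : List Bool) : ℝ := (tau B S : ℝ) / (B : ℝ) ^ code S

/-- frequency attached to a node: the form `B^(2 code) (w2 - th w1)^2` -/
def Xi (B : ℕ) (S : List Bool) : Fin 3 → ℤ :=
  ![tau B S ^ 2, -2 * (B : ℤ) ^ code S * tau B S, (B : ℤ) ^ (2 * code S)]

/-- boundary direction -/
noncomputable def yv (t : ℝ) : Fin 3 → ℝ := ![1, t, t ^ 2]

/-- reachable lower frequencies -/
inductive Reach (N B : ℕ) : List Bool → (Fin 3 → ℤ) → ℤ → Prop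
  | nil : Reach N B [] 0 0
  | cons (d : Bool) (S : List Bool) (ξ : Fin 3 → ℤ) (m n : ℤ) (h : Reach N B S ξ m) (hn : |n| ≤ N) :
      Reach N B (d :: S) (ξ + n • Xi B S) (m + (if d then n else 0))

end Pool.Agent.Z26.HU
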