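import Mathlib
import Pool.Agent.Z26.HU.H0

set_option autoImplicit false

namespace Pool.Agent.Z26.HU.LB

open MeasureTheory Finset


lemma hd_pow (n : ℕ) (s : ℝ) :
    HasDerivAt (fun s : ℝ => (1 - s) ^ (n + 1)) (-(((n : ℝ) + 1) * (1 - s) ^ n)) s := by
  have h := ((hasDerivAt_id' s).const_sub 1).fun_pow (n + 1)
  refine h.congr_deriv ?_
  push_cast
  simp

lemma max_split (k : ℕ) (g : ℝ → ℝ) (hg : Continuous g) (hsym : ∀ s, g (1 - s) = g s) :
    ∫ s in (0 : ℝ)..1, (max s (1 - s)) ^ k * g s =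
      2 * ∫ s in (0 : ℝ)..(1 / 2), (1 - s) ^ k * g s := by
  have hc : Continuous fun s : ℝ => (max s (1 - s)) ^ k * g s := by fun_prop
  rw [← intervalIntegral.integral_add_adjacent_intervals (b := 1 / 2)
    (hc.intervalIntegrable _ _) (hc.intervalIntegrable _ _)]
  have h1 : ∫ s in (0 : ℝ)..(1 / 2), (max s (1 - s)) ^ k * g s =
      ∫ s in (0 : ℝ)..(1 / 2), (1 - s) ^ k * g s := by
    apply intervalIntegral.integral_congr_Ioo_of_le (by norm_num)
    intro s hs
    have : s ≤ 1 - s := by linarith [hs.2]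
    simp only [max_eq_right this]
  have h2 : ∫ s in (1 / 2 : ℝ)..1, (max s (1 - s)) ^ k * g s =
      ∫ s in (0 : ℝ)..(1 / 2), (1 - s) ^ k * g s := by
    have e := intervalIntegral.integral_comp_sub_left (a := 0) (b := 1 / 2)
      (fun s : ℝ => (max s (1 - s)) ^ k * g s) 1
    rw [show (1 : ℝ) - 1 / 2 = 1 / 2 by norm_num, sub_zero] at e
    rw [← e]
    apply intervalIntegral.integral_congr_Ioo_of_le (by norm_num)
    intro s hs
    have : 1 - (1 - s) ≤ 1 - s := by linarith [hs.2]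
    simp only [max_eq_left this, hsym]
  rw [h1, h2]; ring

theorem e_low (k : ℕ) (hk : 1 ≤ k) : 1 / (16 * ((k : ℝ) + 1)) ≤
    ∫ s in (0 : ℝ)..1, (max s (1 - s)) ^ k * Real.cos (2 * Real.pi * s) := by
  obtain ⟨n, rfl⟩ : ∃ n, k = n + 1 := ⟨k - 1, by omega⟩
  rw [max_split (n + 1) (fun s => Real.cos (2 * Real.pi * s)) (by fun_prop) (by
    intro s
    rw [show 2 * Real.pi * (1 - s) = 2 * Real.pi - 2 * Real.pi * s by ring,
      Real.cos_two_pi_sub])]
  have hpi := Real.pi_pos
  -- integration by parts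
  have hparts : ∫ s in (0 : ℝ)..(1 / 2), ((1 - s) ^ (n + 1) * Real.cos (2 * Real.pi * s) -
      ((n : ℝ) + 1) * (1 - s) ^ n * Real.sin (2 * Real.pi * s) / (2 * Real.pi)) = 0 := by
    have hder : ∀ s ∈ Set.uIcc (0 : ℝ) (1 / 2), HasDerivAt
        (fun s => (1 - s) ^ (n + 1) * Real.sin (2 * Real.pi * s) / (2 * Real.pi))
        ((1 - s) ^ (n + 1) * Real.cos (2 * Real.pi * s) -
          ((n : ℝ) + 1) * (1 - s) ^ n * Real.sin (2 * Real.pi * s) / (2 * Real.pi)) s := by
      intro s _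
      have a1 := hd_pow n s
      have a2 : HasDerivAt (fun s : ℝ => Real.sin (2 * Real.pi * s))
          (Real.cos (2 * Real.pi * s) * (2 * Real.pi)) s := by
        have := ((hasDerivAt_id s).const_mul (2 * Real.pi)).sin
        simpa using this
      have a3 := (a1.fun_mul a2).div_const (2 * Real.pi)
      refine a3.congr_deriv ?_
      field_simp
      ring
    rw [intervalIntegral.integral_eq_sub_of_hasDerivAt hder
      (Continuous.intervalIntegrable (by fun_prop) _ _)]
    rw [show 2 * Real.pi * (1 / 2) = Real.pi by ring, Real.sin_pi]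
    simp
  rw [intervalIntegral.integral_sub (Continuous.intervalIntegrable (by fun_prop) _ _)
    (Continuous.intervalIntegrable (by fun_prop) _ _)] at hparts
  have hI : ∫ s in (0 : ℝ)..(1 / 2), (1 - s) ^ (n + 1) * Real.cos (2 * Real.pi * s) =
      ∫ s in (0 : ℝ)..(1 / 2),
        ((n : ℝ) + 1) * (1 - s) ^ n * Real.sin (2 * Real.pi * s) / (2 * Real.pi) := by
    linarith
  rw [hI]
  have hc : Continuous fun s : ℝ =>
    ((n : ℝ) + 1) * (1 - s) ^ n * Real.sin (2 * Real.pi * s) / (2 * Real.pi) := by fun_prop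
  rw [← intervalIntegral.integral_add_adjacent_intervals (b := 1 / 4)
    (hc.intervalIntegrable _ _) (hc.intervalIntegrable _ _)]
  have hpos : 0 ≤ ∫ s in (1 / 4 : ℝ)..(1 / 2),
      ((n : ℝ) + 1) * (1 - s) ^ n * Real.sin (2 * Real.pi * s) / (2 * Real.pi) := by
    apply intervalIntegral.integral_nonneg (by norm_num)
    intro s hs
    have h1 : 0 ≤ Real.sin (2 * Real.pi * s) := by
      apply Real.sin_nonneg_of_nonneg_of_le_pi
      · have := hs.1; positivity
      · nlinarith [hs.2]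
    have h2 : 0 ≤ 1 - s := by linarith [hs.2]
    positivity
  have hlow : ∫ s in (0 : ℝ)..(1 / 4), ((n : ℝ) + 1) * (1 - s) ^ n * (4 * s) / (2 * Real.pi) ≤
      ∫ s in (0 : ℝ)..(1 / 4),
        ((n : ℝ) + 1) * (1 - s) ^ n * Real.sin (2 * Real.pi * s) / (2 * Real.pi) := by
    apply intervalIntegral.integral_mono_on (by norm_num)
      (Continuous.intervalIntegrable (by fun_prop) _ _) (hc.intervalIntegrable _ _)
    intro s hs
    have h1 : 4 * s ≤ Real.sin (2 * Real.pi * s) := by
      have := Real.mul_le_sin (x := 2 * Real.pi * s) (by have := hs.1; positivity)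
        (by nlinarith [hs.2])
      have e : 2 / Real.pi * (2 * Real.pi * s) = 4 * s := by field_simp; ring
      rwa [e] at this
    have h2 : 0 ≤ 1 - s := by linarith [hs.2]
    gcongr
  have hval : ∫ s in (0 : ℝ)..(1 / 4), ((n : ℝ) + 1) * (1 - s) ^ n * (4 * s) / (2 * Real.pi) =
      (4 / (2 * Real.pi)) * (1 / ((n : ℝ) + 2) * (1 - (3 / 4) ^ (n + 1) * (1 + ((n : ℝ) + 1) / 4))) := by
    have hder : ∀ s ∈ Set.uIcc (0 : ℝ) (1 / 4), HasDerivAt
        (fun s => (4 / (2 * Real.pi)) * (-(s * (1 - s) ^ (n + 1)) - (1 - s) ^ (n + 2) / ((n : ℝ) + 2)))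
        (((n : ℝ) + 1) * (1 - s) ^ n * (4 * s) / (2 * Real.pi)) s := by
      intro s _
      have a1 := hd_pow n s
      have a2 := hd_pow (n + 1) s
      have a3 := ((((hasDerivAt_id' s).fun_mul a1).fun_neg).fun_sub
        (a2.div_const ((n : ℝ) + 2))).const_mul (4 / (2 * Real.pi))
      refine a3.congr_deriv ?_
      have : (n : ℝ) + 2 ≠ 0 := by positivity
      push_cast
      field_simp
      ring
    rw [intervalIntegral.integral_eq_sub_of_hasDerivAt hder
      (Continuous.intervalIntegrable (by fun_prop) _ _)]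
    have : (n : ℝ) + 2 ≠ 0 := by positivity
    norm_num
    field_simp
    ring
  have hdec : ∀ n : ℕ, (3 / 4 : ℝ) ^ (n + 1) * (1 + ((n : ℝ) + 1) / 4) ≤ 15 / 16 := by
    intro n
    induction n with
    | zero => norm_num
    | succ n ih =>
      refine le_trans ?_ ih
      push_cast
      rw [pow_succ (3 / 4 : ℝ) (n + 1)]
      have h0 : (0 : ℝ) ≤ (3 / 4) ^ (n + 1) := by positivity
      have h1 : (3 / 4 : ℝ) * (1 + ((n : ℝ) + 1 + 1) / 4) ≤ 1 + ((n : ℝ) + 1) / 4 := by
        have : (0 : ℝ) ≤ n := by positivity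
        linarith
      calc (3 / 4 : ℝ) ^ (n + 1) * (3 / 4) * (1 + ((n : ℝ) + 1 + 1) / 4)
          = (3 / 4 : ℝ) ^ (n + 1) * ((3 / 4) * (1 + ((n : ℝ) + 1 + 1) / 4)) := by ring
        _ ≤ _ := mul_le_mul_of_nonneg_left h1 h0
  have hfin : 1 / (16 * (((n + 1 : ℕ) : ℝ) + 1)) ≤ 2 * ((4 / (2 * Real.pi)) *
      (1 / ((n : ℝ) + 2) * (1 - (3 / 4) ^ (n + 1) * (1 + ((n : ℝ) + 1) / 4)))) := by
    have h1 : (1 / 16 : ℝ) ≤ 1 - (3 / 4) ^ (n + 1) * (1 + ((n : ℝ) + 1) / 4) := by
      linarith [hdec n]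
    have h2 : (1 / 4 : ℝ) ≤ 1 / Real.pi := by
      apply one_div_le_one_div_of_le hpi Real.pi_le_four
    have h3 : (0 : ℝ) < 1 / ((n : ℝ) + 2) := by positivity
    calc 1 / (16 * (((n + 1 : ℕ) : ℝ) + 1)) = 4 * (1 / 4) * ((1 / ((n : ℝ) + 2)) * (1 / 16)) := by
          push_cast; field_simp; ring
      _ ≤ 4 * (1 / Real.pi) * ((1 / ((n : ℝ) + 2)) *
          (1 - (3 / 4) ^ (n + 1) * (1 + ((n : ℝ) + 1) / 4))) := by gcongr
      _ = _ := by field_simp
  rw [hval] at hlow
  linarith

theorem b_up (k : ℕ) : ∫ s in (0 : ℝ)..1, (max s (1 - s)) ^ k ≤ 2 / ((k : ℝ) + 1) := by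
  have h := max_split k (fun _ => 1) continuous_const (fun _ => rfl)
  simp only [mul_one] at h
  rw [h]
  have e := intervalIntegral.integral_comp_sub_left (a := 0) (b := 1 / 2) (fun s : ℝ => s ^ k) 1
  rw [e, integral_pow]
  have hk : (0 : ℝ) < (k : ℝ) + 1 := by positivity
  rw [← mul_div_assoc]
  apply div_le_div_of_nonneg_right _ hk.le
  have : (0 : ℝ) ≤ (1 - 1 / 2) ^ (k + 1) := by positivity
  simp only [sub_zero, one_pow]
  linarith

/-- autocorrelation of the half circle -/
theorem corr_half (s : ℝ) (hs : s ∈ Set.Icc (0 : ℝ) 1) :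
    (1 / 2 : ℝ) + ∫ t in (0 : ℝ)..1, (if t < 1 / 2 then (1 : ℝ) else 0) * (if Int.fract (t + s) < 1 / 2 then 1 else 0) =
      max s (1 - s) := by
  obtain ⟨hs0, hs1⟩ := hs
  have key : ∀ a b : ℝ, 0 ≤ a → a ≤ b → b ≤ 1 →
      (∀ t ∈ Set.Ioo (0 : ℝ) a, ((if t < 1 / 2 then (1 : ℝ) else 0) *
        (if Int.fract (t + s) < 1 / 2 then 1 else 0)) = 0) →
      (∀ t ∈ Set.Ioo (a : ℝ) b, ((if t < 1 / 2 then (1 : ℝ) else 0) *
        (if Int.fract (t + s) < 1 / 2 then 1 else 0)) = 1) →
      (∀ t ∈ Set.Ioo (b : ℝ) 1, ((if t < 1 / 2 then (1 : ℝ) else 0) *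
        (if Int.fract (t + s) < 1 / 2 then 1 else 0)) = 0) →
      ∫ t in (0 : ℝ)..1, (if t < 1 / 2 then (1 : ℝ) else 0) *
        (if Int.fract (t + s) < 1 / 2 then 1 else 0) = b - a := by
    intro a b ha hab hb h1 h2 h3
    set F : ℝ → ℝ := fun t => (if t < 1 / 2 then (1 : ℝ) else 0) *
        (if Int.fract (t + s) < 1 / 2 then 1 else 0) with hF
    have i1 : IntervalIntegrable F volume 0 a := by
      refine (intervalIntegrable_const (c := (0 : ℝ))).congr_uIoo ?_
      rw [Set.uIoo_of_le ha]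
      intro t ht
      exact (h1 t ht).symm
    have i2 : IntervalIntegrable F volume a b := by
      refine (intervalIntegrable_const (c := (1 : ℝ))).congr_uIoo ?_
      rw [Set.uIoo_of_le hab]
      intro t ht
      exact (h2 t ht).symm
    have i3 : IntervalIntegrable F volume b 1 := by
      refine (intervalIntegrable_const (c := (0 : ℝ))).congr_uIoo ?_
      rw [Set.uIoo_of_le hb]
      intro t ht
      exact (h3 t ht).symm
    have e1 : ∫ t in (0 : ℝ)..a, F t = 0 := by
      rw [intervalIntegral.integral_congr_Ioo_of_le (g := fun _ => (0 : ℝ)) ha (fun t ht => h1 t ht)]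
      simp
    have e2 : ∫ t in (a : ℝ)..b, F t = b - a := by
      rw [intervalIntegral.integral_congr_Ioo_of_le (g := fun _ => (1 : ℝ)) hab (fun t ht => h2 t ht)]
      simp
    have e3 : ∫ t in (b : ℝ)..1, F t = 0 := by
      rw [intervalIntegral.integral_congr_Ioo_of_le (g := fun _ => (0 : ℝ)) hb (fun t ht => h3 t ht)]
      simp
    rw [← intervalIntegral.integral_add_adjacent_intervals (i1.trans i2) i3,
      ← intervalIntegral.integral_add_adjacent_intervals i1 i2, e1, e2, e3]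
    ring
  rcases le_total s (1 / 2) with h | h
  · rw [key 0 (1 / 2 - s) le_rfl (by linarith) (by linarith), max_eq_right (by linarith)]
    · ring
    · intro t ht; exact absurd (ht.1.trans ht.2) (lt_irrefl _)
    · intro t ht
      have f : Int.fract (t + s) = t + s :=
        Int.fract_eq_self.mpr ⟨by linarith [ht.1], by linarith [ht.2]⟩
      rw [f, if_pos (by linarith [ht.2]), if_pos (by linarith [ht.2])]
      norm_num
    · intro t ht
      by_cases h1 : t < 1 / 2
      · have f : Int.fract (t + s) = t + s :=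
          Int.fract_eq_self.mpr ⟨by linarith [ht.1], by linarith [ht.2]⟩
        rw [f, if_neg (show ¬ (t + s < 1 / 2) by linarith [ht.1]), mul_zero]
      · rw [if_neg h1, zero_mul]
  · rw [key (1 - s) (1 / 2) (by linarith) (by linarith) (by norm_num), max_eq_left (by linarith)]
    · ring
    · intro t ht
      have f : Int.fract (t + s) = t + s :=
        Int.fract_eq_self.mpr ⟨by linarith [ht.1], by linarith [ht.2]⟩
      rw [f, if_neg (show ¬ (t + s < 1 / 2) by linarith [ht.1]), mul_zero]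
    · intro t ht
      have f : Int.fract (t + s) = t + s - 1 := by
        rw [Int.fract_eq_iff]
        exact ⟨by linarith [ht.1], by linarith [ht.2], 1, by push_cast; ring⟩
      rw [f, if_pos (by linarith [ht.2]), if_pos (by linarith [ht.2])]
      norm_num
    · intro t ht
      rw [if_neg (show ¬ (t < 1 / 2) by linarith [ht.1]), zero_mul]

end Pool.Agent.Z26.HU.LB
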