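import Mathlib
import Pool.Agent.Z26.HU.H0

set_option autoImplicit false

namespace Pool.Agent.Z26.HU.LE

open MeasureTheory Finset


theorem one_dim (k : ℤ) : ∫ t in Set.Ico (0 : ℝ) 1, ee ((k : ℂ) * (t : ℂ)) = if k = 0 then 1 else 0 := by
  rw [integral_Ico_eq_integral_Ioc, ← intervalIntegral.integral_of_le zero_le_one]
  by_cases hk : k = 0
  · subst hk
    simp [ee]
  · rw [if_neg hk]
    have hc : (2 * Real.pi * Complex.I * k : ℂ) ≠ 0 := by
      have h1 : (k : ℂ) ≠ 0 := by exact_mod_cast hk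
      have h2 : (Real.pi : ℂ) ≠ 0 := by exact_mod_cast Real.pi_ne_zero
      simp [h1, h2, Complex.I_ne_zero]
    have h1 : ∀ t : ℝ, ee ((k : ℂ) * (t : ℂ)) = Complex.exp ((2 * Real.pi * Complex.I * k) * t) := by
      intro t
      unfold ee
      congr 1
      ring
    simp only [h1]
    rw [integral_exp_mul_complex hc]
    have h2 : Complex.exp ((2 * Real.pi * Complex.I * k) * (1 : ℝ)) = 1 := by
      rw [Complex.exp_eq_one_iff]
      exact ⟨k, by push_cast; ring⟩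
    rw [h2]
    simp

theorem ee_add (s t : ℂ) : ee (s + t) = ee s * ee t := by
  unfold ee
  rw [← Complex.exp_add]
  congr 1
  ring

theorem orth (ξ : Fin 3 → ℤ) : ∫ x in cube, ee (dr ξ x) = if ξ = 0 then 1 else 0 := by
  have h1 : ∀ x : Fin 3 → ℝ, ee (dr ξ x) = ∏ i, ee ((ξ i : ℂ) * (x i : ℂ)) := by
    intro x
    simp only [dr, Fin.sum_univ_three, Fin.prod_univ_three]
    push_cast
    rw [ee_add, ee_add]
  have h2 : (volume : Measure (Fin 3 → ℝ)).restrict cube =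
      Measure.pi (fun _ : Fin 3 => (volume : Measure ℝ).restrict (Set.Ico 0 1)) := by
    unfold cube
    rw [volume_pi, Measure.restrict_pi_pi]
  rw [h2]
  simp only [h1]
  rw [integral_fintype_prod_eq_prod (μ := fun _ : Fin 3 => (volume : Measure ℝ).restrict (Set.Ico 0 1))
    (fun i (t : ℝ) => ee ((ξ i : ℂ) * (t : ℂ)))]
  simp only [one_dim]
  by_cases h : ξ = 0
  · subst h
    simp
  · rw [if_neg h]
    obtain ⟨i, hi⟩ := Function.ne_iff.1 h
    exact Finset.prod_eq_zero (Finset.mem_univ i) (if_neg hi)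

theorem cont_ee (ξ : Fin 3 → ℤ) : Continuous fun x : Fin 3 → ℝ => ee (dr ξ x) := by
  unfold ee dr
  fun_prop

theorem intOn {f : (Fin 3 → ℝ) → ℂ} (hf : Continuous f) : IntegrableOn f cube := by
  refine (hf.locallyIntegrable.integrableOn_isCompact (isCompact_Icc (a := (0 : Fin 3 → ℝ))
    (b := 1))).mono_set ?_
  intro x hx
  rw [Set.mem_Icc]
  exact ⟨fun i => (hx i (Set.mem_univ i)).1, fun i => (hx i (Set.mem_univ i)).2.le⟩

theorem ee_conj (ξ η : Fin 3 → ℤ) (x : Fin 3 → ℝ) :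
    ee (dr ξ x) * (starRingEnd ℂ) (ee (dr η x)) = ee (dr (ξ - η) x) := by
  unfold ee
  rw [← Complex.exp_conj, ← Complex.exp_add]
  congr 1
  simp only [map_mul, Complex.conj_ofReal, Complex.conj_I, map_ofNat, dr, Pi.sub_apply]
  push_cast
  simp only [sub_mul, Finset.sum_sub_distrib]
  ring

theorem parseval {n : ℕ} (ξ : Fin n → Fin 3 → ℤ) (b : Fin n → ℂ) :
    ∫ x in cube, ‖∑ i, b i * ee (dr (ξ i) x)‖ ^ 2 =
      ∑ ζ ∈ univ.image ξ, ‖∑ i ∈ univ.filter (fun i => ξ i = ζ), b i‖ ^ 2 := by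
  have h0 : ∀ x : Fin 3 → ℝ, ∑ i, b i * ee (dr (ξ i) x) =
      ∑ ζ ∈ univ.image ξ, (∑ i ∈ univ.filter (fun i => ξ i = ζ), b i) * ee (dr ζ x) := by
    intro x
    rw [← Finset.sum_fiberwise_of_maps_to (s := univ) (t := univ.image ξ) (g := ξ)
      (fun i _ => Finset.mem_image_of_mem ξ (Finset.mem_univ i))]
    refine Finset.sum_congr rfl fun ζ _ => ?_
    rw [Finset.sum_mul]
    refine Finset.sum_congr rfl fun i hi => ?_
    rw [(Finset.mem_filter.1 hi).2]
  simp only [h0]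
  generalize univ.image ξ = Z
  have h1 : ∀ x : Fin 3 → ℝ, ((‖∑ ζ ∈ Z, (∑ i ∈ univ.filter (fun i => ξ i = ζ), b i) *
      ee (dr ζ x)‖ ^ 2 : ℝ) : ℂ) = ∑ ζ ∈ Z, ∑ η ∈ Z, ((∑ i ∈ univ.filter (fun i => ξ i = ζ), b i) *
        (starRingEnd ℂ) (∑ i ∈ univ.filter (fun i => ξ i = η), b i)) * ee (dr (ζ - η) x) := by
    intro x
    rw [← Complex.normSq_eq_norm_sq, ← Complex.mul_conj, map_sum, Finset.sum_mul_sum]
    refine Finset.sum_congr rfl fun ζ _ => Finset.sum_congr rfl fun η _ => ?_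
    rw [map_mul, ← ee_conj]
    ring
  have h2 : ((∫ x in cube, ‖∑ ζ ∈ Z, (∑ i ∈ univ.filter (fun i => ξ i = ζ), b i) *
      ee (dr ζ x)‖ ^ 2 : ℝ) : ℂ) =
      ((∑ ζ ∈ Z, ‖∑ i ∈ univ.filter (fun i => ξ i = ζ), b i‖ ^ 2 : ℝ) : ℂ) := by
    rw [← integral_complex_ofReal]
    simp only [h1]
    rw [integral_finsetSum]
    · push_cast
      refine Finset.sum_congr rfl fun ζ hζ => ?_
      rw [integral_finsetSum]
      · have h3 : ∀ η ∈ Z, ∫ x in cube, ((∑ i ∈ univ.filter (fun i => ξ i = ζ), b i) *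
            (starRingEnd ℂ) (∑ i ∈ univ.filter (fun i => ξ i = η), b i)) * ee (dr (ζ - η) x) =
            if ζ = η then ((∑ i ∈ univ.filter (fun i => ξ i = ζ), b i) *
            (starRingEnd ℂ) (∑ i ∈ univ.filter (fun i => ξ i = ζ), b i)) else 0 := by
          intro η _
          rw [integral_const_mul, orth]
          by_cases hh : ζ = η
          · subst hh
            simp
          · rw [if_neg (fun h => hh (sub_eq_zero.1 h)), if_neg hh, mul_zero]
        rw [Finset.sum_congr rfl h3, Finset.sum_ite_eq, if_pos hζ, Complex.mul_conj,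
          Complex.normSq_eq_norm_sq]
        push_cast
        rfl
      · intro η _
        exact (intOn ((cont_ee (ζ - η)).const_mul _))
    · intro ζ _
      refine integrable_finsetSum _ fun η _ => ?_
      exact (intOn ((cont_ee (ζ - η)).const_mul _))
  exact_mod_cast h2

theorem slice_mono {n : ℕ} (ξ : Fin n → Fin 3 → ℤ) (a : Fin n → ℂ) (y : Fin 3 → ℝ) (hy : ∀ i, 0 ≤ dr (ξ i) y) :
    ∫ x in cube, ‖∑ i, a i * ee (dz (ξ i) (fun j => (x j : ℂ) + y j * Complex.I))‖ ^ 2 ≤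
      ∫ x in cube, ‖∑ i, a i * ee (dr (ξ i) x)‖ ^ 2 := by
  have h0 : ∀ (x : Fin 3 → ℝ) (i : Fin n), a i * ee (dz (ξ i) (fun j => (x j : ℂ) + y j * Complex.I)) =
      (a i * (Real.exp (-(2 * Real.pi * dr (ξ i) y)) : ℝ)) * ee (dr (ξ i) x) := by
    intro x i
    rw [mul_assoc]
    congr 1
    unfold ee
    rw [Complex.ofReal_exp, ← Complex.exp_add]
    congr 1
    simp only [dz, dr, mul_add, Finset.sum_add_distrib]
    push_cast
    have h1 : ∑ j, ((ξ i j : ℂ)) * ((y j : ℂ) * Complex.I) = (∑ j, ((ξ i j : ℂ)) * (y j : ℂ)) * Complex.I := by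
      rw [Finset.sum_mul]
      exact Finset.sum_congr rfl fun j _ => by ring
    rw [h1]
    linear_combination (2 * Real.pi * (∑ j, ((ξ i j : ℂ)) * (y j : ℂ))) * Complex.I_mul_I
  simp only [h0]
  rw [parseval, parseval]
  refine Finset.sum_le_sum fun ζ hζ => ?_
  obtain ⟨i0, -, hi0⟩ := Finset.mem_image.1 hζ
  have h1 : ∑ i ∈ univ.filter (fun i => ξ i = ζ), (a i * (Real.exp (-(2 * Real.pi * dr (ξ i) y)) : ℝ)) =
      (∑ i ∈ univ.filter (fun i => ξ i = ζ), a i) * (Real.exp (-(2 * Real.pi * dr ζ y)) : ℝ) := by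
    rw [Finset.sum_mul]
    refine Finset.sum_congr rfl fun i hi => ?_
    rw [(Finset.mem_filter.1 hi).2]
  rw [h1, norm_mul, Complex.norm_real, Real.norm_eq_abs, abs_of_pos (Real.exp_pos _)]
  have h2 : Real.exp (-(2 * Real.pi * dr ζ y)) ≤ 1 := by
    rw [Real.exp_le_one_iff]
    have h3 := hy i0
    rw [hi0] at h3
    have h4 := Real.pi_pos
    nlinarith [mul_nonneg h4.le h3]
  have h5 := Real.exp_pos (-(2 * Real.pi * dr ζ y))
  gcongr
  exact mul_le_of_le_one_right (norm_nonneg _) h2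

end Pool.Agent.Z26.HU.LE

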