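import Mathlib
import Pool.Agent.Z26.HU.LF
import Pool.Agent.Z26.HU.LA
import Pool.Agent.Z26.HU.LB
import Pool.Agent.Z26.HU.LC
import Pool.Agent.Z26.HU.LE
set_option autoImplicit false
namespace Pool.Agent.Z26.HU
open MeasureTheory Finset
theorem trig_approx (ε : ℝ) (hε : 0 < ε) : ∃ (N : ℕ) (c : ℤ → ℂ) (P : ℝ → ℝ),
    (∀ t : ℝ, (P t : ℂ) = ∑ n ∈ Icc (-(N : ℤ)) N, c n * ee (n * t)) ∧ (∀ t, 0 ≤ P t ∧ P t ≤ 1) ∧
    ∫ t in (0 : ℝ)..1, |P t - (if t < 1 / 2 then 1 else 0)| ≤ ε := by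
  exact LA.trig_approx ε hε

theorem e_low (k : ℕ) (hk : 1 ≤ k) : 1 / (16 * ((k : ℝ) + 1)) ≤
    ∫ s in (0 : ℝ)..1, (max s (1 - s)) ^ k * Real.cos (2 * Real.pi * s) := by
  exact LB.e_low k hk

theorem b_up (k : ℕ) : ∫ s in (0 : ℝ)..1, (max s (1 - s)) ^ k ≤ 2 / ((k : ℝ) + 1) := by
  exact LB.b_up k

theorem corr_half (s : ℝ) (hs : s ∈ Set.Icc (0 : ℝ) 1) :
    (1 / 2 : ℝ) + ∫ t in (0 : ℝ)..1, (if t < 1 / 2 then (1 : ℝ) else 0) * (if Int.fract (t + s) < 1 / 2 then 1 else 0) =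
      max s (1 - s) := by
  exact LB.corr_half s hs

theorem fract_mp (R : ℕ) (hR : 0 < R) : MeasurePreserving (fun (x : Fin 3 → ℝ) (i : Fin 3) => Int.fract ((R : ℝ) * x i))
    (volume.restrict cube) (volume.restrict cube) := by
  exact LC.fract_mp R hR

theorem period_bound (g : (Fin 3 → ℝ) → ENNReal) (hg : Measurable g)
    (hper : ∀ (x : Fin 3 → ℝ) (n : Fin 3 → ℤ), g (fun i => x i + n i) = g x) :
    ∫⁻ x : Fin 3 → ℝ, ENNReal.ofReal (∏ i, 1 / (1 + x i ^ 2)) * g x ≤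
      ENNReal.ofReal 1000 * ∫⁻ x in cube, g x := by
  exact LC.period_bound g hg hper

theorem orth (ξ : Fin 3 → ℤ) : ∫ x in cube, ee (dr ξ x) = if ξ = 0 then 1 else 0 := by
  exact LE.orth ξ

theorem slice_mono {n : ℕ} (ξ : Fin n → Fin 3 → ℤ) (a : Fin n → ℂ) (y : Fin 3 → ℝ) (hy : ∀ i, 0 ≤ dr (ξ i) y) :
    ∫ x in cube, ‖∑ i, a i * ee (dz (ξ i) (fun j => (x j : ℂ) + y j * Complex.I))‖ ^ 2 ≤
      ∫ x in cube, ‖∑ i, a i * ee (dr (ξ i) x)‖ ^ 2 := by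
  exact LE.slice_mono ξ a y hy

theorem th_cons (B : ℕ) (hB : 0 < B) (d : Bool) (S : List Bool) :
    th B (d :: S) = th B S + (if d then 1 / (B : ℝ) ^ code S else 0) := by
  exact LF.th_cons B hB d S

theorem dr_Xi (B : ℕ) (hB : 0 < B) (S : List Bool) (t : ℝ) :
    dr (Xi B S) (yv t) = (B : ℝ) ^ (2 * code S) * (t - th B S) ^ 2 := by
  exact LF.dr_Xi B hB S t

theorem reach_form {N B : ℕ} (hB : 4 ≤ B) {S : List Bool} {ξ : Fin 3 → ℤ} {m : ℤ} (h : Reach N B S ξ m) :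
    ∃ c b a : ℝ, c = (ξ 2 : ℝ) ∧ (∀ τ : ℝ, dr ξ (yv (th B S + τ)) = c * τ ^ 2 + 2 * b * τ + a) ∧
      |c| ≤ 4 * N * (B : ℝ) ^ (2 * (code S - 1)) ∧ |b| ≤ 4 * N * (B : ℝ) ^ (code S - 1) ∧
      |a - m| ≤ S.length * (16 * N / B) := by
  exact LF.reach_form hB h

theorem reach_cone {N K : ℕ} : ∃ B0 : ℕ, ∀ B ≥ B0, ∀ S : List Bool, S.length ≤ K → ∀ ξ : Fin 3 → ℤ,
    Reach N B S ξ 1 → ∀ y : Fin 3 → ℝ, cone y → 0 < dr (Xi B S + ξ) y := by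
  exact LF.reach_cone 

theorem reach_on {N K : ℕ} (η : ℝ) (hη : 0 < η) : ∃ B0 : ℕ, ∀ B ≥ B0, ∀ (S U : List Bool) (d : Bool),
    (U ++ d :: S).length ≤ K → ∀ ξ : Fin 3 → ℤ, Reach N B S ξ 1 →
    |dr (Xi B S + ξ) (yv (th B (U ++ d :: S))) - (1 + if d then 1 else 0)| ≤ η := by
  exact LF.reach_on η hη

theorem reach_off {N K : ℕ} (M : ℝ) : ∃ B0 : ℕ, ∀ B ≥ B0, ∀ (S T : List Bool),
    S.length ≤ K → T.length = K → ¬ (S <:+ T) → ∀ ξ : Fin 3 → ℤ, Reach N B S ξ 1 →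
    M ≤ dr (Xi B S + ξ) (yv (th B T)) := by
  exact LF.reach_off M

end Pool.Agent.Z26.HU
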