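import Mathlib
import Pool.Agent.Z26.HU.HJ

set_option autoImplicit false

namespace Pool.Agent.Z26.HU

open MeasureTheory Finset

/-- finite exponential sum -/
noncomputable def EF {n : ℕ} (a : Fin n → ℂ) (ξ : Fin n → Fin 3 → ℤ) (z : Fin 3 → ℂ) : ℂ :=
  ∑ i, a i * ee (dz (ξ i) z)

/-- the point `x + i y` -/
noncomputable def cplx (x y : Fin 3 → ℝ) : Fin 3 → ℂ := fun j => (x j : ℂ) + y j * Complex.I

def tube : Set (Fin 3 → ℂ) := {z | cone (fun j => (z j).im)}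

/-- the unit matrix -/
def e1 : Fin 3 → ℝ := ![1, 0, 1]

structure Hump where
  n : ℕ
  ξ : Fin n → Fin 3 → ℤ
  a : Fin n → ℂ
  Y : Finset (Fin 3 → ℝ)
  R : ℕ

/-- the dilated sum -/
noncomputable def Hump.G (h : Hump) (z : Fin 3 → ℂ) : ℂ := EF h.a h.ξ (fun k => (h.R : ℂ) * z k)

noncomputable def Hump.l1 (h : Hump) : ℝ := ∑ i, ‖h.a i‖

/-- decay at `y` of the dilated sum and of its derivative -/
noncomputable def Hump.dec (h : Hump) (y : Fin 3 → ℝ) : ℝ :=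
  ∑ i, ‖h.a i‖ * (1 + 2 * Real.pi * h.R * ∑ k, |(h.ξ i k : ℝ)|) * Real.exp (-(2 * Real.pi * h.R * dr (h.ξ i) y))

structure Hump.Ok (h : Hump) (ε C : ℝ) : Prop where
  pos : 0 < h.R
  cn : ∀ i y, cone y → 0 < dr (h.ξ i) y
  cY : ∀ y ∈ h.Y, cone y
  sl : ∀ y, cone y → ∫ x in cube, ‖EF h.a h.ξ (cplx x y)‖ ^ 2 ≤ 1
  big : ENNReal.ofReal ε ≤ volume {x | x ∈ cube ∧ ∃ y ∈ h.Y, C < ‖EF h.a h.ξ (cplx x y)‖}

/-- the infinite sum -/
noncomputable def SS (H : ℕ → Hump) (z : Fin 3 → ℂ) : ℂ := ∑' j : ℕ, (1 / 2 : ℂ) ^ j * (H j).G z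

end Pool.Agent.Z26.HU
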