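import Mathlib
import Pool.Agent.Z26.HU.HJ

set_option autoImplicit false

namespace Pool.Agent.Z26.HU

open MeasureTheory Finset

theorem ee_add (a b : ℂ) : ee (a + b) = ee a * ee b := by
  unfold ee; rw [← Complex.exp_add]; congr 1; ring

theorem ee_zero : ee 0 = 1 := by unfold ee; simp

theorem ee_neg (a : ℂ) : ee (-a) * ee a = 1 := by rw [← ee_add]; simp [ee_zero]

theorem ee_int (n : ℤ) : ee n = 1 := by
  unfold ee
  rw [Complex.exp_eq_one_iff]
  exact ⟨n, by ring⟩

theorem ee_norm_real (t : ℝ) : ‖ee t‖ = 1 := by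
  unfold ee
  rw [show 2 * (Real.pi : ℂ) * Complex.I * (t : ℂ) = ((2 * Real.pi * t : ℝ) : ℂ) * Complex.I by push_cast; ring]
  exact Complex.norm_exp_ofReal_mul_I _

theorem ee_conj (t : ℝ) : (starRingEnd ℂ) (ee t) = ee (-t) := by
  unfold ee
  rw [← Complex.exp_conj]
  congr 1
  simp only [map_mul, Complex.conj_ofReal, Complex.conj_I, map_ofNat]
  ring

theorem ee_cont : Continuous ee := by unfold ee; fun_prop

theorem dr_cont (ξ : Fin 3 → ℤ) : Continuous (dr ξ) := by unfold dr; fun_prop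

theorem dr_add (ξ ζ : Fin 3 → ℤ) (x : Fin 3 → ℝ) : dr (ξ + ζ) x = dr ξ x + dr ζ x := by
  unfold dr
  rw [← Finset.sum_add_distrib]
  congr 1; funext i
  simp only [Pi.add_apply]; push_cast; ring

theorem dr_smul (n : ℤ) (ξ : Fin 3 → ℤ) (x : Fin 3 → ℝ) : dr (n • ξ) x = n * dr ξ x := by
  unfold dr
  rw [Finset.mul_sum]
  congr 1; funext i
  simp only [Pi.smul_apply, smul_eq_mul]; push_cast; ring

theorem dr_zero (x : Fin 3 → ℝ) : dr 0 x = 0 := by unfold dr; simp

theorem dz_add (ξ ζ : Fin 3 → ℤ) (x : Fin 3 → ℂ) : dz (ξ + ζ) x = dz ξ x + dz ζ x := by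
  unfold dz
  rw [← Finset.sum_add_distrib]
  congr 1; funext i
  simp only [Pi.add_apply]; push_cast; ring

theorem dz_smul (n : ℤ) (ξ : Fin 3 → ℤ) (x : Fin 3 → ℂ) : dz (n • ξ) x = n * dz ξ x := by
  unfold dz
  rw [Finset.mul_sum]
  congr 1; funext i
  simp only [Pi.smul_apply, smul_eq_mul]; push_cast; ring

theorem dz_zero (x : Fin 3 → ℂ) : dz 0 x = 0 := by unfold dz; simp

theorem dz_real (ξ : Fin 3 → ℤ) (x : Fin 3 → ℝ) : dz ξ (fun j => (x j : ℂ)) = (dr ξ x : ℂ) := by
  unfold dz dr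
  push_cast
  rfl

theorem dz_im (ξ : Fin 3 → ℤ) (x y : Fin 3 → ℝ) :
    dz ξ (fun j => (x j : ℂ) + y j * Complex.I) = dr ξ x + dr ξ y * Complex.I := by
  unfold dz dr
  push_cast
  rw [Finset.sum_mul, ← Finset.sum_add_distrib]
  congr 1; funext i; ring

/-- trigonometric polynomials of one variable -/
def TP (D : ℕ) (f : ℝ → ℂ) : Prop :=
  ∃ (I : Type) (_ : Fintype I) (a : I → ℂ) (n : I → ℤ), (∀ i, |n i| ≤ D) ∧ ∀ t : ℝ, f t = ∑ i, a i * ee (n i * t)

theorem TP.mono {D D' : ℕ} {f : ℝ → ℂ} (h : TP D f) (hD : D ≤ D') : TP D' f := by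
  obtain ⟨I, hI, a, n, hn, hf⟩ := h
  exact ⟨I, hI, a, n, fun i => (hn i).trans (by exact_mod_cast hD), hf⟩

theorem TP.const (D : ℕ) (c : ℂ) : TP D (fun _ => c) :=
  ⟨Unit, inferInstance, fun _ => c, fun _ => 0, fun _ => by simp, fun t => by simp [ee_zero]⟩

theorem TP.ee1 : TP 1 (fun t => ee t) :=
  ⟨Unit, inferInstance, fun _ => 1, fun _ => 1, fun _ => by simp, fun t => by simp⟩

theorem TP.mul {D D' : ℕ} {f g : ℝ → ℂ} (hf : TP D f) (hg : TP D' g) : TP (D + D') (fun t => f t * g t) := by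
  obtain ⟨I, hI, a, n, hn, hf⟩ := hf
  obtain ⟨J, hJ, b, m, hm, hg⟩ := hg
  refine ⟨I × J, inferInstance, fun p => a p.1 * b p.2, fun p => n p.1 + m p.2, ?_, ?_⟩
  · intro p
    have := abs_add_le (n p.1) (m p.2)
    have h1 := hn p.1
    have h2 := hm p.2
    push_cast
    linarith
  · intro t
    beta_reduce
    rw [hf, hg, Finset.sum_mul_sum, Fintype.sum_prod_type]
    congr 1; funext i; congr 1; funext j
    push_cast
    rw [add_mul, ee_add]
    ring

theorem TP.add {D : ℕ} {f g : ℝ → ℂ} (hf : TP D f) (hg : TP D g) : TP D (fun t => f t + g t) := by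
  obtain ⟨I, hI, a, n, hn, hf⟩ := hf
  obtain ⟨J, hJ, b, m, hm, hg⟩ := hg
  refine ⟨I ⊕ J, inferInstance, Sum.elim a b, Sum.elim n m, ?_, ?_⟩
  · rintro (i | j)
    · exact hn i
    · exact hm j
  · intro t
    beta_reduce
    rw [hf, hg, Fintype.sum_sum_type]
    rfl

theorem TP.shift {D : ℕ} {f : ℝ → ℂ} (hf : TP D f) (s : ℝ) : TP D (fun t => f (t + s)) := by
  obtain ⟨I, hI, a, n, hn, hf⟩ := hf
  refine ⟨I, hI, fun i => a i * ee (n i * s), n, hn, fun t => ?_⟩
  beta_reduce
  rw [hf]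
  congr 1; funext i
  push_cast
  rw [mul_add, ee_add]
  ring

theorem TP.cont {D : ℕ} {f : ℝ → ℂ} (hf : TP D f) : Continuous f := by
  obtain ⟨I, hI, a, n, hn, hf⟩ := hf
  have : f = fun t : ℝ => ∑ i, a i * ee (n i * t) := funext hf
  rw [this]
  have := ee_cont
  fun_prop

theorem int_ee (n : ℤ) : ∫ t in (0:ℝ)..1, ee (n * t) = if n = 0 then 1 else 0 := by
  by_cases hn : n = 0
  · simp [hn, ee_zero]
  · rw [if_neg hn]
    unfold ee
    have hc : (2 * (Real.pi : ℂ) * Complex.I * n) ≠ 0 := by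
      have := Real.pi_ne_zero
      have h2 : (n : ℂ) ≠ 0 := by exact_mod_cast hn
      simp [this, h2]
    have h1 := integral_exp_mul_complex (a := 0) (b := 1) hc
    have h2 : ∀ t : ℝ, Complex.exp (2 * Real.pi * Complex.I * (n * t)) = Complex.exp (2 * Real.pi * Complex.I * n * t) := by
      intro t; congr 1; ring
    simp only [h2]
    rw [h1]
    have h3 : Complex.exp (2 * Real.pi * Complex.I * n * (1:ℝ)) = 1 := by
      rw [Complex.exp_eq_one_iff]
      exact ⟨n, by push_cast; ring⟩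
    rw [h3]
    simp

/-- band limited functions on `R^3` (in the third variable) -/
def BL (R : ℝ) (g : (Fin 3 → ℝ) → ℂ) : Prop :=
  ∃ (I : Type) (_ : Fintype I) (a : I → ℂ) (ξ : I → Fin 3 → ℤ), (∀ i, |(ξ i 2 : ℝ)| ≤ R) ∧
    ∀ x, g x = ∑ i, a i * ee (dr (ξ i) x)

theorem BL.mono {R R' : ℝ} {g : (Fin 3 → ℝ) → ℂ} (h : BL R g) (hR : R ≤ R') : BL R' g := by
  obtain ⟨I, hI, a, n, hn, hf⟩ := h
  exact ⟨I, hI, a, n, fun i => (hn i).trans hR, hf⟩

theorem BL.const {R : ℝ} (hR : 0 ≤ R) (c : ℂ) : BL R (fun _ => c) :=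
  ⟨Unit, inferInstance, fun _ => c, fun _ => 0, fun _ => by simpa using hR, fun x => by simp [dr_zero, ee_zero]⟩

theorem BL.mul {R R' : ℝ} {f g : (Fin 3 → ℝ) → ℂ} (hf : BL R f) (hg : BL R' g) : BL (R + R') (fun t => f t * g t) := by
  obtain ⟨I, hI, a, n, hn, hf⟩ := hf
  obtain ⟨J, hJ, b, m, hm, hg⟩ := hg
  refine ⟨I × J, inferInstance, fun p => a p.1 * b p.2, fun p => n p.1 + m p.2, ?_, ?_⟩
  · intro p
    simp only [Pi.add_apply]
    push_cast
    exact (abs_add_le _ _).trans (add_le_add (hn _) (hm _))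
  · intro t
    beta_reduce
    rw [hf, hg, Finset.sum_mul_sum, Fintype.sum_prod_type]
    congr 1; funext i; congr 1; funext j
    rw [dr_add]
    push_cast
    rw [ee_add]
    ring

theorem BL.cont {R : ℝ} {g : (Fin 3 → ℝ) → ℂ} (hg : BL R g) : Continuous g := by
  obtain ⟨I, hI, a, n, hn, hf⟩ := hg
  have : g = fun t => ∑ i, a i * ee (dr (n i) t) := funext hf
  rw [this]
  have := ee_cont
  have h2 := fun i => dr_cont (n i)
  fun_prop

theorem cube_meas : MeasurableSet cube := MeasurableSet.univ_pi fun _ => measurableSet_Ico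

theorem cube_sub : cube ⊆ Set.univ.pi fun _ : Fin 3 => Set.Icc (0:ℝ) 1 :=
  Set.pi_mono fun _ _ => Set.Ico_subset_Icc_self

theorem cube_vol : volume cube = 1 := by
  unfold cube
  rw [Real.volume_pi_Ico]
  simp

instance cube_fin : IsFiniteMeasure (volume.restrict cube) := ⟨by
  rw [Measure.restrict_apply_univ, cube_vol]; exact ENNReal.one_lt_top⟩

theorem cint {E : Type*} [NormedAddCommGroup E] {f : (Fin 3 → ℝ) → E} (hf : Continuous f) : IntegrableOn f cube := by
  have h1 : IsCompact (Set.univ.pi fun _ : Fin 3 => Set.Icc (0:ℝ) 1) := isCompact_univ_pi fun _ => isCompact_Icc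
  exact (hf.continuousOn.integrableOn_compact h1).mono_set cube_sub

theorem TP.BL {D B : ℕ} (S : List Bool) {f : ℝ → ℂ} (hf : TP D f) :
    BL (D * (B:ℝ) ^ (2 * code S)) (fun x => f (dr (Xi B S) x)) := by
  obtain ⟨I, hI, a, n, hn, hf⟩ := hf
  refine ⟨I, hI, a, fun i => n i • Xi B S, ?_, ?_⟩
  · intro i
    have h1 : ((n i • Xi B S) 2 : ℤ) = n i * (B:ℤ) ^ (2 * code S) := by
      simp [Xi]
    beta_reduce
    rw [h1]
    push_cast
    rw [abs_mul, abs_of_nonneg (by positivity : (0:ℝ) ≤ (B:ℝ) ^ (2 * code S))]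
    apply mul_le_mul_of_nonneg_right _ (by positivity)
    exact_mod_cast hn i
  · intro x
    beta_reduce
    rw [hf]
    congr 1; funext i
    rw [dr_smul]
    push_cast
    rfl

theorem onestep {D B : ℕ} {R : ℝ} (S : List Bool) {f : ℝ → ℂ} (hf : TP D f) {g : (Fin 3 → ℝ) → ℂ} (hg : BL R g)
    (hR : R < (B:ℝ) ^ (2 * code S)) :
    ∫ x in cube, g x * f (dr (Xi B S) x) = (∫ x in cube, g x) * ∫ t in (0:ℝ)..1, f t := by
  obtain ⟨I, hI, a, ξ, hξ, hg⟩ := hg
  obtain ⟨J, hJ, b, n, hn, hf⟩ := hf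
  have hec := ee_cont
  have hint : ∀ ζ : Fin 3 → ℤ, IntegrableOn (fun x => ee (dr ζ x)) cube := fun ζ => cint (by
    have := dr_cont ζ
    fun_prop)
  have e1 : ∫ t in (0:ℝ)..1, f t = ∑ j, b j * (if n j = 0 then 1 else 0) := by
    simp only [hf]
    rw [intervalIntegral.integral_finsetSum]
    · congr 1; funext j
      rw [intervalIntegral.integral_const_mul, int_ee]
    · intro j _
      apply Continuous.intervalIntegrable
      fun_prop
  have e2 : ∫ x in cube, g x = ∑ i, a i * (if ξ i = 0 then 1 else 0) := by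
    simp only [hg]
    rw [integral_finsetSum]
    · congr 1; funext i
      rw [integral_const_mul, orth]
    · intro i _
      exact (hint _).const_mul _
  have e3 : ∫ x in cube, g x * f (dr (Xi B S) x) = ∑ i, ∑ j, a i * b j * (if ξ i + n j • Xi B S = 0 then 1 else 0) := by
    have : ∀ x, g x * f (dr (Xi B S) x) = ∑ i, ∑ j, a i * b j * ee (dr (ξ i + n j • Xi B S) x) := by
      intro x
      rw [hg, hf, Finset.sum_mul_sum]
      congr 1; funext i; congr 1; funext j
      rw [dr_add, dr_smul]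
      push_cast
      rw [ee_add]
      ring
    simp only [this]
    rw [integral_finsetSum]
    · congr 1; funext i
      rw [integral_finsetSum]
      · congr 1; funext j
        rw [integral_const_mul, orth]
      · intro j _
        exact (hint _).const_mul _
    · intro i _
      exact integrable_finsetSum _ fun j _ => (hint _).const_mul _
  rw [e1, e2, e3, Finset.sum_mul_sum]
  congr 1; funext i; congr 1; funext j
  have hlam : (Xi B S 2 : ℤ) = (B:ℤ) ^ (2 * code S) := by simp [Xi]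
  by_cases hnj : n j = 0
  · rw [hnj]
    simp only [zero_smul, add_zero, if_true, mul_one]
    ring
  · rw [if_neg hnj]
    have : ξ i + n j • Xi B S ≠ 0 := by
      intro h0
      have h1 := congrFun h0 2
      simp only [Pi.add_apply, Pi.smul_apply, smul_eq_mul, Pi.zero_apply, hlam] at h1
      have h2 : (ξ i 2 : ℝ) + n j * (B:ℝ) ^ (2 * code S) = 0 := by exact_mod_cast h1
      have h3 := hξ i
      have h4 : (1:ℝ) ≤ |(n j : ℝ)| := by
        have : (1:ℤ) ≤ |n j| := Int.one_le_abs hnj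
        exact_mod_cast this
      have h5 : |(n j : ℝ) * (B:ℝ) ^ (2 * code S)| ≤ R := by
        have : (n j : ℝ) * (B:ℝ) ^ (2 * code S) = -(ξ i 2 : ℝ) := by linarith
        rw [this, abs_neg]; exact h3
      rw [abs_mul, abs_of_nonneg (by positivity : (0:ℝ) ≤ (B:ℝ) ^ (2 * code S))] at h5
      nlinarith [show (0:ℝ) ≤ (B:ℝ) ^ (2 * code S) by positivity]
    rw [if_neg this]
    ring

/-- products along a branch -/
noncomputable def Wf {R : Type*} [Monoid R] (B : ℕ) (w : ℕ → Bool → ℝ → R) : List Bool → (Fin 3 → ℝ) → R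
  | [], _ => 1
  | d :: S, x => Wf B w S x * w S.length d (dr (Xi B S) x)

/-- lists of given length -/
def Bk : ℕ → Finset (List Bool)
  | 0 => {[]}
  | k + 1 => (Bk k).image (List.cons false) ∪ (Bk k).image (List.cons true)

theorem mem_Bk {k : ℕ} {S : List Bool} : S ∈ Bk k ↔ S.length = k := by
  induction k generalizing S with
  | zero => simp [Bk]
  | succ k ih =>
    simp only [Bk, Finset.mem_union, Finset.mem_image]
    constructor
    · rintro (⟨T, hT, rfl⟩ | ⟨T, hT, rfl⟩) <;> simp [ih.1 hT]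
    · intro h
      cases S with
      | nil => simp at h
      | cons d S =>
        have hS : S ∈ Bk k := ih.2 (by simpa using h)
        cases d
        · left; exact ⟨S, hS, rfl⟩
        · right; exact ⟨S, hS, rfl⟩

theorem sum_Bk_succ {M : Type*} [AddCommMonoid M] (k : ℕ) (f : List Bool → M) :
    ∑ S ∈ Bk (k + 1), f S = ∑ S ∈ Bk k, (f (false :: S) + f (true :: S)) := by
  rw [Bk, Finset.sum_union]
  · rw [Finset.sum_image, Finset.sum_image, Finset.sum_add_distrib]
    · intro a _ b _ hab; exact (List.cons.inj hab).2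
    · intro a _ b _ hab; exact (List.cons.inj hab).2
  · rw [Finset.disjoint_left]
    intro T h1 h2
    rw [Finset.mem_image] at h1 h2
    obtain ⟨A, _, rfl⟩ := h1
    obtain ⟨A', _, h⟩ := h2
    have := (List.cons.inj h).1
    simp at this

theorem code_pos (S : List Bool) : 1 ≤ code S := by
  induction S with
  | nil => simp [code]
  | cons d S ih => simp only [code]; omega

theorem code_lt (d : Bool) (S : List Bool) : code S + 1 ≤ code (d :: S) := by
  have := code_pos S
  simp only [code]; omega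

theorem Wf_BL {D B : ℕ} (hB : 2 ≤ B) {w : ℕ → Bool → ℝ → ℂ} (hw : ∀ j d, TP D (w j d)) (S : List Bool) :
    BL (2 * D * (B:ℝ) ^ (2 * (code S - 1))) (Wf B w S) := by
  have hB' : (2:ℝ) ≤ B := by exact_mod_cast hB
  induction S with
  | nil => exact BL.const (by positivity) 1
  | cons d S ih =>
    have h1 := ih.mul ((hw S.length d).BL (B := B) S)
    have h2 : BL (2 * D * (B:ℝ) ^ (2 * (code S - 1)) + D * (B:ℝ) ^ (2 * code S)) (Wf B w (d :: S)) := h1
    apply h2.mono
    have hc := code_pos S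
    have hc2 := code_lt d S
    have e1 : (B:ℝ) ^ (2 * code S) = (B:ℝ) ^ (2 * (code S - 1)) * (B:ℝ) ^ 2 := by
      rw [← pow_add]; congr 1; omega
    have e2 : (B:ℝ) ^ (2 * code S) ≤ (B:ℝ) ^ (2 * (code (d :: S) - 1)) :=
      pow_le_pow_right₀ (by linarith) (by omega)
    have e3 : 2 * (B:ℝ) ^ (2 * (code S - 1)) ≤ (B:ℝ) ^ (2 * code S) := by
      rw [e1]
      have : (0:ℝ) ≤ (B:ℝ) ^ (2 * (code S - 1)) := by positivity
      have h4 : (2:ℝ) ≤ (B:ℝ) ^ 2 := by nlinarith
      rw [mul_comm]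
      exact mul_le_mul_of_nonneg_left h4 this
    have hD : (0:ℝ) ≤ D := by positivity
    nlinarith

theorem Wf_lt {D B : ℕ} (hB : 2 * D < B ^ 2) (hB0 : 0 < B) (S : List Bool) :
    2 * (D:ℝ) * (B:ℝ) ^ (2 * (code S - 1)) < (B:ℝ) ^ (2 * code S) := by
  have hc := code_pos S
  have e1 : (B:ℝ) ^ (2 * code S) = (B:ℝ) ^ 2 * (B:ℝ) ^ (2 * (code S - 1)) := by
    rw [← pow_add]; congr 1; omega
  rw [e1]
  apply mul_lt_mul_of_pos_right _ (by positivity)
  exact_mod_cast hB

theorem prod_formula {D B : ℕ} (hB2 : 2 ≤ B) (hB : 2 * D < B ^ 2) {w : ℕ → Bool → ℝ → ℂ}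
    (hw : ∀ j d, TP D (w j d)) (k : ℕ) :
    ∑ S ∈ Bk k, ∫ x in cube, Wf B w S x =
      ∏ j ∈ range k, ((∫ t in (0:ℝ)..1, w j false t) + ∫ t in (0:ℝ)..1, w j true t) := by
  induction k with
  | zero =>
    simp only [Bk, Finset.sum_singleton, Wf, Finset.range_zero, Finset.prod_empty]
    rw [setIntegral_const, measureReal_def, cube_vol]
    simp
  | succ k ih =>
    rw [sum_Bk_succ, Finset.prod_range_succ, ← ih, Finset.sum_mul]
    apply Finset.sum_congr rfl
    intro S hS
    have hl := mem_Bk.1 hS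
    have h1 := fun d => onestep S (hw S.length d) (Wf_BL hB2 hw S) (Wf_lt hB (by omega) S)
    have e : ∀ d, ∫ x in cube, Wf B w (d :: S) x = (∫ x in cube, Wf B w S x) * ∫ t in (0:ℝ)..1, w k d t := by
      intro d
      have := h1 d
      rw [hl] at this
      rw [← this]
      simp only [Wf, hl]
    rw [e, e]
    ring

end Pool.Agent.Z26.HU
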