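import Mathlib
import Pool.Agent.Z26.HU.H2

set_option autoImplicit false

namespace Pool.Agent.Z26.HU

open MeasureTheory Finset

theorem Wf_cast (B : ℕ) (w : ℕ → Bool → ℝ → ℝ) (S : List Bool) (x : Fin 3 → ℝ) :
    ((Wf B w S x : ℝ) : ℂ) = Wf B (fun j d t => (w j d t : ℂ)) S x := by
  induction S with
  | nil => simp [Wf]
  | cons d S ih => simp only [Wf]; push_cast; rw [ih]

theorem Wf_mul {R : Type*} [CommMonoid R] (B : ℕ) (w w' : ℕ → Bool → ℝ → R) (S : List Bool) (x : Fin 3 → ℝ) :
    Wf B w S x * Wf B w' S x = Wf B (fun j d t => w j d t * w' j d t) S x := by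
  induction S with
  | nil => simp [Wf]
  | cons d S ih => simp only [Wf]; rw [← ih]; exact mul_mul_mul_comm _ _ _ _

theorem Wf_nonneg {B : ℕ} {w : ℕ → Bool → ℝ → ℝ} (hw : ∀ j d t, 0 ≤ w j d t) (S : List Bool) (x : Fin 3 → ℝ) :
    0 ≤ Wf B w S x := by
  induction S with
  | nil => simp [Wf]
  | cons d S ih => simp only [Wf]; exact mul_nonneg ih (hw _ _ _)

theorem Wf_le {B : ℕ} {w : ℕ → Bool → ℝ → ℝ} (hw : ∀ j d t, 0 ≤ w j d t) (hw1 : ∀ j d t, w j d t ≤ 1)
    (S : List Bool) (x : Fin 3 → ℝ) : Wf B w S x ≤ 1 := by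
  induction S with
  | nil => simp [Wf]
  | cons d S ih => simp only [Wf]; exact mul_le_one₀ ih (hw _ _ _) (hw1 _ _ _)

theorem Wf_cont {X : Type*} [TopologicalSpace X] {B : ℕ} {R : Type*} [Monoid R] [TopologicalSpace R] [ContinuousMul R]
    {w : X → ℕ → Bool → ℝ → R}
    (hw : ∀ j d, Continuous fun p : X × ℝ => w p.1 j d p.2) (S : List Bool) :
    Continuous fun p : X × (Fin 3 → ℝ) => Wf B (w p.1) S p.2 := by
  induction S with
  | nil => simp only [Wf]; exact continuous_const
  | cons d S ih =>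
    simp only [Wf]
    apply ih.mul
    exact (hw S.length d).comp (continuous_fst.prodMk ((dr_cont _).comp continuous_snd))

theorem prod_formula_real {D B : ℕ} (hB2 : 2 ≤ B) (hB : 2 * D < B ^ 2) {w : ℕ → Bool → ℝ → ℝ}
    (hw : ∀ j d, TP D (fun t => (w j d t : ℂ))) (k : ℕ) :
    ∑ S ∈ Bk k, ∫ x in cube, Wf B w S x =
      ∏ j ∈ range k, ((∫ t in (0:ℝ)..1, w j false t) + ∫ t in (0:ℝ)..1, w j true t) := by
  have h := prod_formula hB2 hB hw k
  have e1 : ∀ S, ∫ x in cube, Wf B (fun j d t => (w j d t : ℂ)) S x = ((∫ x in cube, Wf B w S x : ℝ) : ℂ) := by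
    intro S
    have h0 : ∫ x in cube, ((Wf B w S x : ℝ) : ℂ) = ((∫ x in cube, Wf B w S x : ℝ) : ℂ) := integral_ofReal
    rw [← h0]
    congr 1; funext x
    exact (Wf_cast B w S x).symm
  simp only [e1, intervalIntegral.integral_ofReal] at h
  exact_mod_cast h

theorem swap {E : Type*} [NormedAddCommGroup E] [NormedSpace ℝ E] (f : (Fin 3 → ℝ) → ℝ → E)
    (hf : Continuous (Function.uncurry f)) :
    ∫ x in cube, ∫ s in (0:ℝ)..1, f x s = ∫ s in (0:ℝ)..1, ∫ x in cube, f x s := by
  simp only [intervalIntegral.integral_of_le zero_le_one]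
  apply integral_integral_swap
  rw [Measure.prod_restrict]
  have hcpt : IsCompact ((Set.univ.pi fun _ : Fin 3 => Set.Icc (0:ℝ) 1) ×ˢ Set.Icc (0:ℝ) 1) :=
    (isCompact_univ_pi fun _ => isCompact_Icc).prod isCompact_Icc
  exact (hf.continuousOn.integrableOn_compact hcpt).mono_set (Set.prod_mono cube_sub Set.Ioc_subset_Icc_self)

theorem par_cont {X E : Type*} [TopologicalSpace X] [NormedAddCommGroup E] [NormedSpace ℝ E] [FirstCountableTopology X]
    (f : X → ℝ → E) (hf : Continuous (Function.uncurry f)) :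
    Continuous fun x => ∫ s in (0:ℝ)..1, f x s :=
  intervalIntegral.continuous_parametric_intervalIntegral_of_continuous' hf 0 1

noncomputable def GR (P : ℝ → ℝ) (B : ℕ) (σ : ℕ → ℝ) (S : List Bool) (x : Fin 3 → ℝ) : ℝ :=
  Wf B (fun j d t => PP P d (t + sh d (σ j))) S x

noncomputable def pT (P : ℝ → ℝ) (B : ℕ) (S : List Bool) (x : Fin 3 → ℝ) : ℝ :=
  Wf B (fun _ d t => PP P d t) S x

noncomputable def hR (P : ℝ → ℝ) (B : ℕ) (S : List Bool) (x : Fin 3 → ℝ) : ℂ :=
  ∫ s in (0:ℝ)..1, (GR P B (fun _ => s) S x : ℂ) * ee (-s)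

noncomputable def gR (P : ℝ → ℝ) (B : ℕ) (S : List Bool) (x : Fin 3 → ℝ) : ℝ :=
  ∫ s in (0:ℝ)..1, GR P B (fun _ => s) S x

noncomputable def wd (d : Bool) : ℝ := Real.exp (-(2 * Real.pi * (1 + if d then 1 else 0)))

noncomputable def Ft (P : ℝ → ℝ) (B : ℕ) : List Bool → (Fin 3 → ℝ) → ℂ
  | [], _ => 0
  | d :: T, x => Ft P B T x + Complex.I * (wd d * (ee (dr (Xi B T) x) * hR P B T x))

noncomputable def gs (P : ℝ → ℝ) (B : ℕ) : List Bool → (Fin 3 → ℝ) → ℝ
  | [], _ => 0
  | _ :: T, x => gs P B T x + gR P B T x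

/-- correlation function -/
noncomputable def aa (P : ℝ → ℝ) (s : ℝ) : ℝ := (∫ t in (0:ℝ)..1, (1 - P t) * (1 - P t)) + ∫ t in (0:ℝ)..1, P t * P (t + s)

noncomputable def bb (P : ℝ → ℝ) (k : ℕ) : ℝ := ∫ s in (0:ℝ)..1, aa P s ^ k

theorem Ft_eq (P : ℝ → ℝ) (B : ℕ) (T : List Bool) (x : Fin 3 → ℝ) :
    Ft P B T x = Complex.I * ∑ k ∈ range T.length, ∑ S ∈ Bk k, (wt T S : ℂ) * (ee (dr (Xi B S) x) * hR P B S x) := by
  induction T with
  | nil => simp [Ft]
  | cons d T ih =>
    rw [Ft, ih, List.length_cons, Finset.sum_range_succ, mul_add]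
    congr 1
    · congr 1
      apply Finset.sum_congr rfl
      intro k hk
      apply Finset.sum_congr rfl
      intro S hS
      have hS' := mem_Bk.1 hS
      have hne : S ≠ T := by
        rintro rfl
        rw [Finset.mem_range] at hk
        omega
      simp [wt, hne]
    · congr 1
      rw [Finset.sum_eq_single T]
      · simp [wt, wd]
      · intro S hS hne
        have hS' := mem_Bk.1 hS
        have : wt (d :: T) S = 0 := by
          simp only [wt, hne, if_false]
          exact wt_len (by omega)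
        rw [this]; simp
      · intro h
        exact absurd (mem_Bk.2 rfl) h

section
variable {N : ℕ} {P : ℝ → ℝ} {c : ℤ → ℂ} (hP : Sel N P c)
include hP

theorem P_cont : Continuous P := by
  have h := (PP_TP hP true).cont
  have : P = fun t => (((PP P true t : ℝ) : ℂ)).re := by funext t; simp [PP]
  rw [this]
  exact Complex.continuous_re.comp h

theorem PP_cont (d : Bool) : Continuous (PP P d) := by
  have := P_cont hP
  cases d
  · have h2 : PP P false = fun t => 1 - P t := by funext t; simp [PP]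
    rw [h2]; fun_prop
  · have h2 : PP P true = P := by funext t; simp [PP]
    rw [h2]; exact this

theorem P_per : Function.Periodic P 1 := by
  intro t
  have h1 := hP.rep t
  have h2 := hP.rep (t + 1)
  have h3 : ∑ n ∈ Icc (-(N:ℤ)) N, c n * ee (n * ((t + 1 : ℝ) : ℂ)) = ∑ n ∈ Icc (-(N:ℤ)) N, c n * ee (n * t) := by
    apply Finset.sum_congr rfl
    intro n _
    congr 1
    push_cast
    rw [mul_add, mul_one, ee_add, ee_int, mul_one]
  rw [h3, ← h1] at h2
  exact_mod_cast h2

theorem aa_nonneg (s : ℝ) : 0 ≤ aa P s := by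
  unfold aa
  apply add_nonneg
  · apply intervalIntegral.integral_nonneg zero_le_one
    intro t _
    exact mul_self_nonneg _
  · apply intervalIntegral.integral_nonneg zero_le_one
    intro t _
    exact mul_nonneg (hP.nonneg _) (hP.nonneg _)

theorem aa_le (s : ℝ) : aa P s ≤ 1 := by
  unfold aa
  have hc := P_cont hP
  rw [← intervalIntegral.integral_add (by apply Continuous.intervalIntegrable; fun_prop)
    (by apply Continuous.intervalIntegrable; fun_prop)]
  have h1 : ∫ t in (0:ℝ)..1, ((1 - P t) * (1 - P t) + P t * P (t + s)) ≤ ∫ t in (0:ℝ)..1, (1:ℝ) := by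
    apply intervalIntegral.integral_mono_on zero_le_one (by apply Continuous.intervalIntegrable; fun_prop)
      (by apply Continuous.intervalIntegrable; fun_prop)
    intro t _
    have h1 := hP.nonneg t
    have h2 := hP.le_one t
    have h3 := hP.le_one (t + s)
    have h4 := hP.nonneg (t + s)
    nlinarith
  refine h1.trans ?_
  simp

theorem aa_cont : Continuous (aa P) := by
  have hc := P_cont hP
  unfold aa
  apply continuous_const.add
  apply par_cont (fun s t => P t * P (t + s))
  exact (hc.comp continuous_snd).mul (hc.comp (continuous_snd.add continuous_fst))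

theorem aa_per : Function.Periodic (aa P) 1 := by
  intro s
  unfold aa
  congr 2
  funext t
  rw [← add_assoc, P_per hP]

theorem bb_nonneg (k : ℕ) : 0 ≤ bb P k := by
  unfold bb
  apply intervalIntegral.integral_nonneg zero_le_one
  intro t _
  exact pow_nonneg (aa_nonneg hP t) k

omit hP in
theorem bb_zero : bb P 0 = 1 := by unfold bb; simp

theorem GR_nonneg (B : ℕ) (σ : ℕ → ℝ) (S : List Bool) (x : Fin 3 → ℝ) : 0 ≤ GR P B σ S x :=
  Wf_nonneg (fun _ _ _ => PP_nonneg hP _ _) S x

theorem GR_le (B : ℕ) (σ : ℕ → ℝ) (S : List Bool) (x : Fin 3 → ℝ) : GR P B σ S x ≤ 1 :=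
  Wf_le (fun _ _ _ => PP_nonneg hP _ _) (fun _ _ _ => PP_le hP _ _) S x

theorem pT_nonneg (B : ℕ) (S : List Bool) (x : Fin 3 → ℝ) : 0 ≤ pT P B S x :=
  Wf_nonneg (fun _ _ _ => PP_nonneg hP _ _) S x

/-- joint continuity of packets in a parameter -/
theorem GR_cont {X : Type*} [TopologicalSpace X] (B : ℕ) {σ : X → ℕ → ℝ} (hσ : ∀ j, Continuous fun p => σ p j)
    (S : List Bool) : Continuous fun p : X × (Fin 3 → ℝ) => GR P B (σ p.1) S p.2 := by
  unfold GR
  apply Wf_cont (w := fun p j d t => PP P d (t + sh d (σ p j)))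
  intro j d
  apply (PP_cont hP d).comp
  apply continuous_snd.add
  cases d
  · simp only [sh, Bool.false_eq_true, if_false]; exact continuous_const
  · simp only [sh, if_true]; exact (hσ j).comp continuous_fst

theorem GR_cont' (B : ℕ) (S : List Bool) : Continuous (Function.uncurry fun (x : Fin 3 → ℝ) (s : ℝ) => GR P B (fun _ => s) S x) := by
  have h := GR_cont hP B (X := ℝ) (σ := fun s _ => s) (fun j => continuous_id) S
  exact h.comp continuous_swap

theorem pT_cont (B : ℕ) (S : List Bool) : Continuous (pT P B S) := by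
  have h := Wf_cont (X := Unit) (B := B) (w := fun _ _ d t => PP P d t) (fun j d => (PP_cont hP d).comp continuous_snd) S
  exact h.comp (Continuous.prodMk_right ())

theorem gR_cont (B : ℕ) (S : List Bool) : Continuous (gR P B S) := par_cont _ (GR_cont' hP B S)

theorem hR_cont (B : ℕ) (S : List Bool) : Continuous (hR P B S) := by
  apply par_cont
  have h1 := GR_cont' hP B S
  have h2 := ee_cont
  have h3 : Continuous fun p : (Fin 3 → ℝ) × ℝ => ee (-p.2) := by fun_prop
  exact (Complex.continuous_ofReal.comp h1).mul h3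

theorem gR_nonneg (B : ℕ) (S : List Bool) (x : Fin 3 → ℝ) : 0 ≤ gR P B S x :=
  intervalIntegral.integral_nonneg zero_le_one fun _ _ => GR_nonneg hP _ _ _ _

theorem gR_le (B : ℕ) (S : List Bool) (x : Fin 3 → ℝ) : gR P B S x ≤ 1 := by
  unfold gR
  have h1 : ∫ s in (0:ℝ)..1, GR P B (fun _ => s) S x ≤ ∫ s in (0:ℝ)..1, (1:ℝ) := by
    apply intervalIntegral.integral_mono_on zero_le_one
    · apply Continuous.intervalIntegrable
      exact (GR_cont' hP B S).comp (Continuous.prodMk_right x)
    · apply Continuous.intervalIntegrable; fun_prop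
    · intro s _; exact GR_le hP _ _ _ _
  refine h1.trans ?_
  simp

theorem hR_le (B : ℕ) (S : List Bool) (x : Fin 3 → ℝ) : ‖hR P B S x‖ ≤ gR P B S x := by
  unfold hR gR
  apply intervalIntegral.norm_integral_le_of_norm_le zero_le_one
  · apply Filter.Eventually.of_forall
    intro s _
    have : ee (-(s:ℂ)) = ee ((-s : ℝ) : ℂ) := by push_cast; rfl
    rw [norm_mul, this, ee_norm_real, mul_one, Complex.norm_real, Real.norm_of_nonneg (GR_nonneg hP _ _ _ _)]
  · apply Continuous.intervalIntegrable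
    exact (GR_cont' hP B S).comp (Continuous.prodMk_right x)

omit hP in
theorem wd_le (d : Bool) : wd d ≤ 1 := by
  unfold wd
  rw [Real.exp_le_one_iff]
  have := Real.pi_pos
  cases d
  · simp; positivity
  · simp; positivity

omit hP in
theorem wd_nonneg (d : Bool) : 0 ≤ wd d := (Real.exp_pos _).le

theorem Ft_le (B : ℕ) (T : List Bool) (x : Fin 3 → ℝ) : ‖Ft P B T x‖ ≤ gs P B T x := by
  induction T with
  | nil => simp [Ft, gs]
  | cons d T ih =>
    simp only [Ft, gs]
    refine (norm_add_le _ _).trans (add_le_add ih ?_)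
    rw [norm_mul, norm_mul, norm_mul, Complex.norm_I, one_mul, ee_norm_real, one_mul, Complex.norm_real,
      Real.norm_of_nonneg (wd_nonneg d)]
    have h1 := hR_le hP B T x
    have h2 := wd_le d
    have h3 := wd_nonneg d
    have h4 := norm_nonneg (hR P B T x)
    nlinarith

theorem gs_nonneg (B : ℕ) (T : List Bool) (x : Fin 3 → ℝ) : 0 ≤ gs P B T x := (norm_nonneg _).trans (Ft_le hP B T x)

theorem gs_cont (B : ℕ) (T : List Bool) : Continuous (gs P B T) := by
  induction T with
  | nil => exact continuous_const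
  | cons d T ih => exact ih.add (gR_cont hP B T)

theorem Ft_cont (B : ℕ) (T : List Bool) : Continuous (Ft P B T) := by
  induction T with
  | nil => exact continuous_const
  | cons d T ih =>
    have h1 := hR_cont hP B T
    have h2 : Continuous fun x => ee (dr (Xi B T) x) := by
      have := ee_cont
      have := dr_cont (Xi B T)
      fun_prop
    exact ih.add (continuous_const.mul (continuous_const.mul (h2.mul h1)))

/-- the sum of the selection weights is one -/
theorem pT_sum (B k : ℕ) (x : Fin 3 → ℝ) : ∑ S ∈ Bk k, pT P B S x = 1 := by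
  induction k with
  | zero => simp [Bk, pT, Wf]
  | succ k ih =>
    rw [sum_Bk_succ, ← ih]
    apply Finset.sum_congr rfl
    intro S _
    simp only [pT, Wf, PP]
    simp only [Bool.false_eq_true, if_false, if_true]
    ring

theorem GC_real (B : ℕ) (S : List Bool) (x : Fin 3 → ℝ) (s : ℝ) :
    GC N c B S (fun j => (x j : ℂ)) s = (GR P B (fun _ => s) S x : ℂ) := by
  induction S with
  | nil => simp [GC, GR, Wf]
  | cons d S ih =>
    simp only [GC, GR, Wf] at ih ⊢
    rw [ih, dz_real, ← Complex.ofReal_add, PC_real hP]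
    push_cast
    rfl

theorem hC_real (B : ℕ) (S : List Bool) (x : Fin 3 → ℝ) :
    hC N c B S (fun j => (x j : ℂ)) = hR P B S x := by
  unfold hC hR
  congr 1; funext s
  rw [GC_real hP]

end

end Pool.Agent.Z26.HU
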