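import Mathlib
import Pool.Agent.Z26.HU.H3
import Pool.Agent.Z26.HU.G0

set_option autoImplicit false

namespace Pool.Agent.Z26.HU

open MeasureTheory Finset

theorem TP.smul {D : ℕ} {f : ℝ → ℂ} (hf : TP D f) (w : ℂ) : TP D (fun t => w * f t) := by
  have := (TP.const 0 w).mul hf
  rwa [zero_add] at this

/-- mean of the weighted sum over the leaves -/
theorem mean_formula {N B : ℕ} {P : ℝ → ℝ} {c : ℤ → ℂ} (hP : Sel N P c) (hB2 : 2 ≤ B)
    (hB : 2 * (2 * N + 1) < B ^ 2) (K : ℕ) :
    ∑ T ∈ Bk K, ∫ x in cube, (pT P B T x : ℂ) * Ft P B T x =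
      (Complex.I * ∫ t in (0:ℝ)..1, ee t * ((PP P false t : ℂ) * wd false + (PP P true t : ℂ) * wd true)) *
        ∑ k ∈ range K, ∫ s in (0:ℝ)..1, ee (-s) * (aa P s : ℂ) ^ k := by
  have hec := ee_cont
  have hPc := PP_cont hP
  set κ : ℂ := Complex.I * ∫ t in (0:ℝ)..1, ee t * ((PP P false t : ℂ) * wd false + (PP P true t : ℂ) * wd true) with hκ
  -- one block
  have hfTP : TP (2 * N + 1) (fun t => ee t * ((PP P false t : ℂ) * wd false + (PP P true t : ℂ) * wd true)) := by
    have h1 : TP (0 + N) (fun t => (wd false : ℂ) * (PP P false t : ℂ)) := (TP.const 0 _).mul (PP_TP hP false)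
    have h2 : TP (0 + N) (fun t => (wd true : ℂ) * (PP P true t : ℂ)) := (TP.const 0 _).mul (PP_TP hP true)
    have h3 := TP.ee1.mul (h1.add h2)
    have h4 := h3.mono (D' := 2 * N + 1) (by omega)
    have h5 : (fun t : ℝ => ee t * ((PP P false t : ℂ) * wd false + (PP P true t : ℂ) * wd true)) =
        fun t : ℝ => ee t * (((wd false : ℂ) * (PP P false t : ℂ)) + ((wd true : ℂ) * (PP P true t : ℂ))) := by
      funext t; ring
    rw [h5]; exact h4
  have hw : ∀ (s : ℝ) (j : ℕ) (d : Bool), TP (2 * N) (fun t => ((PP P d t * PP P d (t + sh d s) : ℝ) : ℂ)) := by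
    intro s j d
    have h1 := (PP_TP hP d).mul ((PP_TP hP d).shift (sh d s))
    have h2 := h1.mono (D' := 2 * N) (by omega)
    refine cast ?_ h2
    congr 1
    funext t
    push_cast
    rfl
  have hblock : ∀ k, ∑ S ∈ Bk k, ∫ x in cube, (pT P B S x : ℂ) * (hR P B S x * (Complex.I *
      (ee (dr (Xi B S) x) * ((PP P false (dr (Xi B S) x) : ℂ) * wd false + (PP P true (dr (Xi B S) x) : ℂ) * wd true)))) =
      κ * ∫ s in (0:ℝ)..1, ee (-s) * (aa P s : ℂ) ^ k := by
    intro k
    -- integrate in s last
    have e1 : ∀ S ∈ Bk k, ∫ x in cube, (pT P B S x : ℂ) * (hR P B S x * (Complex.I *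
      (ee (dr (Xi B S) x) * ((PP P false (dr (Xi B S) x) : ℂ) * wd false + (PP P true (dr (Xi B S) x) : ℂ) * wd true)))) =
        ∫ s in (0:ℝ)..1, ee (-s) * (κ * ((∫ x in cube, pT P B S x * GR P B (fun _ => s) S x : ℝ) : ℂ)) := by
      intro S hS
      have e2 : ∀ x, (pT P B S x : ℂ) * (hR P B S x * (Complex.I *
        (ee (dr (Xi B S) x) * ((PP P false (dr (Xi B S) x) : ℂ) * wd false + (PP P true (dr (Xi B S) x) : ℂ) * wd true)))) =
          ∫ s in (0:ℝ)..1, ee (-s) * (Complex.I * (((pT P B S x * GR P B (fun _ => s) S x : ℝ) : ℂ) *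
          (ee (dr (Xi B S) x) * ((PP P false (dr (Xi B S) x) : ℂ) * wd false + (PP P true (dr (Xi B S) x) : ℂ) * wd true)))) := by
        intro x
        unfold hR
        rw [← intervalIntegral.integral_mul_const, ← intervalIntegral.integral_const_mul]
        congr 1
        funext s
        push_cast
        ring
      simp only [e2]
      have hdr := dr_cont (Xi B S)
      rw [swap]
      · congr 1
        funext s
        rw [integral_const_mul, integral_const_mul]
        congr 1
        have h3 : ∀ x, pT P B S x * GR P B (fun _ => s) S x = Wf B (fun _ d t => PP P d t * PP P d (t + sh d s)) S x := by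
          intro x
          unfold pT GR
          rw [Wf_mul]
        have h4 : (fun x => ((pT P B S x * GR P B (fun _ => s) S x : ℝ) : ℂ)) =
            Wf B (fun _ d t => ((PP P d t * PP P d (t + sh d s) : ℝ) : ℂ)) S := by
          funext x
          rw [h3, Wf_cast]
        have h5 := Wf_BL (B := B) hB2 (hw s) S
        rw [← h4] at h5
        have h6 := onestep S hfTP h5 (Wf_lt (by omega) (by omega) S)
        rw [h6, hκ]
        have h7 : ∫ x in cube, ((pT P B S x * GR P B (fun _ => s) S x : ℝ) : ℂ) =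
          ((∫ x in cube, pT P B S x * GR P B (fun _ => s) S x : ℝ) : ℂ) := integral_ofReal
        rw [h7]
        ring
      · have h1 := GR_cont' hP B S
        have h2 := pT_cont hP B S
        have h3 : Continuous fun p : (Fin 3 → ℝ) × ℝ => pT P B S p.1 * GR P B (fun _ => p.2) S p.1 :=
          (h2.comp continuous_fst).mul h1
        have h4 := Complex.continuous_ofReal.comp h3
        have h5 : Continuous fun p : (Fin 3 → ℝ) × ℝ => ee (-p.2) := by fun_prop
        have h6 : Continuous fun p : (Fin 3 → ℝ) × ℝ => ee (dr (Xi B S) p.1) * ((PP P false (dr (Xi B S) p.1) : ℂ) * wd false +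
            (PP P true (dr (Xi B S) p.1) : ℂ) * wd true) := by
          have := hPc false
          have := hPc true
          fun_prop
        exact h5.mul (continuous_const.mul (h4.mul h6))
    rw [Finset.sum_congr rfl e1, ← intervalIntegral.integral_finsetSum]
    · rw [← intervalIntegral.integral_const_mul]
      congr 1
      funext s
      rw [← Finset.mul_sum, ← Finset.mul_sum]
      have h3 : ∑ S ∈ Bk k, (∫ x in cube, pT P B S x * GR P B (fun _ => s) S x) = aa P s ^ k := by
        have h4 := prod_formula_real hB2 (by omega) (hw s) k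
        have h5 : ∀ S x, pT P B S x * GR P B (fun _ => s) S x = Wf B (fun _ d t => PP P d t * PP P d (t + sh d s)) S x := by
          intro S x
          unfold pT GR
          rw [Wf_mul]
        simp only [h5]
        rw [h4, Finset.prod_const, Finset.card_range]
        congr 1
        unfold aa PP sh
        simp
      have h8 : ∑ S ∈ Bk k, ((∫ x in cube, pT P B S x * GR P B (fun _ => s) S x : ℝ) : ℂ) = (aa P s : ℂ) ^ k := by
        rw [← Complex.ofReal_sum, h3]; push_cast; rfl
      rw [h8]
      ring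
    · intro S _
      apply Continuous.intervalIntegrable
      have h1 : Continuous fun s => ∫ x in cube, pT P B S x * GR P B (fun _ => s) S x := by
        -- dominated: use continuity of parametric integrals
        have hG := GR_cont hP B (X := ℝ) (σ := fun s _ => s) (fun j => continuous_id) S
        apply continuous_of_dominated (bound := fun _ => 1)
        · intro s
          apply Continuous.aestronglyMeasurable
          exact (pT_cont hP B S).mul (hG.comp (Continuous.prodMk_right s))
        · intro s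
          apply Filter.Eventually.of_forall
          intro x
          rw [Real.norm_of_nonneg (mul_nonneg (pT_nonneg hP _ _ _) (GR_nonneg hP _ _ _ _))]
          exact mul_le_one₀ (Wf_le (fun _ _ _ => PP_nonneg hP _ _) (fun _ _ _ => PP_le hP _ _) S x)
            (GR_nonneg hP _ _ _ _) (GR_le hP _ _ _ _)
        · exact integrable_const _
        · apply Filter.Eventually.of_forall
          intro x
          exact continuous_const.mul (hG.comp (Continuous.prodMk_left x))
      have h2 := Complex.continuous_ofReal.comp h1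
      have h3 : Continuous fun s : ℝ => ee (-(s:ℂ)) := by fun_prop
      exact h3.mul (continuous_const.mul h2)
  -- induction on K
  induction K with
  | zero => simp [Bk, Ft]
  | succ K ih =>
    rw [sum_Bk_succ, Finset.sum_range_succ, mul_add, ← ih, ← hblock K, ← Finset.sum_add_distrib]
    apply Finset.sum_congr rfl
    intro S _
    have c1 := pT_cont hP B S
    have c2 := Ft_cont hP B S
    have c3 := hR_cont hP B S
    have c4 := dr_cont (Xi B S)
    have c5 := hPc false
    have c6 := hPc true
    have hpT : ∀ d x, pT P B (d :: S) x = pT P B S x * PP P d (dr (Xi B S) x) := fun d x => rfl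
    have hFt : ∀ d x, Ft P B (d :: S) x = Ft P B S x + Complex.I * (wd d * (ee (dr (Xi B S) x) * hR P B S x)) := fun d x => rfl
    rw [← integral_add, ← integral_add]
    · congr 1
      funext x
      rw [hpT, hpT, hFt, hFt]
      have h1 : (PP P false (dr (Xi B S) x) : ℂ) = 1 - (PP P true (dr (Xi B S) x) : ℂ) := by
        unfold PP; simp
      push_cast
      rw [h1]
      ring
    · apply cint; fun_prop
    · apply cint; fun_prop
    · apply cint
      simp only [hpT, hFt]
      fun_prop
    · apply cint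
      simp only [hpT, hFt]
      fun_prop

theorem ee_im (a b : ℝ) : ee (a + b * Complex.I) = (Real.exp (-(2 * Real.pi * b)) : ℂ) * ee a := by
  unfold ee
  push_cast
  rw [← Complex.exp_add]
  congr 1
  have : Complex.I * Complex.I = -1 := Complex.I_mul_I
  linear_combination (2 * Real.pi * b) * this

theorem exp_diff {a b : ℝ} (ha : 0 ≤ a) (hb : 0 ≤ b) : |Real.exp (-a) - Real.exp (-b)| ≤ |a - b| := by
  wlog h : b ≤ a with H
  · rw [abs_sub_comm, abs_sub_comm a b]
    exact H hb ha (le_of_not_ge h)
  · have h1 : Real.exp (-a) ≤ Real.exp (-b) := Real.exp_le_exp.2 (by linarith)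
    rw [abs_sub_comm, abs_of_nonneg (by linarith), abs_of_nonneg (by linarith)]
    have h2 : Real.exp (-a) = Real.exp (-b) * Real.exp (-(a - b)) := by rw [← Real.exp_add]; congr 1; ring
    have h3 : 1 - (a - b) ≤ Real.exp (-(a - b)) := by
      have := Real.add_one_le_exp (-(a - b)); linarith
    have h4 : Real.exp (-b) ≤ 1 := by rw [Real.exp_le_one_iff]; linarith
    have h5 := Real.exp_pos (-b)
    rw [h2]
    nlinarith

/-- weights are attained up to a small error -/
theorem wt_err {N K : ℕ} (η : ℝ) (hη : 0 < η) : ∃ B0 : ℕ, ∀ B ≥ B0, ∀ S T : List Bool, S.length < K → T.length = K →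
    ∀ ξ : Fin 3 → ℤ, Reach N B S ξ 1 →
      |Real.exp (-(2 * Real.pi * dr (Xi B S + ξ) (yv (th B T)))) - wt T S| ≤ η := by
  have hpi := Real.pi_pos
  set δ := min (1:ℝ) (η / (2 * Real.pi)) with hδ
  have hδ0 : 0 < δ := lt_min one_pos (by positivity)
  obtain ⟨B1, h1⟩ := reach_on (N := N) (K := K) δ hδ0
  -- off path
  obtain ⟨M, hM⟩ : ∃ M : ℝ, Real.exp (-(2 * Real.pi * M)) ≤ η := by
    refine ⟨-Real.log η / (2 * Real.pi), ?_⟩
    have : -(2 * Real.pi * (-Real.log η / (2 * Real.pi))) = Real.log η := by field_simp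
    rw [this, Real.exp_log hη]
  obtain ⟨B2, h2⟩ := reach_off (N := N) (K := K) M
  refine ⟨max B1 B2, fun B hB S T hS hT ξ hξ => ?_⟩
  rcases wt_cases T S with ⟨U, d, hU, hw⟩ | ⟨hS', hw⟩
  · rw [hw]
    have h3 := h1 B ((le_max_left _ _).trans hB) S U d (by rw [← hU, hT]) ξ hξ
    rw [← hU] at h3
    have h4 := abs_le.1 h3
    have hd : (0:ℝ) ≤ (if d then 1 else 0) := by split_ifs <;> norm_num
    have hδ1 : δ ≤ 1 := min_le_left _ _
    have h5 := exp_diff (a := 2 * Real.pi * dr (Xi B S + ξ) (yv (th B T))) (b := 2 * Real.pi * (1 + if d then 1 else 0))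
      (by apply mul_nonneg (by positivity); linarith) (by positivity)
    refine h5.trans ?_
    rw [← mul_sub, abs_mul, abs_of_pos (by positivity : (0:ℝ) < 2 * Real.pi)]
    calc 2 * Real.pi * |dr (Xi B S + ξ) (yv (th B T)) - (1 + if d then 1 else 0)| ≤ 2 * Real.pi * δ :=
          mul_le_mul_of_nonneg_left h3 (by positivity)
      _ ≤ 2 * Real.pi * (η / (2 * Real.pi)) := mul_le_mul_of_nonneg_left (min_le_right _ _) (by positivity)
      _ = η := by field_simp
  · rw [hw, sub_zero, abs_of_pos (Real.exp_pos _)]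
    have hne : S ≠ T := by rintro rfl; omega
    have h3 := h2 B ((le_max_right _ _).trans hB) S T hS.le hT (hS'.resolve_left hne) ξ hξ
    refine le_trans (Real.exp_le_exp.2 ?_) hM
    have : 2 * Real.pi * M ≤ 2 * Real.pi * dr (Xi B S + ξ) (yv (th B T)) := mul_le_mul_of_nonneg_left h3 (by positivity)
    linarith

theorem err_bound {N : ℕ} {P : ℝ → ℝ} {c : ℤ → ℂ} (hP : Sel N P c) (K : ℕ) (η : ℝ) (hη : 0 < η) :
    ∃ B0 : ℕ, ∀ B ≥ B0, ∀ T : List Bool, T.length = K → ∀ x,
      ‖FF N c B K (cplx x (yv (th B T))) - Ft P B T x‖ ≤ η := by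
  set CA : ℝ := ∑ k ∈ range K, ∑ S ∈ Bk k, AA N c ^ S.length with hCA
  have hCA0 : 0 ≤ CA := Finset.sum_nonneg fun _ _ => Finset.sum_nonneg fun _ _ => pow_nonneg (by linarith [AA_one N c]) _
  obtain ⟨B0, hB0⟩ := wt_err (N := N) (K := K) (η / (CA + 1)) (by positivity)
  refine ⟨B0, fun B hB T hT x => ?_⟩
  rw [Ft_eq, hT, FF, ← mul_sub, norm_mul, Complex.norm_I, one_mul, ← Finset.sum_sub_distrib]
  have hterm : ∀ k ∈ range K, ‖(∑ S ∈ Bk k, ee (dz (Xi B S) (cplx x (yv (th B T)))) * hC N c B S (cplx x (yv (th B T)))) -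
      ∑ S ∈ Bk k, (wt T S : ℂ) * (ee (dr (Xi B S) x) * hR P B S x)‖ ≤ ∑ S ∈ Bk k, AA N c ^ S.length * (η / (CA + 1)) := by
    intro k hk
    rw [← Finset.sum_sub_distrib]
    apply (norm_sum_le _ _).trans
    apply Finset.sum_le_sum
    intro S hS
    obtain ⟨I, hI, a, ξ, hR', hA, hrep⟩ := hC_rep N c B S
    have e1 : ee (dz (Xi B S) (cplx x (yv (th B T)))) * hC N c B S (cplx x (yv (th B T))) =
        ∑ i, a i * ((Real.exp (-(2 * Real.pi * dr (Xi B S + ξ i) (yv (th B T)))) : ℂ) * ee (dr (Xi B S + ξ i) x)) := by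
      rw [hrep, Finset.mul_sum]
      congr 1; funext i
      have : dz (Xi B S) (cplx x (yv (th B T))) + dz (ξ i) (cplx x (yv (th B T))) =
          dr (Xi B S + ξ i) x + dr (Xi B S + ξ i) (yv (th B T)) * Complex.I := by
        rw [← dz_add]; exact dz_im _ _ _
      rw [← ee_im, ← this, ee_add]
      ring
    have e2 : ee (dr (Xi B S) x) * hR P B S x = ∑ i, a i * ee (dr (Xi B S + ξ i) x) := by
      rw [← hC_real hP, hrep, Finset.mul_sum]
      congr 1; funext i
      rw [dz_real, dr_add]
      push_cast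
      rw [ee_add]
      ring
    rw [e1, e2, Finset.mul_sum, ← Finset.sum_sub_distrib]
    apply (norm_sum_le _ _).trans
    have hSl : S.length < K := by rw [mem_Bk.1 hS]; exact Finset.mem_range.1 hk
    calc ∑ i, ‖a i * ((Real.exp (-(2 * Real.pi * dr (Xi B S + ξ i) (yv (th B T)))) : ℂ) * ee (dr (Xi B S + ξ i) x)) -
          (wt T S : ℂ) * (a i * ee (dr (Xi B S + ξ i) x))‖ ≤ ∑ i, ‖a i‖ * (η / (CA + 1)) := by
          apply Finset.sum_le_sum
          intro i _
          have h3 : a i * ((Real.exp (-(2 * Real.pi * dr (Xi B S + ξ i) (yv (th B T)))) : ℂ) * ee (dr (Xi B S + ξ i) x)) -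
            (wt T S : ℂ) * (a i * ee (dr (Xi B S + ξ i) x)) = a i * (((Real.exp (-(2 * Real.pi * dr (Xi B S + ξ i) (yv (th B T)))) -
              wt T S : ℝ) : ℂ) * ee (dr (Xi B S + ξ i) x)) := by push_cast; ring
          rw [h3, norm_mul, norm_mul, ee_norm_real, mul_one, Complex.norm_real, Real.norm_eq_abs]
          exact mul_le_mul_of_nonneg_left (hB0 B hB S T hSl hT (ξ i) (hR' i)) (norm_nonneg _)
      _ ≤ AA N c ^ S.length * (η / (CA + 1)) := by
          rw [← Finset.sum_mul]
          exact mul_le_mul_of_nonneg_right hA (by positivity)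
  calc _ ≤ ∑ k ∈ range K, ∑ S ∈ Bk k, AA N c ^ S.length * (η / (CA + 1)) := by
        apply (norm_sum_le _ _).trans
        exact Finset.sum_le_sum hterm
    _ = CA * (η / (CA + 1)) := by
        rw [hCA, Finset.sum_mul]
        congr 1; funext k
        rw [Finset.sum_mul]
    _ ≤ η := by
        rw [mul_div_assoc', div_le_iff₀ (by positivity)]
        nlinarith

end Pool.Agent.Z26.HU
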