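import Mathlib
import Pool.Agent.Z26.HU.H0

set_option autoImplicit false

namespace Pool.Agent.Z26.HU.XP

open MeasureTheory Finset


theorem cube_meas : MeasurableSet cube := MeasurableSet.univ_pi fun _ => measurableSet_Ico

theorem cube_vol : volume cube = 1 := by
  unfold cube
  rw [Real.volume_pi_Ico]
  simp

theorem cube_int {E : Type} [NormedAddCommGroup E] (f : (Fin 3 → ℝ) → E) (hf : Continuous f) :
    IntegrableOn f cube := by
  have h1 : IntegrableOn f (Set.Icc (fun _ => 0) (fun _ => 1)) :=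
    hf.continuousOn.integrableOn_compact isCompact_Icc
  apply h1.mono_set
  intro x hx
  constructor
  · intro i
    exact (hx i (Set.mem_univ i)).1
  · intro i
    exact (hx i (Set.mem_univ i)).2.le

/-- Paley-Zygmund for weighted families on the unit cube -/
theorem pz {ι : Type} (s : Finset ι) (p : ι → (Fin 3 → ℝ) → ℝ) (F : ι → (Fin 3 → ℝ) → ℂ) (g : ι → (Fin 3 → ℝ) → ℝ)
    (hpc : ∀ i ∈ s, Continuous (p i)) (hFc : ∀ i ∈ s, Continuous (F i)) (hgc : ∀ i ∈ s, Continuous (g i))
    (hp0 : ∀ i ∈ s, ∀ x, 0 ≤ p i x) (hp1 : ∀ x, ∑ i ∈ s, p i x = 1)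
    (hFg : ∀ i ∈ s, ∀ x, ‖F i x‖ ≤ g i x) (E V : ℝ) (hE : 0 < E) (hV : 0 < V)
    (hmean : E ≤ ‖∑ i ∈ s, ∫ x in cube, (p i x : ℂ) * F i x‖)
    (hsec : ∑ i ∈ s, ∫ x in cube, p i x * g i x ^ 2 ≤ V) :
    ENNReal.ofReal (E ^ 2 / (4 * V)) ≤ volume {x | x ∈ cube ∧ ∃ i ∈ s, E / 2 < ‖F i x‖} := by
  set A : Set (Fin 3 → ℝ) := {x | x ∈ cube ∧ ∃ i ∈ s, E / 2 < ‖F i x‖} with hA
  have hAm : MeasurableSet A := by
    have e : A = cube ∩ ⋃ i ∈ s, {x | E / 2 < ‖F i x‖} := by
      ext x
      simp only [hA, Set.mem_inter_iff, Set.mem_iUnion, exists_prop]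
      rfl
    rw [e]
    apply cube_meas.inter
    apply Finset.measurableSet_biUnion
    intro i hi
    have := hFc i hi
    exact (isOpen_lt continuous_const this.norm).measurableSet
  have hAc : A ⊆ cube := fun x hx => hx.1
  have hAtop : volume A ≠ ⊤ := by
    apply ne_top_of_le_ne_top _ (measure_mono hAc)
    rw [cube_vol]; simp
  set v : ℝ := (volume A).toReal with hv
  set t : ℝ := 2 * V / E with ht
  have ht0 : 0 < t := by positivity
  -- the mean
  have h1 : E ≤ ∫ x in cube, ∑ i ∈ s, p i x * ‖F i x‖ := by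
    rw [integral_finset_sum]
    · refine hmean.trans ((norm_sum_le _ _).trans ?_)
      apply Finset.sum_le_sum
      intro i hi
      refine (norm_integral_le_integral_norm _).trans (le_of_eq ?_)
      apply integral_congr_ae
      refine Filter.Eventually.of_forall fun x => ?_
      simp only
      rw [norm_mul, Complex.norm_real, Real.norm_of_nonneg (hp0 i hi x)]
    · intro i hi
      exact cube_int _ ((hpc i hi).mul (hFc i hi).norm)
  -- pointwise bound
  have h2 : ∀ x ∈ cube, ∑ i ∈ s, p i x * ‖F i x‖ ≤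
      (E / 2 + A.indicator (fun _ => t / 2) x) + (1 / (2 * t)) * ∑ i ∈ s, p i x * g i x ^ 2 := by
    intro x hx
    have hnn : 0 ≤ (1 / (2 * t)) * ∑ i ∈ s, p i x * g i x ^ 2 := by
      apply mul_nonneg (by positivity)
      apply Finset.sum_nonneg
      intro i hi
      have := hp0 i hi x
      positivity
    by_cases hxA : x ∈ A
    · rw [Set.indicator_of_mem hxA]
      have h3 : ∀ i ∈ s, p i x * ‖F i x‖ ≤ p i x * (t / 2) + (1 / (2 * t)) * (p i x * g i x ^ 2) := by
        intro i hi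
        have hp := hp0 i hi x
        have hg := hFg i hi x
        have h4 : g i x ≤ t / 2 + (1 / (2 * t)) * g i x ^ 2 := by
          have h5 : t / 2 + (1 / (2 * t)) * g i x ^ 2 - g i x = (g i x - t) ^ 2 / (2 * t) := by
            field_simp; ring
          have h6 : 0 ≤ (g i x - t) ^ 2 / (2 * t) := by positivity
          linarith
        calc p i x * ‖F i x‖ ≤ p i x * (t / 2 + (1 / (2 * t)) * g i x ^ 2) :=
              mul_le_mul_of_nonneg_left (hg.trans h4) hp
          _ = _ := by ring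
      calc ∑ i ∈ s, p i x * ‖F i x‖ ≤ ∑ i ∈ s, (p i x * (t / 2) + (1 / (2 * t)) * (p i x * g i x ^ 2)) :=
            Finset.sum_le_sum h3
        _ = t / 2 + (1 / (2 * t)) * ∑ i ∈ s, p i x * g i x ^ 2 := by
            rw [Finset.sum_add_distrib, ← Finset.sum_mul, hp1, one_mul, ← Finset.mul_sum]
        _ ≤ _ := by linarith
    · rw [Set.indicator_of_notMem hxA]
      have h3 : ∀ i ∈ s, p i x * ‖F i x‖ ≤ p i x * (E / 2) := by
        intro i hi
        apply mul_le_mul_of_nonneg_left _ (hp0 i hi x)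
        by_contra hcon
        exact hxA ⟨hx, i, hi, not_le.mp hcon⟩
      calc ∑ i ∈ s, p i x * ‖F i x‖ ≤ ∑ i ∈ s, p i x * (E / 2) := Finset.sum_le_sum h3
        _ = E / 2 := by rw [← Finset.sum_mul, hp1, one_mul]
        _ ≤ _ := by linarith
  have hIc : IntegrableOn (fun _ : Fin 3 → ℝ => E / 2) cube := cube_int _ continuous_const
  have hIA : IntegrableOn (A.indicator (fun _ : Fin 3 → ℝ => t / 2)) cube :=
    (cube_int _ continuous_const : IntegrableOn (fun _ : Fin 3 → ℝ => t / 2) cube).indicator hAm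
  have hIs : IntegrableOn (fun x => ∑ i ∈ s, p i x * g i x ^ 2) cube :=
    integrable_finset_sum _ fun i hi => cube_int _ ((hpc i hi).mul ((hgc i hi).pow 2))
  have hIm : IntegrableOn (fun x => ∑ i ∈ s, p i x * ‖F i x‖) cube :=
    integrable_finset_sum _ fun i hi => cube_int _ ((hpc i hi).mul (hFc i hi).norm)
  have h3 : ∫ x in cube, ∑ i ∈ s, p i x * ‖F i x‖ ≤
      ∫ x in cube, ((E / 2 + A.indicator (fun _ => t / 2) x) +
        (1 / (2 * t)) * ∑ i ∈ s, p i x * g i x ^ 2) := by
    apply setIntegral_mono_on hIm ((hIc.add hIA).add (hIs.const_mul _)) cube_meas h2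
  have h4 : ∫ x in cube, ((E / 2 + A.indicator (fun _ => t / 2) x) +
        (1 / (2 * t)) * ∑ i ∈ s, p i x * g i x ^ 2) =
      (E / 2 + v * (t / 2)) + (1 / (2 * t)) * ∑ i ∈ s, ∫ x in cube, p i x * g i x ^ 2 := by
    have e1 : ∫ x in cube, ((E / 2 + A.indicator (fun _ => t / 2) x) +
        (1 / (2 * t)) * ∑ i ∈ s, p i x * g i x ^ 2) =
        (∫ x in cube, (E / 2 + A.indicator (fun _ => t / 2) x)) +
        ∫ x in cube, (1 / (2 * t)) * ∑ i ∈ s, p i x * g i x ^ 2 :=
      integral_add (hIc.add hIA) (hIs.const_mul _)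
    have e2 : ∫ x in cube, (E / 2 + A.indicator (fun _ => t / 2) x) =
        (∫ _ in cube, E / 2) + ∫ x in cube, A.indicator (fun _ => t / 2) x :=
      integral_add hIc hIA
    have e3 : ∫ x in cube, (1 / (2 * t)) * ∑ i ∈ s, p i x * g i x ^ 2 =
        (1 / (2 * t)) * ∑ i ∈ s, ∫ x in cube, p i x * g i x ^ 2 := by
      rw [integral_const_mul, integral_finset_sum]
      intro i hi
      exact cube_int _ ((hpc i hi).mul ((hgc i hi).pow 2))
    have e4 : ∫ _ in cube, E / 2 = E / 2 := by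
      rw [setIntegral_const, Measure.real, cube_vol]
      simp
    have e5 : ∫ x in cube, A.indicator (fun _ => t / 2) x = v * (t / 2) := by
      rw [setIntegral_indicator hAm, Set.inter_eq_right.mpr hAc, setIntegral_const]
      rfl
    rw [e1, e2, e3, e4, e5]
  have h5 : E ≤ (E / 2 + v * (t / 2)) + (1 / (2 * t)) * V := by
    have : (1 / (2 * t)) * ∑ i ∈ s, ∫ x in cube, p i x * g i x ^ 2 ≤ (1 / (2 * t)) * V :=
      mul_le_mul_of_nonneg_left hsec (by positivity)
    linarith [h1.trans (h3.trans h4.le)]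
  have h6 : (1 / (2 * t)) * V = E / 4 := by
    rw [ht]; field_simp; norm_num
  have h7 : v * (t / 2) = v * V / E := by
    rw [ht]; field_simp
  have h8 : E ^ 2 / (4 * V) ≤ v := by
    rw [h6, h7] at h5
    have h9 : E / 4 ≤ v * V / E := by linarith
    rw [le_div_iff₀ hE] at h9
    rw [div_le_iff₀ (by positivity)]
    nlinarith
  calc ENNReal.ofReal (E ^ 2 / (4 * V)) ≤ ENNReal.ofReal v := ENNReal.ofReal_le_ofReal h8
    _ = volume A := ENNReal.ofReal_toReal hAtop

end Pool.Agent.Z26.HU.XP
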