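import Mathlib
import Pool.Agent.Z26.HU.H3

set_option autoImplicit false

namespace Pool.Agent.Z26.HU.XQ

open MeasureTheory Finset



noncomputable def J0 (t : ℝ) : ℝ := if t < 1 / 2 then 1 else 0
noncomputable def JJ (t : ℝ) : ℝ := if Int.fract t < 1 / 2 then 1 else 0

theorem J0_meas : Measurable J0 := by
  unfold J0
  exact Measurable.ite measurableSet_Iio measurable_const measurable_const

theorem JJ_meas : Measurable JJ := by
  unfold JJ
  exact Measurable.ite (measurable_fract measurableSet_Iio) measurable_const measurable_const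

theorem J0_nonneg (t : ℝ) : 0 ≤ J0 t := by unfold J0; split_ifs <;> norm_num
theorem J0_le (t : ℝ) : J0 t ≤ 1 := by unfold J0; split_ifs <;> norm_num
theorem JJ_nonneg (t : ℝ) : 0 ≤ JJ t := by unfold JJ; split_ifs <;> norm_num
theorem JJ_le (t : ℝ) : JJ t ≤ 1 := by unfold JJ; split_ifs <;> norm_num
theorem JJ_per : Function.Periodic JJ 1 := by
  intro t; unfold JJ; rw [Int.fract_add_one]

theorem intble_of_bdd {f : ℝ → ℝ} (hf : Measurable f) (C : ℝ) (hC : ∀ t, |f t| ≤ C) (a b : ℝ) :
    IntervalIntegrable f volume a b := by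
  rw [intervalIntegrable_iff]
  apply Measure.integrableOn_of_bounded (M := C)
  · simp
  · exact hf.aestronglyMeasurable
  · filter_upwards with t
    simpa using hC t

theorem J0_eq_JJ_ae : ∀ᵐ t ∂(volume : Measure ℝ), t ∈ Set.uIoc (0:ℝ) 1 → J0 t = JJ t := by
  have h : ∀ᵐ t ∂(volume : Measure ℝ), t ≠ 1 := by
    simp [ae_iff, measure_singleton]
  filter_upwards [h] with t ht htm
  rw [Set.uIoc_of_le zero_le_one] at htm
  unfold J0 JJ
  rw [Int.fract_eq_self.2 ⟨htm.1.le, lt_of_le_of_ne htm.2 ht⟩]

theorem pow_diff (a q : ℝ) (ha : 0 ≤ a) (ha1 : a ≤ 1) (hq : 0 ≤ q) (hq1 : q ≤ 1) (k : ℕ) :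
    |a ^ k - q ^ k| ≤ k * |a - q| := by
  induction k with
  | zero => simp
  | succ k ih =>
    have h1 : a ^ (k+1) - q ^ (k+1) = a * (a ^ k - q ^ k) + (a - q) * q ^ k := by ring
    rw [h1]
    refine (abs_add_le _ _).trans ?_
    rw [abs_mul, abs_mul, abs_of_nonneg ha, abs_of_nonneg (pow_nonneg hq k)]
    have h2 : a * |a ^ k - q ^ k| ≤ 1 * (k * |a - q|) :=
      mul_le_mul ha1 ih (abs_nonneg _) zero_le_one
    have h3 : |a - q| * q ^ k ≤ |a - q| * 1 :=
      mul_le_mul_of_nonneg_left (pow_le_one₀ hq hq1) (abs_nonneg _)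
    push_cast
    linarith

theorem ee_int (n : ℤ) : ee n = 1 := by
  unfold ee
  rw [mul_comm, Complex.exp_int_mul_two_pi_mul_I]

theorem ee_add (a b : ℂ) : ee (a + b) = ee a * ee b := by
  unfold ee; rw [← Complex.exp_add]; congr 1; ring

theorem ee_cont : Continuous ee := by
  unfold ee; fun_prop

theorem P_cont {N : ℕ} {P : ℝ → ℝ} {c : ℤ → ℂ}
    (h : ∀ t : ℝ, (P t : ℂ) = ∑ n ∈ Icc (-(N : ℤ)) N, c n * ee (n * t)) : Continuous P := by
  have h1 : P = fun t : ℝ => (∑ n ∈ Icc (-(N : ℤ)) N, c n * ee (n * t)).re := by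
    funext t; rw [← h t]; simp
  rw [h1]
  apply Complex.continuous_re.comp
  apply continuous_finset_sum
  intro n _
  exact continuous_const.mul (ee_cont.comp (continuous_const.mul Complex.continuous_ofReal))

theorem P_per {N : ℕ} {P : ℝ → ℝ} {c : ℤ → ℂ}
    (h : ∀ t : ℝ, (P t : ℂ) = ∑ n ∈ Icc (-(N : ℤ)) N, c n * ee (n * t)) : Function.Periodic P 1 := by
  intro t
  have h1 : (P (t + 1) : ℂ) = P t := by
    rw [h, h]
    apply Finset.sum_congr rfl
    intro n _
    congr 1
    have : ((n:ℂ) * ((t + 1 : ℝ) : ℂ)) = n * t + (n : ℤ) := by push_cast; ring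
    rw [this, ee_add, ee_int, mul_one]
  exact_mod_cast h1

theorem int_J0_sq : ∫ t in (0:ℝ)..1, (1 - J0 t) * (1 - J0 t) = 1 / 2 := by
  have hi : ∀ a b : ℝ, IntervalIntegrable (fun t => (1 - J0 t) * (1 - J0 t)) volume a b := by
    intro a b
    apply intble_of_bdd _ 1
    · intro t
      rw [abs_le]
      have := J0_nonneg t
      have := J0_le t
      constructor <;> nlinarith
    · exact (measurable_const.sub J0_meas).mul (measurable_const.sub J0_meas)
  rw [← intervalIntegral.integral_add_adjacent_intervals (b := 1/2) (hi _ _) (hi _ _)]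
  have h1 : ∫ t in (0:ℝ)..(1/2), (1 - J0 t) * (1 - J0 t) = 0 := by
    have : ∫ t in (0:ℝ)..(1/2), (1 - J0 t) * (1 - J0 t) = ∫ t in (0:ℝ)..(1/2), (0:ℝ) := by
      apply intervalIntegral.integral_congr_ae
      have h : ∀ᵐ t ∂(volume : Measure ℝ), t ≠ 1/2 := by
        simp [ae_iff, measure_singleton]
      filter_upwards [h] with t ht htm
      rw [Set.uIoc_of_le (by norm_num)] at htm
      unfold J0
      rw [if_pos (lt_of_le_of_ne htm.2 ht)]
      norm_num
    rw [this]; simp
  have h2 : ∫ t in (1/2:ℝ)..1, (1 - J0 t) * (1 - J0 t) = 1/2 := by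
    have : ∫ t in (1/2:ℝ)..1, (1 - J0 t) * (1 - J0 t) = ∫ t in (1/2:ℝ)..1, (1:ℝ) := by
      apply intervalIntegral.integral_congr
      intro t htm
      rw [Set.uIcc_of_le (by norm_num)] at htm
      simp only
      unfold J0
      rw [if_neg (not_lt.2 htm.1)]
      norm_num
    rw [this]; simp; norm_num
  rw [h1, h2]; norm_num

theorem int_ee_J0 : ∫ t in (0:ℝ)..1, ee t * (J0 t : ℂ) = Complex.I / Real.pi := by
  have hi : ∀ a b : ℝ, IntervalIntegrable (fun t : ℝ => ee t * (J0 t : ℂ)) volume a b := by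
    intro a b
    rw [intervalIntegrable_iff]
    apply Measure.integrableOn_of_bounded (M := 1)
    · simp
    · apply Measurable.aestronglyMeasurable
      exact ((ee_cont.comp Complex.continuous_ofReal).measurable).mul
        (Complex.measurable_ofReal.comp J0_meas)
    · filter_upwards with t
      rw [norm_mul]
      have h1 : ‖ee t‖ = 1 := by
        unfold ee
        rw [show (2 * (Real.pi:ℂ) * Complex.I * (t:ℂ)) = ((2 * Real.pi * t : ℝ) : ℂ) * Complex.I by push_cast; ring]
        exact Complex.norm_exp_ofReal_mul_I _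
      rw [h1, one_mul, Complex.norm_real, Real.norm_of_nonneg (J0_nonneg t)]
      exact J0_le t
  rw [← intervalIntegral.integral_add_adjacent_intervals (b := 1/2) (hi _ _) (hi _ _)]
  have h2 : ∫ t in (1/2:ℝ)..1, ee t * (J0 t : ℂ) = 0 := by
    have : ∫ t in (1/2:ℝ)..1, ee t * (J0 t : ℂ) = ∫ t in (1/2:ℝ)..1, (0:ℂ) := by
      apply intervalIntegral.integral_congr
      intro t htm
      rw [Set.uIcc_of_le (by norm_num)] at htm
      simp only
      unfold J0
      rw [if_neg (not_lt.2 htm.1)]
      simp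
    rw [this]; simp
  have h1 : ∫ t in (0:ℝ)..(1/2), ee t * (J0 t : ℂ) = Complex.I / Real.pi := by
    have : ∫ t in (0:ℝ)..(1/2), ee t * (J0 t : ℂ) = ∫ t in (0:ℝ)..(1/2), Complex.exp ((2 * Real.pi * Complex.I) * t) := by
      apply intervalIntegral.integral_congr_ae
      have h : ∀ᵐ t ∂(volume : Measure ℝ), t ≠ 1/2 := by
        simp [ae_iff, measure_singleton]
      filter_upwards [h] with t ht htm
      rw [Set.uIoc_of_le (by norm_num)] at htm
      unfold J0 ee
      rw [if_pos (lt_of_le_of_ne htm.2 ht)]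
      simp
    rw [this, integral_exp_mul_complex (by simp [Real.pi_ne_zero])]
    have e1 : (2 * (Real.pi:ℂ) * Complex.I * ((1/2 : ℝ) : ℂ)) = Real.pi * Complex.I := by push_cast; ring
    rw [e1, Complex.exp_pi_mul_I]
    have hpi : (Real.pi : ℂ) ≠ 0 := by exact_mod_cast Real.pi_ne_zero
    simp
    field_simp
    rw [Complex.I_sq]; norm_num
  rw [h1, h2, add_zero]

theorem int_ee_zero : ∫ t in (0:ℝ)..1, ee t = 0 := by
  have : ∫ t in (0:ℝ)..1, ee t = ∫ t in (0:ℝ)..1, Complex.exp ((2 * Real.pi * Complex.I) * t) := rfl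
  rw [this, integral_exp_mul_complex (by simp [Real.pi_ne_zero])]
  simp

theorem int_ee_neg_zero : ∫ s in (0:ℝ)..1, ee (-s) = 0 := by
  have : ∫ t in (0:ℝ)..1, ee (-t) = ∫ t in (0:ℝ)..1, Complex.exp ((-(2 * Real.pi * Complex.I)) * t) := by
    apply intervalIntegral.integral_congr
    intro t _
    simp only [ee]
    congr 1; ring
  rw [this, integral_exp_mul_complex (by simp [Real.pi_ne_zero])]
  simp [Complex.exp_neg]

section main
variable {N : ℕ} {P : ℝ → ℝ} {c : ℤ → ℂ}
    (hrep : ∀ t : ℝ, (P t : ℂ) = ∑ n ∈ Icc (-(N : ℤ)) N, c n * ee (n * t))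
    (h01 : ∀ t, 0 ≤ P t ∧ P t ≤ 1) {ε : ℝ}
    (hε : ∫ t in (0 : ℝ)..1, |P t - J0 t| ≤ ε)
include hrep h01 hε

theorem aux_PJ_int (a b : ℝ) : IntervalIntegrable (fun t => |P t - J0 t|) volume a b := by
  apply intble_of_bdd _ 1
  · intro t
    rw [abs_abs, abs_le]
    have := J0_nonneg t
    have := J0_le t
    have := h01 t
    constructor <;> linarith
  · exact ((P_cont hrep).measurable.sub J0_meas).abs

theorem aux_PJJ_int (a b s : ℝ) : IntervalIntegrable (fun t => |P (t + s) - JJ (t + s)|) volume a b := by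
  apply intble_of_bdd _ 1
  · intro t
    rw [abs_abs, abs_le]
    have := JJ_nonneg (t + s)
    have := JJ_le (t + s)
    have := h01 (t + s)
    constructor <;> linarith
  · exact (((P_cont hrep).measurable.sub JJ_meas).abs).comp (measurable_id.add_const s)

theorem aux1 : |(∫ t in (0:ℝ)..1, (1 - P t) * (1 - P t)) - 1 / 2| ≤ 2 * ε := by
  have hPc := P_cont hrep
  rw [← int_J0_sq, ← intervalIntegral.integral_sub]
  · refine (intervalIntegral.abs_integral_le_integral_abs zero_le_one).trans ?_
    have : ∫ t in (0:ℝ)..1, |(1 - P t) * (1 - P t) - (1 - J0 t) * (1 - J0 t)| ≤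
        ∫ t in (0:ℝ)..1, 2 * |P t - J0 t| := by
      apply intervalIntegral.integral_mono_on zero_le_one
      · apply intble_of_bdd _ 1
        · intro t
          rw [abs_abs, abs_le]
          have := J0_nonneg t
          have := J0_le t
          have := (h01 t).1
          have := (h01 t).2
          constructor <;> nlinarith
        · exact (((measurable_const.sub hPc.measurable).mul (measurable_const.sub hPc.measurable)).sub
            ((measurable_const.sub J0_meas).mul (measurable_const.sub J0_meas))).abs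
      · exact (aux_PJ_int hrep h01 hε 0 1).const_mul 2
      · intro t _
        have e : (1 - P t) * (1 - P t) - (1 - J0 t) * (1 - J0 t) = (P t - J0 t) * (-(2 - P t - J0 t)) := by ring
        rw [e, abs_mul, mul_comm 2]
        apply mul_le_mul_of_nonneg_left _ (abs_nonneg _)
        rw [abs_le]
        have := J0_nonneg t
        have := J0_le t
        have := h01 t
        constructor <;> linarith
    refine this.trans ?_
    rw [intervalIntegral.integral_const_mul]
    linarith
  · apply Continuous.intervalIntegrable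
    exact (continuous_const.sub hPc).mul (continuous_const.sub hPc)
  · apply intble_of_bdd _ 1
    · intro t
      rw [abs_le]
      have := J0_nonneg t
      have := J0_le t
      constructor <;> nlinarith
    · exact (measurable_const.sub J0_meas).mul (measurable_const.sub J0_meas)

theorem aux2 (s : ℝ) : |(∫ t in (0:ℝ)..1, P t * P (t + s)) - ∫ t in (0:ℝ)..1, J0 t * JJ (t + s)| ≤ 2 * ε := by
  have hPc := P_cont hrep
  have hPs : Continuous (fun t => P (t + s)) := hPc.comp (continuous_id.add continuous_const)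
  rw [← intervalIntegral.integral_sub]
  · refine (intervalIntegral.abs_integral_le_integral_abs zero_le_one).trans ?_
    have : ∫ t in (0:ℝ)..1, |P t * P (t + s) - J0 t * JJ (t + s)| ≤
        ∫ t in (0:ℝ)..1, (|P t - J0 t| + |P (t + s) - JJ (t + s)|) := by
      apply intervalIntegral.integral_mono_on zero_le_one
      · apply intble_of_bdd _ 1
        · intro t
          rw [abs_abs, abs_le]
          have := J0_nonneg t
          have := J0_le t
          have := (h01 t).1
          have := (h01 t).2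
          have := JJ_nonneg (t + s)
          have := JJ_le (t + s)
          have := (h01 (t + s)).1
          have := (h01 (t + s)).2
          constructor <;> nlinarith
        · exact ((hPc.measurable.mul hPs.measurable).sub
            (J0_meas.mul (JJ_meas.comp (measurable_id.add_const s)))).abs
      · exact (aux_PJ_int hrep h01 hε 0 1).add (aux_PJJ_int hrep h01 hε 0 1 s)
      · intro t _
        have e : P t * P (t + s) - J0 t * JJ (t + s) = (P t - J0 t) * P (t + s) + J0 t * (P (t + s) - JJ (t + s)) := by ring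
        rw [e]
        refine (abs_add_le _ _).trans ?_
        rw [abs_mul, abs_mul, abs_of_nonneg (h01 (t+s)).1, abs_of_nonneg (J0_nonneg t)]
        have h1 : |P t - J0 t| * P (t + s) ≤ |P t - J0 t| * 1 :=
          mul_le_mul_of_nonneg_left (h01 _).2 (abs_nonneg _)
        have h2 : J0 t * |P (t + s) - JJ (t + s)| ≤ 1 * |P (t + s) - JJ (t + s)| :=
          mul_le_mul_of_nonneg_right (J0_le t) (abs_nonneg _)
        linarith
    refine this.trans ?_
    rw [intervalIntegral.integral_add (aux_PJ_int hrep h01 hε 0 1) (aux_PJJ_int hrep h01 hε 0 1 s)]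
    have h3 : ∫ t in (0:ℝ)..1, |P (t + s) - JJ (t + s)| = ∫ t in (0:ℝ)..1, |P t - J0 t| := by
      have hper : Function.Periodic (fun t => |P t - JJ t|) 1 := by
        intro t
        simp only
        rw [P_per hrep t, JJ_per t]
      have h4 := intervalIntegral.integral_comp_add_right (a := 0) (b := 1) (fun t => |P t - JJ t|) s
      rw [h4]
      have h5 := hper.intervalIntegral_add_eq (0 + s) 0
      rw [show (1:ℝ) + s = 0 + s + 1 by ring, h5, zero_add]
      apply intervalIntegral.integral_congr_ae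
      filter_upwards [J0_eq_JJ_ae] with t ht htm
      rw [ht htm]
    rw [h3]
    linarith
  · apply Continuous.intervalIntegrable
    exact hPc.mul hPs
  · apply intble_of_bdd _ 1
    · intro t
      rw [abs_le]
      have := J0_nonneg t
      have := J0_le t
      have := JJ_nonneg (t + s)
      have := JJ_le (t + s)
      constructor <;> nlinarith
    · exact J0_meas.mul (JJ_meas.comp (measurable_id.add_const s))

theorem aux_aa (hcorr : ∀ s ∈ Set.Icc (0 : ℝ) 1,
      (1 / 2 : ℝ) + ∫ t in (0 : ℝ)..1, (if t < 1 / 2 then (1 : ℝ) else 0) * (if Int.fract (t + s) < 1 / 2 then 1 else 0) =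
        max s (1 - s)) (s : ℝ) (hs : s ∈ Set.Icc (0:ℝ) 1) : |aa P s - max s (1 - s)| ≤ 4 * ε := by
  have h1 := aux1 hrep h01 hε
  have h2 := aux2 hrep h01 hε s
  have h3 := hcorr s hs
  rw [← h3]
  unfold aa
  have e : (∫ t in (0:ℝ)..1, J0 t * JJ (t + s)) = ∫ t in (0 : ℝ)..1, (if t < 1 / 2 then (1 : ℝ) else 0) * (if Int.fract (t + s) < 1 / 2 then 1 else 0) := rfl
  rw [← e]
  rw [abs_le] at h1 h2 ⊢
  constructor <;> linarith [h1.1, h1.2, h2.1, h2.2]

omit hε in
theorem aa_nonneg (s : ℝ) : 0 ≤ aa P s := by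
  unfold aa
  apply add_nonneg
  · apply intervalIntegral.integral_nonneg zero_le_one
    intro t _; exact mul_self_nonneg _
  · apply intervalIntegral.integral_nonneg zero_le_one
    intro t _; exact mul_nonneg (h01 _).1 (h01 _).1

omit hε in
theorem aa_le_one (s : ℝ) : aa P s ≤ 1 := by
  have hPc := P_cont hrep
  have hPs : Continuous (fun t => P (t + s)) := hPc.comp (continuous_id.add continuous_const)
  unfold aa
  have h1 : (∫ t in (0:ℝ)..1, (1 - P t) * (1 - P t)) ≤ ∫ t in (0:ℝ)..1, (1 - P t) := by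
    apply intervalIntegral.integral_mono_on zero_le_one
    · exact ((continuous_const.sub hPc).mul (continuous_const.sub hPc)).intervalIntegrable _ _
    · exact (continuous_const.sub hPc).intervalIntegrable _ _
    · intro t _
      have := h01 t
      nlinarith [this.1, this.2]
  have h2 : (∫ t in (0:ℝ)..1, P t * P (t + s)) ≤ ∫ t in (0:ℝ)..1, P t := by
    apply intervalIntegral.integral_mono_on zero_le_one
    · exact (hPc.mul hPs).intervalIntegrable _ _
    · exact hPc.intervalIntegrable _ _
    · intro t _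
      have := h01 t
      have := h01 (t + s)
      nlinarith [(h01 t).1, (h01 (t+s)).2]
  have h3 : (∫ t in (0:ℝ)..1, (1 - P t)) = 1 - ∫ t in (0:ℝ)..1, P t := by
    rw [intervalIntegral.integral_sub (continuous_const.intervalIntegrable _ _) (hPc.intervalIntegrable _ _)]
    simp
  linarith

omit h01 hε in
theorem aa_cont : Continuous (aa P) := by
  have hPc := P_cont hrep
  unfold aa
  apply continuous_const.add
  apply intervalIntegral.continuous_parametric_intervalIntegral_of_continuous'
  exact (hPc.comp continuous_snd).mul (hPc.comp (continuous_snd.add continuous_fst))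

end main

/-- choice of the selection polynomial -/
theorem choose_P
    (htrig : ∀ ε : ℝ, 0 < ε → ∃ (N : ℕ) (c : ℤ → ℂ) (P : ℝ → ℝ),
      (∀ t : ℝ, (P t : ℂ) = ∑ n ∈ Icc (-(N : ℤ)) N, c n * ee (n * t)) ∧ (∀ t, 0 ≤ P t ∧ P t ≤ 1) ∧
      ∫ t in (0 : ℝ)..1, |P t - (if t < 1 / 2 then 1 else 0)| ≤ ε)
    (helow : ∀ k : ℕ, 1 ≤ k → 1 / (16 * ((k : ℝ) + 1)) ≤
      ∫ s in (0 : ℝ)..1, (max s (1 - s)) ^ k * Real.cos (2 * Real.pi * s))
    (hbup : ∀ k : ℕ, ∫ s in (0 : ℝ)..1, (max s (1 - s)) ^ k ≤ 2 / ((k : ℝ) + 1))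
    (hcorr : ∀ s ∈ Set.Icc (0 : ℝ) 1,
      (1 / 2 : ℝ) + ∫ t in (0 : ℝ)..1, (if t < 1 / 2 then (1 : ℝ) else 0) * (if Int.fract (t + s) < 1 / 2 then 1 else 0) =
        max s (1 - s))
    (K : ℕ) (hK : 4 ≤ ∑ k ∈ range K, 1 / ((k : ℝ) + 1)) :
    ∃ (N : ℕ) (c : ℤ → ℂ) (P : ℝ → ℝ), Sel N P c ∧
      ∑ k ∈ range K, bb P k ≤ 3 * ∑ k ∈ range K, 1 / ((k : ℝ) + 1) ∧
      (wd false - wd true) / (64 * Real.pi) * (∑ k ∈ range K, 1 / ((k : ℝ) + 1)) ≤
        ‖(Complex.I * ∫ t in (0:ℝ)..1, ee t * ((PP P false t : ℂ) * wd false + (PP P true t : ℂ) * wd true)) *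
          ∑ k ∈ range K, ∫ s in (0:ℝ)..1, ee (-s) * (aa P s : ℂ) ^ k‖ :=
  by
  set L := ∑ k ∈ range K, 1 / ((k : ℝ) + 1) with hL
  set ε : ℝ := 1 / (64 * (K:ℝ) ^ 2 + 7) with hεd
  have hεpos : 0 < ε := by positivity
  have hK2 : 4 * (K:ℝ) ^ 2 * ε ≤ 1 / 16 := by
    rw [hεd]
    have : (0:ℝ) < 64 * (K:ℝ) ^ 2 + 7 := by positivity
    rw [mul_one_div, div_le_div_iff₀ this (by norm_num)]
    linarith
  have hε7 : ε ≤ 1 / 7 := by
    rw [hεd]
    apply one_div_le_one_div_of_le (by norm_num)
    nlinarith [sq_nonneg (K:ℝ)]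
  obtain ⟨N, c, P, hrep, h01, hε0⟩ := htrig ε hεpos
  have hε : ∫ t in (0 : ℝ)..1, |P t - J0 t| ≤ ε := hε0
  have haac := aa_cont (P := P) hrep
  have haa0 := aa_nonneg (P := P) hrep h01
  have haa1 := aa_le_one (P := P) hrep h01
  have hPc := P_cont hrep
  have hQ0 : ∀ s ∈ Set.Icc (0:ℝ) 1, 0 ≤ max s (1 - s) := fun s hs => le_max_of_le_left hs.1
  have hQ1 : ∀ s ∈ Set.Icc (0:ℝ) 1, max s (1 - s) ≤ 1 := fun s hs => max_le hs.2 (by linarith [hs.1])
  have hQc : Continuous (fun s : ℝ => max s (1 - s)) := continuous_id.max (continuous_const.sub continuous_id)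
  have hdiff : ∀ k : ℕ, ∀ s ∈ Set.Icc (0:ℝ) 1, |aa P s ^ k - (max s (1 - s)) ^ k| ≤ 4 * k * ε := by
    intro k s hs
    refine (pow_diff _ _ (haa0 s) (haa1 s) (hQ0 s hs) (hQ1 s hs) k).trans ?_
    have h1 := aux_aa hrep h01 hε hcorr s hs
    have : (k:ℝ) * |aa P s - max s (1 - s)| ≤ k * (4 * ε) := mul_le_mul_of_nonneg_left h1 (by positivity)
    linarith
  refine ⟨N, c, P, ⟨hrep, fun t => (h01 t).1, fun t => (h01 t).2⟩, ?_, ?_⟩
  · have hb : ∀ k ∈ range K, bb P k ≤ 2 * (1 / ((k:ℝ) + 1)) + 4 * K * ε := by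
      intro k hk
      unfold bb
      have h1 : ∫ s in (0:ℝ)..1, aa P s ^ k ≤ ∫ s in (0:ℝ)..1, ((max s (1 - s)) ^ k + 4 * k * ε) := by
        apply intervalIntegral.integral_mono_on zero_le_one
        · exact (haac.pow k).intervalIntegrable _ _
        · exact ((hQc.pow k).add continuous_const).intervalIntegrable _ _
        · intro s hs
          have := (abs_le.1 (hdiff k s hs)).2
          linarith
      have hQk : Continuous (fun s : ℝ => (max s (1 - s)) ^ k) := hQc.pow k
      rw [intervalIntegral.integral_add (hQk.intervalIntegrable _ _) (continuous_const.intervalIntegrable _ _)] at h1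
      have h2 := hbup k
      have h3 : ∫ s in (0:ℝ)..1, (4 * (k:ℝ) * ε) = 4 * k * ε := by simp
      rw [h3] at h1
      have h4 : 4 * (k:ℝ) * ε ≤ 4 * K * ε := by
        have : (k:ℝ) ≤ K := by exact_mod_cast (Finset.mem_range.1 hk).le
        apply mul_le_mul_of_nonneg_right _ hεpos.le
        linarith
      have h5 : (2:ℝ) / (k + 1) = 2 * (1 / ((k:ℝ) + 1)) := by ring
      linarith
    refine (Finset.sum_le_sum hb).trans ?_
    rw [Finset.sum_add_distrib, ← Finset.mul_sum, ← hL, Finset.sum_const, Finset.card_range, nsmul_eq_mul]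
    have : (K:ℝ) * (4 * K * ε) = 4 * (K:ℝ) ^ 2 * ε := by ring
    rw [this]
    linarith
  · rw [norm_mul, norm_mul, Complex.norm_I, one_mul]
    have heec : Continuous (fun t : ℝ => ee (t : ℂ)) := ee_cont.comp Complex.continuous_ofReal
    have hPcc : Continuous (fun t : ℝ => (P t : ℂ)) := Complex.continuous_ofReal.comp hPc
    have hnee : ∀ t : ℝ, ‖ee (t:ℂ)‖ = 1 := by
      intro t
      unfold ee
      rw [show (2 * (Real.pi:ℂ) * Complex.I * (t:ℂ)) = ((2 * Real.pi * t : ℝ) : ℂ) * Complex.I by push_cast; ring]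
      exact Complex.norm_exp_ofReal_mul_I _
    have hwd : 0 < wd false - wd true := by
      unfold wd
      have : Real.exp (-(2 * Real.pi * (1 + if true = true then 1 else 0))) < Real.exp (-(2 * Real.pi * (1 + if false = true then 1 else 0))) := by
        apply Real.exp_lt_exp.2
        simp
        nlinarith [Real.pi_pos]
      linarith
    -- first factor
    have hfirst : (wd false - wd true) / (2 * Real.pi) ≤
        ‖∫ t in (0:ℝ)..1, ee t * ((PP P false t : ℂ) * wd false + (PP P true t : ℂ) * wd true)‖ := by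
      have e1 : ∫ t in (0:ℝ)..1, ee t * ((PP P false t : ℂ) * wd false + (PP P true t : ℂ) * wd true) =
          (wd false : ℂ) * (∫ t in (0:ℝ)..1, ee t) - ((wd false - wd true : ℝ) : ℂ) * ∫ t in (0:ℝ)..1, ee t * (P t : ℂ) := by
        rw [← intervalIntegral.integral_const_mul, ← intervalIntegral.integral_const_mul,
          ← intervalIntegral.integral_sub]
        · apply intervalIntegral.integral_congr
          intro t _
          simp only [PP]
          push_cast
          try simp
          ring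
        · exact (continuous_const.mul heec).intervalIntegrable _ _
        · exact (continuous_const.mul (heec.mul hPcc)).intervalIntegrable _ _
      rw [e1, int_ee_zero, mul_zero, zero_sub, norm_neg, norm_mul, Complex.norm_real,
        Real.norm_of_nonneg hwd.le, div_eq_mul_inv]
      apply mul_le_mul_of_nonneg_left _ hwd.le
      have e2 : ‖(∫ t in (0:ℝ)..1, ee t * (J0 t : ℂ)) - ∫ t in (0:ℝ)..1, ee t * (P t : ℂ)‖ ≤ ε := by
        rw [← intervalIntegral.integral_sub]
        · refine (intervalIntegral.norm_integral_le_integral_norm zero_le_one).trans ?_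
          refine le_trans (le_of_eq ?_) hε
          apply intervalIntegral.integral_congr
          intro t _
          change ‖ee t * (J0 t : ℂ) - ee t * (P t : ℂ)‖ = |P t - J0 t|
          rw [← mul_sub, norm_mul, hnee, one_mul, ← Complex.ofReal_sub, Complex.norm_real, Real.norm_eq_abs,
            abs_sub_comm]
        · rw [intervalIntegrable_iff]
          apply Measure.integrableOn_of_bounded (M := 1)
          · simp
          · apply Measurable.aestronglyMeasurable
            exact (heec.measurable).mul (Complex.measurable_ofReal.comp J0_meas)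
          · filter_upwards with t
            rw [norm_mul, hnee, one_mul, Complex.norm_real, Real.norm_of_nonneg (J0_nonneg t)]
            exact J0_le t
        · exact (heec.mul hPcc).intervalIntegrable _ _
      rw [int_ee_J0] at e2
      have e3 : ‖Complex.I / (Real.pi : ℂ)‖ = 1 / Real.pi := by
        rw [norm_div, Complex.norm_I, Complex.norm_real, Real.norm_of_nonneg Real.pi_pos.le]
      have e4 : ‖Complex.I / (Real.pi : ℂ)‖ - ‖∫ t in (0:ℝ)..1, ee t * (P t : ℂ)‖ ≤ ε :=
        (norm_sub_norm_le _ _).trans e2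
      rw [e3] at e4
      have e5 : (1:ℝ) / 7 ≤ 1 / (2 * Real.pi) := by
        apply one_div_le_one_div_of_le (by positivity)
        linarith [Real.pi_lt_d2]
      have e6 : (2 * Real.pi)⁻¹ + 1 / (2 * Real.pi) = 1 / Real.pi := by field_simp; norm_num
      linarith
    -- second factor
    have hsecond : L / 32 ≤ ‖∑ k ∈ range K, ∫ s in (0:ℝ)..1, ee (-s) * (aa P s : ℂ) ^ k‖ := by
      refine le_trans ?_ (Complex.re_le_norm _)
      rw [Complex.re_sum]
      have hcc : ∀ k : ℕ, Continuous (fun s : ℝ => ee (-s) * (aa P s : ℂ) ^ k) := by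
        intro k
        exact (ee_cont.comp (Complex.continuous_ofReal.neg)).mul ((Complex.continuous_ofReal.comp haac).pow k)
      have hre : ∀ k : ℕ, (∫ s in (0:ℝ)..1, ee (-s) * (aa P s : ℂ) ^ k).re =
          ∫ s in (0:ℝ)..1, aa P s ^ k * Real.cos (2 * Real.pi * s) := by
        intro k
        have h1 := intervalIntegral.intervalIntegral_eq_integral_uIoc (fun s : ℝ => ee (-s) * (aa P s : ℂ) ^ k) 0 1 volume
        have h2 := Complex.reCLM.intervalIntegral_comp_comm ((hcc k).intervalIntegrable (μ := volume) 0 1)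
        change Complex.reCLM (∫ s in (0:ℝ)..1, ee (-s) * (aa P s : ℂ) ^ k) = _
        rw [← h2]
        apply intervalIntegral.integral_congr
        intro s _
        simp only [Complex.reCLM_apply]
        rw [show (aa P s : ℂ) ^ k = ((aa P s ^ k : ℝ) : ℂ) by push_cast; rfl, mul_comm, Complex.re_ofReal_mul]
        congr 1
        unfold ee
        rw [show (2 * (Real.pi:ℂ) * Complex.I * (-(s:ℂ))) = ((-(2 * Real.pi * s) : ℝ) : ℂ) * Complex.I by push_cast; ring,
          Complex.exp_ofReal_mul_I_re, Real.cos_neg]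
      have hterm : ∀ k : ℕ, 1 ≤ k → 1 / (16 * ((k:ℝ) + 1)) - 4 * k * ε ≤
          (∫ s in (0:ℝ)..1, ee (-s) * (aa P s : ℂ) ^ k).re := by
        intro k hk
        rw [hre k]
        have h1 := helow k hk
        have h2 : (∫ s in (0 : ℝ)..1, (max s (1 - s)) ^ k * Real.cos (2 * Real.pi * s)) - 4 * k * ε ≤
            ∫ s in (0:ℝ)..1, aa P s ^ k * Real.cos (2 * Real.pi * s) := by
          have hcosc : Continuous (fun s : ℝ => Real.cos (2 * Real.pi * s)) := by fun_prop
          have h3 : (∫ s in (0 : ℝ)..1, ((max s (1 - s)) ^ k * Real.cos (2 * Real.pi * s) - 4 * k * ε)) ≤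
            ∫ s in (0:ℝ)..1, aa P s ^ k * Real.cos (2 * Real.pi * s) := by
            apply intervalIntegral.integral_mono_on zero_le_one
            · exact (((hQc.pow k).mul hcosc).sub continuous_const).intervalIntegrable _ _
            · exact ((haac.pow k).mul hcosc).intervalIntegrable _ _
            · intro s hs
              have h4 := hdiff k s hs
              have h5 : |(aa P s ^ k - (max s (1 - s)) ^ k) * Real.cos (2 * Real.pi * s)| ≤ 4 * k * ε := by
                rw [abs_mul]
                calc _ ≤ (4 * k * ε) * 1 := mul_le_mul h4 (Real.abs_cos_le_one _) (abs_nonneg _) (by positivity)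
                  _ = _ := mul_one _
              have h6 := (abs_le.1 h5).1
              linarith
          have hQkc : Continuous (fun s : ℝ => (max s (1 - s)) ^ k * Real.cos (2 * Real.pi * s)) := (hQc.pow k).mul hcosc
          rw [intervalIntegral.integral_sub (hQkc.intervalIntegrable _ _) (continuous_const.intervalIntegrable _ _)] at h3
          have h3' : ∫ s in (0:ℝ)..1, (4 * (k:ℝ) * ε) = 4 * k * ε := by simp
          rw [h3'] at h3
          exact h3
        linarith
      have hzero : (∫ s in (0:ℝ)..1, ee (-s) * (aa P s : ℂ) ^ 0).re = 0 := by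
        simp only [pow_zero, mul_one]
        rw [int_ee_neg_zero]; simp
      have hKpos : 1 ≤ K := by
        rcases Nat.eq_zero_or_pos K with h | h
        · rw [h] at hL; simp at hL; rw [hL] at hK; norm_num at hK
        · exact h
      obtain ⟨M, rfl⟩ : ∃ M, K = M + 1 := ⟨K - 1, by omega⟩
      rw [Finset.sum_range_succ', hzero, add_zero]
      have hsum : ∑ k ∈ range M, (1 / (16 * (((k + 1 : ℕ):ℝ) + 1)) - 4 * ((M + 1 : ℕ) : ℝ) * ε) ≤
          ∑ k ∈ range M, (∫ s in (0:ℝ)..1, ee (-s) * (aa P s : ℂ) ^ (k + 1)).re := by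
        apply Finset.sum_le_sum
        intro k hk
        refine le_trans ?_ (hterm (k + 1) (by omega))
        have : ((k + 1 : ℕ):ℝ) ≤ ((M + 1 : ℕ) : ℝ) := by
          exact_mod_cast (Nat.succ_le_succ (Finset.mem_range.1 hk).le)
        have h2 : 4 * ((k + 1 : ℕ):ℝ) * ε ≤ 4 * ((M + 1 : ℕ) : ℝ) * ε := by
          apply mul_le_mul_of_nonneg_right _ hεpos.le
          linarith
        linarith
      refine le_trans ?_ hsum
      rw [Finset.sum_sub_distrib, Finset.sum_const, Finset.card_range, nsmul_eq_mul]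
      have hL2 : L = 1 + ∑ k ∈ range M, 1 / (((k + 1 : ℕ):ℝ) + 1) := by
        rw [hL, Finset.sum_range_succ']
        push_cast
        norm_num
        ring
      have h16 : ∑ k ∈ range M, 1 / (16 * (((k + 1 : ℕ):ℝ) + 1)) = (1 / 16) * ∑ k ∈ range M, 1 / (((k + 1 : ℕ):ℝ) + 1) := by
        rw [Finset.mul_sum]
        apply Finset.sum_congr rfl
        intro k _
        rw [one_div_mul_one_div]
      have hM : (M:ℝ) * (4 * ((M + 1 : ℕ) : ℝ) * ε) ≤ 1 / 16 := by
        refine le_trans ?_ hK2
        have : (M:ℝ) ≤ ((M + 1 : ℕ) : ℝ) := by push_cast; linarith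
        have h3 : (M:ℝ) * (4 * ((M + 1 : ℕ) : ℝ) * ε) ≤ ((M + 1 : ℕ) : ℝ) * (4 * ((M + 1 : ℕ) : ℝ) * ε) :=
          mul_le_mul_of_nonneg_right this (by positivity)
        refine h3.trans (le_of_eq ?_)
        ring
      rw [h16]
      have : ∑ k ∈ range M, 1 / (((k + 1 : ℕ):ℝ) + 1) = L - 1 := by linarith
      rw [this]
      linarith
    have hLpos : 0 ≤ L / 32 := by linarith
    calc (wd false - wd true) / (64 * Real.pi) * L = (wd false - wd true) / (2 * Real.pi) * (L / 32) := by
          field_simp; norm_num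
      _ ≤ _ := mul_le_mul hfirst hsecond hLpos (norm_nonneg _)

end Pool.Agent.Z26.HU.XQ
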