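import Mathlib
import Pool.Agent.Z26.HU.H3

set_option autoImplicit false

namespace Pool.Agent.Z26.HU
open MeasureTheory Finset

section
variable {N : ℕ} {P : ℝ → ℝ} {c : ℤ → ℂ} (hP : Sel N P c)
include hP

theorem GR_mul_le (B : ℕ) (s t : ℝ) (k : ℕ) (x : Fin 3 → ℝ) : ∀ S : List Bool, k ≤ S.length →
    GR P B (fun _ => s) (S.drop (S.length - k)) x * GR P B (fun _ => t) S x ≤
      GR P B (fun j => if j < k then s else t) S x := by
  intro S
  induction S with
  | nil =>
    intro hk
    simp [GR, Wf]
  | cons d S ih =>
    intro hk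
    rcases Nat.lt_or_ge S.length k with h | h
    · have hk' : (d :: S).length - k = 0 := by simp only [List.length_cons]; omega
      rw [hk', List.drop_zero]
      have e : GR P B (fun j => if j < k then s else t) (d :: S) x = GR P B (fun _ => s) (d :: S) x := by
        have hlen : (d :: S).length ≤ k := by simp only [List.length_cons]; omega
        clear ih hk hk' h
        generalize d :: S = T at hlen
        induction T with
        | nil => simp [GR, Wf]
        | cons e T ih2 =>
          simp only [List.length_cons] at hlen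
          have h2 := ih2 (by omega)
          simp only [GR, Wf] at h2 ⊢
          rw [h2, if_pos (by omega)]
      rw [e]
      have h1 := GR_nonneg hP B (fun _ => s) (d :: S) x
      have h2 := GR_le hP B (fun _ => t) (d :: S) x
      nlinarith
    · have hk' : (d :: S).length - k = (S.length - k) + 1 := by simp only [List.length_cons]; omega
      rw [hk', List.drop_succ_cons]
      have h1 := ih h
      have h2 : 0 ≤ PP P d (dr (Xi B S) x + sh d t) := PP_nonneg hP _ _
      have e1 : GR P B (fun _ => t) (d :: S) x = GR P B (fun _ => t) S x * PP P d (dr (Xi B S) x + sh d t) := rfl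
      have e2 : GR P B (fun j => if j < k then s else t) (d :: S) x =
          GR P B (fun j => if j < k then s else t) S x * PP P d (dr (Xi B S) x + sh d t) := by
        have : GR P B (fun j => if j < k then s else t) (d :: S) x =
          GR P B (fun j => if j < k then s else t) S x *
            PP P d (dr (Xi B S) x + sh d (if S.length < k then s else t)) := rfl
        rw [this, if_neg (by omega)]
      rw [e1, e2]
      have := mul_le_mul_of_nonneg_right h1 h2
      linarith [mul_assoc (GR P B (fun _ => s) (S.drop (S.length - k)) x) (GR P B (fun _ => t) S x)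
        (PP P d (dr (Xi B S) x + sh d t))]

theorem Phi_cont (B K k : ℕ) : Continuous fun p : ((Fin 3 → ℝ) × ℝ) × ℝ =>
    ∑ S ∈ Bk K, pT P B S p.1.1 * GR P B (fun j => if j < k then p.1.2 else p.2) S p.1.1 := by
  apply continuous_finsetSum
  intro S _
  have h1 := pT_cont hP B S
  have h2 := GR_cont hP B (X := ℝ × ℝ) (σ := fun q j => if j < k then q.1 else q.2) (by
    intro j
    by_cases hj : j < k
    · simp only [if_pos hj]; exact continuous_fst
    · simp only [if_neg hj]; exact continuous_snd) S
  have h3 : Continuous fun p : ((Fin 3 → ℝ) × ℝ) × ℝ => ((p.1.2, p.2), p.1.1) := by fun_prop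
  exact (h1.comp (continuous_fst.comp continuous_fst)).mul (h2.comp h3)

theorem key_int {B : ℕ} (hB2 : 2 ≤ B) (hB : 2 * (2 * N) < B ^ 2) (K k : ℕ) (hk : k ≤ K) (s t : ℝ) :
    ∫ x in cube, ∑ S ∈ Bk K, pT P B S x * GR P B (fun j => if j < k then s else t) S x =
      aa P s ^ k * aa P t ^ (K - k) := by
  rw [integral_finsetSum]
  · have e1 : ∀ S x, pT P B S x * GR P B (fun j => if j < k then s else t) S x =
        Wf B (fun j d u => PP P d u * PP P d (u + sh d (if j < k then s else t))) S x := by
      intro S x
      unfold pT GR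
      rw [Wf_mul]
    simp only [e1]
    rw [prod_formula_real (D := N + N) hB2 (by omega)]
    · have e2 : ∀ j, ((∫ u in (0:ℝ)..1, PP P false u * PP P false (u + sh false (if j < k then s else t))) +
          ∫ u in (0:ℝ)..1, PP P true u * PP P true (u + sh true (if j < k then s else t))) =
          aa P (if j < k then s else t) := by
        intro j
        unfold aa
        simp [PP, sh]
      simp only [e2]
      obtain ⟨m, rfl⟩ := Nat.exists_eq_add_of_le hk
      rw [Finset.prod_range_add]
      have e3 : ∏ j ∈ range k, aa P (if j < k then s else t) = aa P s ^ k := by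
        rw [Finset.prod_congr rfl (g := fun _ => aa P s) (fun j hj => by
          rw [if_pos (Finset.mem_range.1 hj)])]
        simp
      have e4 : ∏ j ∈ range m, aa P (if k + j < k then s else t) = aa P t ^ m := by
        rw [Finset.prod_congr rfl (g := fun _ => aa P t) (fun j hj => by
          rw [if_neg (by omega : ¬ k + j < k)])]
        simp
      rw [e3, e4]
      simp
    · intro j d
      have h1 := PP_TP hP d
      have h2 := h1.shift (sh d (if j < k then s else t))
      have h3 := h1.mul h2
      have e : (fun u : ℝ => ((PP P d u * PP P d (u + sh d (if j < k then s else t)) : ℝ) : ℂ)) =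
          fun u : ℝ => (PP P d u : ℂ) * ((PP P d (u + sh d (if j < k then s else t)) : ℝ) : ℂ) := by
        funext u; push_cast; rfl
      rw [e]
      exact h3
  · intro S _
    apply cint
    have h1 := pT_cont hP B S
    have h2 := GR_cont hP B (X := Unit) (σ := fun _ j => if j < k then s else t) (fun j => continuous_const) S
    exact h1.mul (h2.comp (Continuous.prodMk_right ()))

theorem cross {B : ℕ} (hB2 : 2 ≤ B) (hB : 2 * (2 * N) < B ^ 2) (K k : ℕ) (hk : k ≤ K) :
    ∑ S ∈ Bk K, ∫ x in cube, pT P B S x * (gR P B (S.drop (K - k)) x * gR P B S x) ≤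
      bb P k * bb P (K - k) := by
  have hΦ := Phi_cont hP B K k
  have hpt : ∀ x, ∑ S ∈ Bk K, pT P B S x * (gR P B (S.drop (K - k)) x * gR P B S x) ≤
      ∫ s in (0:ℝ)..1, ∫ t in (0:ℝ)..1,
        ∑ S ∈ Bk K, pT P B S x * GR P B (fun j => if j < k then s else t) S x := by
    intro x
    have hc : ∀ S, Continuous fun q : ℝ × ℝ => pT P B S x * GR P B (fun j => if j < k then q.1 else q.2) S x := by
      intro S
      have h2 := GR_cont hP B (X := ℝ × ℝ) (σ := fun q j => if j < k then q.1 else q.2) (by
        intro j
        by_cases hj : j < k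
        · simp only [if_pos hj]; exact continuous_fst
        · simp only [if_neg hj]; exact continuous_snd) S
      exact continuous_const.mul (h2.comp (continuous_id.prodMk continuous_const))
    have e1 : (∫ s in (0:ℝ)..1, ∫ t in (0:ℝ)..1,
        ∑ S ∈ Bk K, pT P B S x * GR P B (fun j => if j < k then s else t) S x) =
        ∑ S ∈ Bk K, ∫ s in (0:ℝ)..1, ∫ t in (0:ℝ)..1,
          pT P B S x * GR P B (fun j => if j < k then s else t) S x := by
      have h1 : ∀ s : ℝ, (∫ t in (0:ℝ)..1,
          ∑ S ∈ Bk K, pT P B S x * GR P B (fun j => if j < k then s else t) S x) =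
          ∑ S ∈ Bk K, ∫ t in (0:ℝ)..1,
            pT P B S x * GR P B (fun j => if j < k then s else t) S x := by
        intro s
        rw [intervalIntegral.integral_finsetSum]
        intro S _
        apply Continuous.intervalIntegrable
        exact (hc S).comp (Continuous.prodMk_right s)
      simp only [h1]
      rw [intervalIntegral.integral_finsetSum]
      intro S _
      apply Continuous.intervalIntegrable
      exact par_cont (fun s t => pT P B S x * GR P B (fun j => if j < k then s else t) S x) (hc S)
    rw [e1]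
    apply Finset.sum_le_sum
    intro S hS
    have hl := mem_Bk.1 hS
    have e2 : pT P B S x * (gR P B (S.drop (K - k)) x * gR P B S x) =
        ∫ s in (0:ℝ)..1, ∫ t in (0:ℝ)..1, pT P B S x *
          (GR P B (fun _ => s) (S.drop (K - k)) x * GR P B (fun _ => t) S x) := by
      unfold gR
      simp only [intervalIntegral.integral_const_mul, intervalIntegral.integral_mul_const]
    rw [e2]
    have hc1 : Continuous fun s : ℝ => GR P B (fun _ => s) (S.drop (K - k)) x :=
      (GR_cont' hP B (S.drop (K - k))).comp (Continuous.prodMk_right x)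
    have hc2 : Continuous fun s : ℝ => GR P B (fun _ => s) S x :=
      (GR_cont' hP B S).comp (Continuous.prodMk_right x)
    have hc3 : Continuous fun q : ℝ × ℝ => pT P B S x *
          (GR P B (fun _ => q.1) (S.drop (K - k)) x * GR P B (fun _ => q.2) S x) :=
      continuous_const.mul ((hc1.comp continuous_fst).mul (hc2.comp continuous_snd))
    apply intervalIntegral.integral_mono_on zero_le_one
    · apply Continuous.intervalIntegrable
      exact par_cont (fun s t => pT P B S x *
          (GR P B (fun _ => s) (S.drop (K - k)) x * GR P B (fun _ => t) S x)) hc3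
    · apply Continuous.intervalIntegrable
      exact par_cont (fun s t => pT P B S x * GR P B (fun j => if j < k then s else t) S x) (hc S)
    intro s _
    apply intervalIntegral.integral_mono_on zero_le_one
    · apply Continuous.intervalIntegrable
      exact hc3.comp (Continuous.prodMk_right s)
    · apply Continuous.intervalIntegrable
      exact (hc S).comp (Continuous.prodMk_right s)
    intro t _
    apply mul_le_mul_of_nonneg_left _ (pT_nonneg hP B S x)
    have := GR_mul_le hP B s t k x S (by omega)
    rw [hl] at this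
    exact this
  have hint : ∀ S ∈ Bk K, IntegrableOn (fun x => pT P B S x * (gR P B (S.drop (K - k)) x * gR P B S x)) cube := by
    intro S _
    exact cint ((pT_cont hP B S).mul ((gR_cont hP B _).mul (gR_cont hP B S)))
  rw [← integral_finsetSum _ hint]
  have hΦ1 : Continuous (Function.uncurry fun (x : Fin 3 → ℝ) (s : ℝ) => ∫ t in (0:ℝ)..1,
        ∑ S ∈ Bk K, pT P B S x * GR P B (fun j => if j < k then s else t) S x) := by
    exact par_cont (X := (Fin 3 → ℝ) × ℝ) (fun p t =>
      ∑ S ∈ Bk K, pT P B S p.1 * GR P B (fun j => if j < k then p.2 else t) S p.1) hΦ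
  have h1 : ∫ x in cube, ∑ S ∈ Bk K, pT P B S x * (gR P B (S.drop (K - k)) x * gR P B S x) ≤
      ∫ x in cube, ∫ s in (0:ℝ)..1, ∫ t in (0:ℝ)..1,
        ∑ S ∈ Bk K, pT P B S x * GR P B (fun j => if j < k then s else t) S x := by
    apply integral_mono
    · exact integrable_finsetSum _ hint
    · exact cint (par_cont _ hΦ1)
    · exact hpt
  refine h1.trans (le_of_eq ?_)
  rw [swap _ hΦ1]
  have h2 : ∀ s : ℝ, ∫ x in cube, (∫ t in (0:ℝ)..1,
        ∑ S ∈ Bk K, pT P B S x * GR P B (fun j => if j < k then s else t) S x) =
      ∫ t in (0:ℝ)..1, aa P s ^ k * aa P t ^ (K - k) := by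
    intro s
    rw [swap]
    · congr 1
      funext t
      exact key_int hP hB2 hB K k hk s t
    · have h3 : Continuous fun q : (Fin 3 → ℝ) × ℝ => ((q.1, s), q.2) := by fun_prop
      exact hΦ.comp h3
  simp only [h2]
  unfold bb
  simp only [intervalIntegral.integral_const_mul, intervalIntegral.integral_mul_const]

omit hP in
theorem gs_eq (B : ℕ) (S : List Bool) (x : Fin 3 → ℝ) :
    gs P B S x = ∑ k ∈ range S.length, gR P B (S.drop (S.length - k)) x := by
  induction S with
  | nil => simp [gs]
  | cons d S ih =>
    rw [gs, ih, List.length_cons, Finset.sum_range_succ]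
    congr 1
    · apply Finset.sum_congr rfl
      intro k hk
      have hk' := Finset.mem_range.1 hk
      have : S.length + 1 - k = (S.length - k) + 1 := by omega
      rw [this, List.drop_succ_cons]
    · have : S.length + 1 - S.length = 0 + 1 := by omega
      rw [this, List.drop_succ_cons, List.drop_zero]

theorem step {B : ℕ} (hB2 : 2 ≤ B) (hB : 2 * (2 * N) < B ^ 2) (K : ℕ) :
    ∑ T ∈ Bk (K + 1), ∫ x in cube, pT P B T x * gs P B T x ^ 2 ≤
      ∑ T ∈ Bk K, (∫ x in cube, pT P B T x * gs P B T x ^ 2) +
        2 * (∑ k ∈ range K, bb P k * bb P (K - k)) + bb P K := by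
  have hc0 : ∀ S, Continuous fun x => pT P B S x * gs P B S x ^ 2 := fun S =>
    (pT_cont hP B S).mul ((gs_cont hP B S).pow 2)
  have hc1 : ∀ S, Continuous fun x => pT P B S x * (gs P B S x * gR P B S x) := fun S =>
    (pT_cont hP B S).mul ((gs_cont hP B S).mul (gR_cont hP B S))
  have hc2 : ∀ S, Continuous fun x => pT P B S x * gR P B S x ^ 2 := fun S =>
    (pT_cont hP B S).mul ((gR_cont hP B S).pow 2)
  rw [sum_Bk_succ]
  have e1 : ∀ S, (∫ x in cube, pT P B (false :: S) x * gs P B (false :: S) x ^ 2) +
      (∫ x in cube, pT P B (true :: S) x * gs P B (true :: S) x ^ 2) =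
      (∫ x in cube, pT P B S x * gs P B S x ^ 2) +
      2 * (∫ x in cube, pT P B S x * (gs P B S x * gR P B S x)) +
      ∫ x in cube, pT P B S x * gR P B S x ^ 2 := by
    intro S
    have hc3 : Continuous fun x => pT P B S x * gs P B S x ^ 2 +
        2 * (pT P B S x * (gs P B S x * gR P B S x)) := (hc0 S).add (continuous_const.mul (hc1 S))
    rw [← integral_add (cint (hc0 (false :: S))) (cint (hc0 (true :: S))), ← integral_const_mul,
      ← integral_add (cint (hc0 S)) ((cint (hc1 S)).const_mul 2),
      ← integral_add (cint hc3) (cint (hc2 S))]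
    congr 1
    funext x
    simp only [gs, pT, Wf, PP]
    simp only [Bool.false_eq_true, if_false, if_true]
    ring
  simp only [e1]
  rw [Finset.sum_add_distrib, Finset.sum_add_distrib, ← Finset.mul_sum]
  have hY : ∑ S ∈ Bk K, ∫ x in cube, pT P B S x * (gs P B S x * gR P B S x) ≤
      ∑ k ∈ range K, bb P k * bb P (K - k) := by
    have e2 : ∀ S ∈ Bk K, ∫ x in cube, pT P B S x * (gs P B S x * gR P B S x) =
        ∑ k ∈ range K, ∫ x in cube, pT P B S x * (gR P B (S.drop (K - k)) x * gR P B S x) := by
      intro S hS
      have hl := mem_Bk.1 hS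
      rw [← integral_finsetSum]
      · congr 1
        funext x
        rw [gs_eq, hl, Finset.sum_mul, Finset.mul_sum]
      · intro k _
        exact cint ((pT_cont hP B S).mul ((gR_cont hP B _).mul (gR_cont hP B S)))
    rw [Finset.sum_congr rfl e2, Finset.sum_comm]
    apply Finset.sum_le_sum
    intro k hk
    exact cross hP hB2 hB K k (Finset.mem_range.1 hk).le
  have hZ : ∑ S ∈ Bk K, ∫ x in cube, pT P B S x * gR P B S x ^ 2 ≤ bb P K := by
    have h1 := cross hP hB2 hB K 0 (Nat.zero_le K)
    rw [bb_zero, one_mul, Nat.sub_zero] at h1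
    refine le_trans (Finset.sum_le_sum ?_) h1
    intro S hS
    have hl := mem_Bk.1 hS
    apply integral_mono (cint (hc2 S)) (cint ((pT_cont hP B S).mul ((gR_cont hP B _).mul (gR_cont hP B S))))
    intro x
    apply mul_le_mul_of_nonneg_left _ (pT_nonneg hP B S x)
    have e3 : gR P B (S.drop K) x = 1 := by
      rw [← hl, List.drop_length]
      simp [gR, GR, Wf]
    change gR P B S x ^ 2 ≤ gR P B (S.drop K) x * gR P B S x
    rw [e3]
    have h2 := gR_nonneg hP B S x
    have h3 := gR_le hP B S x
    nlinarith
  linarith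

end

theorem conv_le (a : ℕ → ℝ) (ha : ∀ k, 0 ≤ a k) (K : ℕ) :
    ∑ l ∈ range K, ∑ k ∈ range l, a k * a (l - k) ≤ (∑ k ∈ range K, a k) ^ 2 := by
  rw [sq, Finset.sum_mul_sum, ← Finset.sum_product', Finset.sum_sigma']
  have hinj : Set.InjOn (fun x : (_ : ℕ) × ℕ => (x.2, x.1 - x.2)) ((range K).sigma fun l => range l) := by
    rintro ⟨l, k⟩ h ⟨l', k'⟩ h' heq
    simp only [Finset.coe_sigma, Set.mem_sigma_iff, Finset.coe_range, Set.mem_Iio] at h h'
    simp only [Prod.mk.injEq] at heq
    obtain ⟨rfl, h2⟩ := heq
    have : l = l' := by omega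
    subst this
    rfl
  have e : ∑ x ∈ (range K).sigma fun l => range l, a x.2 * a (x.1 - x.2) =
      ∑ y ∈ ((range K).sigma fun l => range l).image (fun x : (_ : ℕ) × ℕ => (x.2, x.1 - x.2)), a y.1 * a y.2 := by
    rw [Finset.sum_image hinj]
  rw [e]
  apply Finset.sum_le_sum_of_subset_of_nonneg
  · intro y hy
    rw [Finset.mem_image] at hy
    obtain ⟨⟨l, k⟩, h, rfl⟩ := hy
    simp only [Finset.mem_sigma, Finset.mem_range] at h
    simp only [Finset.mem_product, Finset.mem_range]
    omega
  · intro y _ _
    exact mul_nonneg (ha _) (ha _)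

/-- second moment along the tree -/
theorem second_moment {N B : ℕ} {P : ℝ → ℝ} {c : ℤ → ℂ} (hP : Sel N P c) (hB2 : 2 ≤ B) (hB : 2 * (2 * N) < B ^ 2) (K : ℕ) :
    ∑ T ∈ Bk K, ∫ x in cube, pT P B T x * gs P B T x ^ 2 ≤ 3 * (∑ k ∈ range K, bb P k) ^ 2 := by
  have h1 : ∑ T ∈ Bk K, ∫ x in cube, pT P B T x * gs P B T x ^ 2 ≤
      ∑ l ∈ range K, (2 * (∑ k ∈ range l, bb P k * bb P (l - k)) + bb P l) := by
    induction K with
    | zero => simp [Bk, gs]
    | succ K ih =>
      rw [Finset.sum_range_succ]
      have := step hP hB2 hB K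
      linarith
  have h2 := conv_le (bb P) (bb_nonneg hP) K
  rw [Finset.sum_add_distrib, ← Finset.mul_sum] at h1
  rcases Nat.eq_zero_or_pos K with rfl | hK
  · simpa using h1
  · have h3 : 1 ≤ ∑ k ∈ range K, bb P k := by
      have := Finset.single_le_sum (f := bb P) (fun k _ => bb_nonneg hP k) (Finset.mem_range.2 hK)
      rwa [bb_zero] at this
    nlinarith

end Pool.Agent.Z26.HU
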