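import Mathlib
import Pool.Agent.Z26.HU.XP
import Pool.Agent.Z26.HU.XQ
import Pool.Agent.Z26.HU.XS
import Pool.Agent.Z26.HU.XN

set_option autoImplicit false

namespace Pool.Agent.Z26.HU

open MeasureTheory Finset

theorem pz {ι : Type} (s : Finset ι) (p : ι → (Fin 3 → ℝ) → ℝ) (F : ι → (Fin 3 → ℝ) → ℂ) (g : ι → (Fin 3 → ℝ) → ℝ)
    (hpc : ∀ i ∈ s, Continuous (p i)) (hFc : ∀ i ∈ s, Continuous (F i)) (hgc : ∀ i ∈ s, Continuous (g i))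
    (hp0 : ∀ i ∈ s, ∀ x, 0 ≤ p i x) (hp1 : ∀ x, ∑ i ∈ s, p i x = 1)
    (hFg : ∀ i ∈ s, ∀ x, ‖F i x‖ ≤ g i x) (E V : ℝ) (hE : 0 < E) (hV : 0 < V)
    (hmean : E ≤ ‖∑ i ∈ s, ∫ x in cube, (p i x : ℂ) * F i x‖)
    (hsec : ∑ i ∈ s, ∫ x in cube, p i x * g i x ^ 2 ≤ V) :
    ENNReal.ofReal (E ^ 2 / (4 * V)) ≤ volume {x | x ∈ cube ∧ ∃ i ∈ s, E / 2 < ‖F i x‖} :=
  XP.pz s p F g hpc hFc hgc hp0 hp1 hFg E V hE hV hmean hsec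

theorem choose_P (K : ℕ) (hK : 4 ≤ ∑ k ∈ range K, 1 / ((k : ℝ) + 1)) :
    ∃ (N : ℕ) (c : ℤ → ℂ) (P : ℝ → ℝ), Sel N P c ∧
      ∑ k ∈ range K, bb P k ≤ 3 * ∑ k ∈ range K, 1 / ((k : ℝ) + 1) ∧
      (wd false - wd true) / (64 * Real.pi) * (∑ k ∈ range K, 1 / ((k : ℝ) + 1)) ≤
        ‖(Complex.I * ∫ t in (0:ℝ)..1, ee t * ((PP P false t : ℂ) * wd false + (PP P true t : ℂ) * wd true)) *
          ∑ k ∈ range K, ∫ s in (0:ℝ)..1, ee (-s) * (aa P s : ℂ) ^ k‖ :=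
  XQ.choose_P trig_approx e_low b_up corr_half K hK

end Pool.Agent.Z26.HU
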