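import Mathlib
import Pool.Agent.Z26.HU.G0

set_option autoImplicit false

namespace Pool.Agent.Z26.HU.XG1

open MeasureTheory Finset


theorem cone_pos {y : Fin 3 → ℝ} (hy : cone y) : 0 < y 0 ∧ 0 < y 2 ∧ 0 < y 0 + y 2 + 2 * y 1 := by
  obtain ⟨h0, h1⟩ := hy
  have h2 : 0 < y 2 := by
    have : 0 < y 0 * y 2 := lt_of_le_of_lt (sq_nonneg _) h1
    exact (pos_iff_pos_of_mul_pos this).1 h0
  refine ⟨h0, h2, ?_⟩
  by_contra hcon
  push Not at hcon
  have h3 : y 0 + y 2 ≤ -(2 * y 1) := by linarith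
  have h4 : (y 0 + y 2) ^ 2 ≤ (-(2 * y 1)) ^ 2 := by
    apply pow_le_pow_left₀ (by linarith) h3
  nlinarith [sq_nonneg (y 0 - y 2)]

/-- the factor -/
noncomputable def DD (L : ℕ) (z : Fin 3 → ℂ) : ℂ :=
  (((z 0 + Complex.I) * (z 2 + Complex.I)) ^ (4 * L) *
    (z 0 + z 2 + 2 * z 1 + Complex.I) ^ (2 * L))⁻¹

theorem ne_of_im {w : ℂ} (h : 0 ≤ w.im) : w + Complex.I ≠ 0 := by
  intro h0
  have := congrArg Complex.im h0
  simp at this
  linarith

theorem norm_ge {w : ℂ} (h : 0 ≤ w.im) : 1 + w.re ^ 2 ≤ ‖w + Complex.I‖ ^ 2 := by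
  rw [← Complex.normSq_eq_norm_sq, Complex.normSq_apply]
  simp only [Complex.add_re, Complex.I_re, Complex.add_im, Complex.I_im]
  nlinarith

theorem DD_diff (L : ℕ) : DifferentiableOn ℂ (DD L) tube := by
  unfold DD
  apply DifferentiableOn.inv
  · apply Differentiable.differentiableOn
    fun_prop
  · intro z hz
    have hz' : cone (fun j => (z j).im) := hz
    obtain ⟨h0, h2, h1⟩ := cone_pos hz'
    have e0 := ne_of_im (w := z 0) h0.le
    have e2 := ne_of_im (w := z 2) h2.le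
    have e1 := ne_of_im (w := z 0 + z 2 + 2 * z 1) (by
      simp only [Complex.add_im, Complex.mul_im, Complex.re_ofNat, Complex.im_ofNat, zero_mul,
        add_zero]
      exact h1.le)
    exact mul_ne_zero (pow_ne_zero _ (mul_ne_zero e0 e2)) (pow_ne_zero _ e1)

/-- a decaying factor on the tube -/
theorem D_exists (p : ℝ) (hp : 0 < p) : ∃ D : (Fin 3 → ℂ) → ℂ, DifferentiableOn ℂ D tube ∧
    (∃ C : ℝ, 0 < C ∧ ∀ x y : Fin 3 → ℝ, cone y → ‖D (cplx x y)‖ ^ p ≤ C * ∏ i, 1 / (1 + x i ^ 2)) ∧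
    (∃ c : ℝ, 0 < c ∧ ∀ x ∈ cube, ∀ y : Fin 3 → ℝ, cone y → ‖y‖ ≤ 1 → c ≤ ‖D (cplx x y)‖) := by
  obtain ⟨L, hL⟩ := exists_nat_ge (1 / p)
  have hLp : 1 ≤ (L : ℝ) * p := by
    rwa [div_le_iff₀ hp] at hL
  refine ⟨DD L, DD_diff L, ⟨1, one_pos, ?_⟩, ⟨((9 : ℝ) ^ (4 * L) * 9 ^ (2 * L))⁻¹, by positivity, ?_⟩⟩
  · intro x y hy
    obtain ⟨h0, h2, h1⟩ := cone_pos hy
    set a := ‖cplx x y 0 + Complex.I‖ with ha
    set b := ‖cplx x y 2 + Complex.I‖ with hb
    set c := ‖cplx x y 0 + cplx x y 2 + 2 * cplx x y 1 + Complex.I‖ with hc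
    have hre : ∀ i, (cplx x y i).re = x i := by intro i; simp [cplx]
    have him : ∀ i, (cplx x y i).im = y i := by intro i; simp [cplx]
    have ha2 : 1 + x 0 ^ 2 ≤ a ^ 2 := by
      have := norm_ge (w := cplx x y 0) (by rw [him]; exact h0.le)
      rwa [hre] at this
    have hb2 : 1 + x 2 ^ 2 ≤ b ^ 2 := by
      have := norm_ge (w := cplx x y 2) (by rw [him]; exact h2.le)
      rwa [hre] at this
    have hc2 : 1 + (x 0 + x 2 + 2 * x 1) ^ 2 ≤ c ^ 2 := by
      have hsr : (cplx x y 0 + cplx x y 2 + 2 * cplx x y 1).re = x 0 + x 2 + 2 * x 1 := by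
        simp [cplx]
      have hsi : (cplx x y 0 + cplx x y 2 + 2 * cplx x y 1).im = y 0 + y 2 + 2 * y 1 := by
        simp [cplx]
      have := norm_ge (w := cplx x y 0 + cplx x y 2 + 2 * cplx x y 1) (by
        rw [hsi]; exact h1.le)
      rwa [hsr] at this
    have hD : ‖DD L (cplx x y)‖ = ((a * b) ^ (4 * L) * c ^ (2 * L))⁻¹ := by
      simp only [DD, norm_inv, norm_mul, norm_pow, ha, hb, hc]
    set A := (1 + x 0 ^ 2) * (1 + x 2 ^ 2) with hA
    set B := 1 + (x 0 + x 2 + 2 * x 1) ^ 2 with hB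
    have hA1 : 1 ≤ A := by
      rw [hA]; nlinarith [sq_nonneg (x 0), sq_nonneg (x 2), mul_nonneg (sq_nonneg (x 0)) (sq_nonneg (x 2))]
    have hB1 : 1 ≤ B := by rw [hB]; nlinarith [sq_nonneg (x 0 + x 2 + 2 * x 1)]
    have hAB1 : 1 ≤ A ^ 2 * B := by
      have : 1 ≤ A ^ 2 := one_le_pow₀ hA1
      nlinarith
    have hle : (A ^ 2 * B) ^ L ≤ (a * b) ^ (4 * L) * c ^ (2 * L) := by
      have e1 : (a * b) ^ (4 * L) * c ^ (2 * L) = ((a ^ 2 * b ^ 2) ^ 2 * c ^ 2) ^ L := by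
        rw [mul_pow _ _ L, ← pow_mul, ← pow_mul, mul_pow, mul_pow (a ^ 2), ← pow_mul, ← pow_mul]
        ring_nf
      rw [e1]
      have e2 : A ≤ a ^ 2 * b ^ 2 := by rw [hA]; gcongr
      gcongr
    have hDle : ‖DD L (cplx x y)‖ ≤ ((A ^ 2 * B) ^ L)⁻¹ := by
      rw [hD]
      exact inv_anti₀ (by positivity) hle
    calc ‖DD L (cplx x y)‖ ^ p ≤ (((A ^ 2 * B) ^ L)⁻¹) ^ p := by gcongr
      _ = ((A ^ 2 * B) ^ ((L : ℝ) * p))⁻¹ := by
          rw [Real.inv_rpow (by positivity), Real.rpow_mul (by positivity), Real.rpow_natCast]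
      _ ≤ ((A ^ 2 * B) ^ (1 : ℝ))⁻¹ := by
          apply inv_anti₀ (by positivity)
          exact Real.rpow_le_rpow_of_exponent_le hAB1 hLp
      _ = (A ^ 2 * B)⁻¹ := by rw [Real.rpow_one]
      _ ≤ ((1 + x 0 ^ 2) * (1 + x 1 ^ 2) * (1 + x 2 ^ 2))⁻¹ := by
          apply inv_anti₀ (by positivity)
          have e3 : 1 + x 1 ^ 2 ≤ A * B := by
            rw [hA, hB]
            set u := x 0 + x 2 + 2 * x 1 with hu
            have e4 : x 1 = (u - x 0 - x 2) / 2 := by rw [hu]; ring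
            have e5 : x 1 ^ 2 ≤ u ^ 2 + x 0 ^ 2 + x 2 ^ 2 := by
              rw [e4]
              nlinarith [sq_nonneg (u + x 0), sq_nonneg (u + x 2), sq_nonneg (x 0 - x 2)]
            have e6 : 0 ≤ x 0 ^ 2 * x 2 ^ 2 := by positivity
            have e7 : 0 ≤ x 0 ^ 2 * u ^ 2 := by positivity
            have e8 : 0 ≤ x 2 ^ 2 * u ^ 2 := by positivity
            have e9 : 0 ≤ x 0 ^ 2 * x 2 ^ 2 * u ^ 2 := by positivity
            nlinarith
          calc (1 + x 0 ^ 2) * (1 + x 1 ^ 2) * (1 + x 2 ^ 2) = A * (1 + x 1 ^ 2) := by rw [hA]; ring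
            _ ≤ A * (A * B) := by gcongr
            _ = A ^ 2 * B := by ring
      _ = 1 * ∏ i, 1 / (1 + x i ^ 2) := by
          rw [Fin.prod_univ_three]
          field_simp
  · intro x hx y hy hy1
    obtain ⟨h0, h2, h1⟩ := cone_pos hy
    have hx' : ∀ i, |x i| ≤ 1 := by
      intro i
      have := hx i (Set.mem_univ i)
      rw [Set.mem_Ico] at this
      rw [abs_of_nonneg this.1]
      exact this.2.le
    have hy' : ∀ i, |y i| ≤ 1 := by
      intro i
      have := (norm_le_pi_norm y i).trans hy1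
      rwa [Real.norm_eq_abs] at this
    have hz : ∀ i, ‖cplx x y i‖ ≤ 2 := by
      intro i
      unfold cplx
      refine (norm_add_le _ _).trans ?_
      rw [norm_mul, Complex.norm_I, mul_one, Complex.norm_real, Complex.norm_real,
        Real.norm_eq_abs, Real.norm_eq_abs]
      have := hx' i; have := hy' i
      linarith
    have hD : ‖DD L (cplx x y)‖ = ((‖cplx x y 0 + Complex.I‖ * ‖cplx x y 2 + Complex.I‖) ^ (4 * L) *
        ‖cplx x y 0 + cplx x y 2 + 2 * cplx x y 1 + Complex.I‖ ^ (2 * L))⁻¹ := by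
      simp only [DD, norm_inv, norm_mul, norm_pow]
    have ea : ‖cplx x y 0 + Complex.I‖ ≤ 3 := by
      refine (norm_add_le _ _).trans ?_
      rw [Complex.norm_I]
      have := hz 0
      linarith
    have eb : ‖cplx x y 2 + Complex.I‖ ≤ 3 := by
      refine (norm_add_le _ _).trans ?_
      rw [Complex.norm_I]
      have := hz 2
      linarith
    have ec : ‖cplx x y 0 + cplx x y 2 + 2 * cplx x y 1 + Complex.I‖ ≤ 9 := by
      refine (norm_add_le _ _).trans ?_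
      rw [Complex.norm_I]
      have e1 := norm_add_le (cplx x y 0 + cplx x y 2) (2 * cplx x y 1)
      have e2 := norm_add_le (cplx x y 0) (cplx x y 2)
      rw [norm_mul, Complex.norm_ofNat] at e1
      have := hz 0; have := hz 1; have := hz 2
      linarith
    have hpa : 0 < ‖cplx x y 0 + Complex.I‖ := norm_pos_iff.2 (ne_of_im (by simp [cplx]; exact h0.le))
    have hpb : 0 < ‖cplx x y 2 + Complex.I‖ := norm_pos_iff.2 (ne_of_im (by simp [cplx]; exact h2.le))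
    have hpc : 0 < ‖cplx x y 0 + cplx x y 2 + 2 * cplx x y 1 + Complex.I‖ :=
      norm_pos_iff.2 (ne_of_im (by simp [cplx]; linarith))
    rw [hD]
    apply inv_anti₀ (by positivity)
    have e9 : ‖cplx x y 0 + Complex.I‖ * ‖cplx x y 2 + Complex.I‖ ≤ 9 := by
      calc ‖cplx x y 0 + Complex.I‖ * ‖cplx x y 2 + Complex.I‖ ≤ 3 * 3 := by gcongr
        _ = 9 := by norm_num
    gcongr

end Pool.Agent.Z26.HU.XG1
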