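import Mathlib
import Pool.Agent.Z26.HU.G0

set_option autoImplicit false

namespace Pool.Agent.Z26.HU.XG4

open MeasureTheory Finset


/-! ### helper lemmas -/

lemma ee_add_int (t : ℂ) (n : ℤ) : ee (t + n) = ee t := by
  unfold ee
  rw [mul_add, Complex.exp_add]
  have : (2 * Real.pi * Complex.I * (n : ℂ) : ℂ) = n * (2 * Real.pi * Complex.I) := by ring
  rw [this, Complex.exp_int_mul_two_pi_mul_I, mul_one]

lemma EF_add_int {n : ℕ} (a : Fin n → ℂ) (ξ : Fin n → Fin 3 → ℤ) (z : Fin 3 → ℂ) (m : Fin 3 → ℤ) :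
    EF a ξ (fun k => z k + m k) = EF a ξ z := by
  unfold EF
  apply Finset.sum_congr rfl
  intro i _
  congr 1
  have : dz (ξ i) (fun k => z k + m k) = dz (ξ i) z + ((∑ k, ξ i k * m k : ℤ) : ℂ) := by
    unfold dz
    push_cast
    rw [← Finset.sum_add_distrib]
    apply Finset.sum_congr rfl
    intro k _
    ring
  rw [this, ee_add_int]

lemma EF_cont {n : ℕ} (a : Fin n → ℂ) (ξ : Fin n → Fin 3 → ℤ) : Continuous (EF a ξ) := by
  unfold EF ee dz
  fun_prop

lemma cplx_cont (y : Fin 3 → ℝ) : Continuous fun x => cplx x y := by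
  unfold cplx
  fun_prop

lemma G_cont (h : Hump) : Continuous h.G := by
  unfold Hump.G
  exact (EF_cont h.a h.ξ).comp (by fun_prop)

lemma cube_meas : MeasurableSet cube := MeasurableSet.univ_pi fun _ => measurableSet_Ico

lemma cube_vol : volume cube = 1 := by
  unfold cube
  have h := Real.volume_pi_Ico (a := fun _ : Fin 3 => (0 : ℝ)) (b := fun _ => 1)
  rw [h]
  simp

lemma cube_int {f : (Fin 3 → ℝ) → ℝ} (hf : Continuous f) : IntegrableOn f cube := by
  have hK : IsCompact (Set.Icc (0 : Fin 3 → ℝ) 1) := isCompact_Icc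
  apply (hf.continuousOn.integrableOn_compact hK).mono_set
  intro x hx
  constructor
  · intro i
    exact (hx i (Set.mem_univ i)).1
  · intro i
    exact (hx i (Set.mem_univ i)).2.le

lemma G_sq (h : Hump) (hR : 0 < h.R)
    (hsl : ∀ y, cone y → ∫ x in cube, ‖EF h.a h.ξ (cplx x y)‖ ^ 2 ≤ 1)
    (hfract : ∀ R : ℕ, 0 < R → MeasurePreserving (fun (x : Fin 3 → ℝ) (i : Fin 3) => Int.fract ((R : ℝ) * x i))
      (volume.restrict cube) (volume.restrict cube)) (y : Fin 3 → ℝ) (hy : cone y) :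
    ∫⁻ x in cube, ‖h.G (cplx x y)‖ₑ ^ 2 ≤ 1 := by
  have hRr : (0 : ℝ) < h.R := by exact_mod_cast hR
  set y' : Fin 3 → ℝ := fun k => h.R * y k with hy'
  have hy'c : cone y' := by
    obtain ⟨h1, h2⟩ := hy
    refine ⟨by positivity, ?_⟩
    simp only [hy']
    have : (h.R : ℝ) ^ 2 * (y 1) ^ 2 < (h.R : ℝ) ^ 2 * (y 0 * y 2) := by gcongr
    nlinarith
  have h1 : ∀ x : Fin 3 → ℝ, h.G (cplx x y)
      = EF h.a h.ξ (cplx (fun i => Int.fract ((h.R : ℝ) * x i)) y') := by
    intro x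
    unfold Hump.G
    rw [← EF_add_int h.a h.ξ (cplx (fun i => Int.fract ((h.R : ℝ) * x i)) y')
      (fun k => ⌊(h.R : ℝ) * x k⌋)]
    congr 1
    ext k
    simp only [cplx, hy']
    have h2 : ((Int.fract ((h.R : ℝ) * x k) : ℝ) : ℂ) + ((⌊(h.R : ℝ) * x k⌋ : ℤ) : ℂ)
        = (h.R : ℂ) * (x k : ℂ) := by
      have := Int.fract_add_floor ((h.R : ℝ) * x k)
      exact_mod_cast this
    push_cast
    linear_combination -h2
  have hm : Measurable fun x : Fin 3 → ℝ => ‖EF h.a h.ξ (cplx x y')‖ₑ ^ 2 :=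
    ((((EF_cont h.a h.ξ).comp (cplx_cont y')).measurable).enorm).pow_const 2
  calc ∫⁻ x in cube, ‖h.G (cplx x y)‖ₑ ^ 2
      = ∫⁻ x in cube, (fun x => ‖EF h.a h.ξ (cplx x y')‖ₑ ^ 2)
          (fun i => Int.fract ((h.R : ℝ) * x i)) := by
        simp_rw [h1]
    _ = ∫⁻ x in cube, ‖EF h.a h.ξ (cplx x y')‖ₑ ^ 2 := (hfract h.R hR).lintegral_comp hm
    _ = ENNReal.ofReal (∫ x in cube, ‖EF h.a h.ξ (cplx x y')‖ ^ 2) := by
        rw [ofReal_integral_eq_lintegral_ofReal]
        · apply lintegral_congr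
          intro x
          rw [ENNReal.ofReal_pow (norm_nonneg _), ofReal_norm_eq_enorm]
        · apply cube_int
          exact ((EF_cont h.a h.ξ).comp (cplx_cont y')).norm.pow 2
        · exact Filter.Eventually.of_forall fun x => by positivity
    _ ≤ 1 := by
        rw [← ENNReal.ofReal_one]
        exact ENNReal.ofReal_le_ofReal (hsl y' hy'c)

lemma w_sum : ∑' j : ℕ, (2 : ENNReal)⁻¹ ^ j = 2 := by
  rw [ENNReal.tsum_geometric]
  rw [ENNReal.one_sub_inv_two, inv_inv]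

lemma sq_sum (E : ℕ → ENNReal) :
    (∑' j, (2 : ENNReal)⁻¹ ^ j * E j) ^ 2 ≤ 4 * ∑' j, (2 : ENNReal)⁻¹ ^ j * E j ^ 2 := by
  have hw : ∀ a b : ENNReal, a * b ≤ a ^ 2 + b ^ 2 := by
    intro a b
    rcases le_total a b with h | h
    · calc a * b ≤ b * b := by gcongr
        _ = b ^ 2 := by ring
        _ ≤ a ^ 2 + b ^ 2 := le_add_self
    · calc a * b ≤ a * a := by gcongr
        _ = a ^ 2 := by ring
        _ ≤ a ^ 2 + b ^ 2 := le_self_add
  set w : ℕ → ENNReal := fun j => (2 : ENNReal)⁻¹ ^ j with hwdef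
  have hws : ∑' j, w j = 2 := w_sum
  calc (∑' j, w j * E j) ^ 2 = ∑' j, ∑' k, (w j * E j) * (w k * E k) := by
        rw [sq, ← ENNReal.tsum_mul_right]
        congr 1
        ext j
        rw [ENNReal.tsum_mul_left]
    _ ≤ ∑' j, ∑' k, (w j * w k * E j ^ 2 + w j * w k * E k ^ 2) := by
        apply ENNReal.tsum_le_tsum
        intro j
        apply ENNReal.tsum_le_tsum
        intro k
        calc (w j * E j) * (w k * E k) = (w j * w k) * (E j * E k) := by ring
          _ ≤ (w j * w k) * (E j ^ 2 + E k ^ 2) := by gcongr; exact hw _ _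
          _ = _ := by ring
    _ = ∑' j, (w j * E j ^ 2 * 2 + w j * ∑' k, w k * E k ^ 2) := by
        congr 1
        ext j
        rw [ENNReal.tsum_add]
        congr 1
        · rw [← hws, ← ENNReal.tsum_mul_left]
          congr 1
          ext k
          ring
        · rw [← ENNReal.tsum_mul_left]
          congr 1
          ext k
          ring
    _ = 4 * ∑' j, w j * E j ^ 2 := by
        rw [ENNReal.tsum_add, ENNReal.tsum_mul_right, ENNReal.tsum_mul_right, hws]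
        ring

lemma rpow_le_one_add_sq (s : ENNReal) {p : ℝ} (hp : 0 < p) (hp2 : p ≤ 2) : s ^ p ≤ 1 + s ^ 2 := by
  rcases le_total s 1 with h | h
  · exact (ENNReal.rpow_le_one h hp.le).trans le_self_add
  · calc s ^ p ≤ s ^ (2 : ℝ) := ENNReal.rpow_le_rpow_of_exponent_le h hp2
      _ = s ^ 2 := ENNReal.rpow_two s
      _ ≤ 1 + s ^ 2 := le_add_self

/-- the Hardy space bound -/
theorem hp_bound (H : ℕ → Hump) (hR : ∀ j, 0 < (H j).R)
    (hsl : ∀ j y, cone y → ∫ x in cube, ‖EF (H j).a (H j).ξ (cplx x y)‖ ^ 2 ≤ 1)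
    (hfract : ∀ R : ℕ, 0 < R → MeasurePreserving (fun (x : Fin 3 → ℝ) (i : Fin 3) => Int.fract ((R : ℝ) * x i))
      (volume.restrict cube) (volume.restrict cube))
    (hperiod : ∀ (g : (Fin 3 → ℝ) → ENNReal), Measurable g →
      (∀ (x : Fin 3 → ℝ) (n : Fin 3 → ℤ), g (fun i => x i + n i) = g x) →
      ∫⁻ x : Fin 3 → ℝ, ENNReal.ofReal (∏ i, 1 / (1 + x i ^ 2)) * g x ≤ ENNReal.ofReal 1000 * ∫⁻ x in cube, g x)
    (hsum : ∀ z ∈ tube, Summable fun j : ℕ => ‖(1 / 2 : ℂ) ^ j * (H j).G z‖)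
    (p : ℝ) (hp : 0 < p) (hp2 : p ≤ 2) (D : (Fin 3 → ℂ) → ℂ) (CD : ℝ) (hCD : 0 < CD)
    (hD : ∀ x y : Fin 3 → ℝ, cone y → ‖D (cplx x y)‖ ^ p ≤ CD * ∏ i, 1 / (1 + x i ^ 2)) :
    ∃ C : ℝ, ∀ y : Fin 3 → ℝ, cone y →
      ∫⁻ x : Fin 3 → ℝ, ‖D (cplx x y) * SS H (cplx x y)‖ₑ ^ p ≤ ENNReal.ofReal C := by
  refine ⟨CD * (1000 * 9), ?_⟩
  intro y hy
  set S : (Fin 3 → ℝ) → ENNReal :=
    fun x => ∑' j : ℕ, (2 : ENNReal)⁻¹ ^ j * ‖(H j).G (cplx x y)‖ₑ with hS
  have hSm : Measurable S := by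
    apply Measurable.ennreal_tsum
    intro j
    exact (((G_cont (H j)).comp (cplx_cont y)).measurable.enorm).const_mul _
  have hSS : ∀ x, ‖SS H (cplx x y)‖ₑ ≤ S x := by
    intro x
    unfold SS
    refine enorm_tsum_le_tsum_enorm.trans ?_
    apply le_of_eq
    congr 1
    ext j
    rw [enorm_mul, enorm_pow]
    congr 2
    rw [one_div, enorm_inv (by norm_num)]
    congr 1
    rw [← ofReal_norm_eq_enorm]
    simp
  have hSper : ∀ (x : Fin 3 → ℝ) (n : Fin 3 → ℤ), S (fun i => x i + n i) = S x := by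
    intro x n
    simp only [hS]
    congr 1
    ext j
    congr 2
    unfold Hump.G
    rw [← EF_add_int (H j).a (H j).ξ (fun k => ((H j).R : ℂ) * cplx x y k)
      (fun k => (H j).R * n k)]
    congr 1
    ext k
    simp only [cplx]
    push_cast
    ring
  have hSint : ∫⁻ x in cube, S x ^ 2 ≤ 8 := by
    calc ∫⁻ x in cube, S x ^ 2
        ≤ ∫⁻ x in cube, 4 * ∑' j, (2 : ENNReal)⁻¹ ^ j * ‖(H j).G (cplx x y)‖ₑ ^ 2 :=
          lintegral_mono fun x => sq_sum _
      _ = 4 * ∑' j, (2 : ENNReal)⁻¹ ^ j * ∫⁻ x in cube, ‖(H j).G (cplx x y)‖ₑ ^ 2 := by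
          have hmj : ∀ j, Measurable fun x => ‖(H j).G (cplx x y)‖ₑ ^ 2 := fun j =>
            (((G_cont (H j)).comp (cplx_cont y)).measurable.enorm).pow_const 2
          rw [lintegral_const_mul _ (Measurable.ennreal_tsum fun j => (hmj j).const_mul _),
            lintegral_tsum (fun j => ((hmj j).const_mul _).aemeasurable)]
          congr 2
          ext j
          rw [lintegral_const_mul _ (hmj j)]
      _ ≤ 4 * ∑' j, (2 : ENNReal)⁻¹ ^ j * 1 := by
          gcongr with j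
          exact G_sq (H j) (hR j) (fun y hy => hsl j y hy) hfract y hy
      _ = 8 := by
          simp only [mul_one]
          rw [w_sum]
          norm_num
  set g : (Fin 3 → ℝ) → ENNReal := fun x => S x ^ p with hg
  have hgm : Measurable g := hSm.pow_const p
  have hgint : ∫⁻ x in cube, g x ≤ 9 := by
    calc ∫⁻ x in cube, g x ≤ ∫⁻ x in cube, (1 + S x ^ 2) :=
          lintegral_mono fun x => rpow_le_one_add_sq _ hp hp2
      _ = 1 + ∫⁻ x in cube, S x ^ 2 := by
          rw [lintegral_add_left measurable_const, setLIntegral_const, cube_vol, mul_one]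
      _ ≤ 1 + 8 := by gcongr
      _ = 9 := by norm_num
  have hmain := hperiod g hgm (fun x n => by simp only [hg]; rw [hSper])
  calc ∫⁻ x : Fin 3 → ℝ, ‖D (cplx x y) * SS H (cplx x y)‖ₑ ^ p
      ≤ ∫⁻ x : Fin 3 → ℝ, ENNReal.ofReal CD * (ENNReal.ofReal (∏ i, 1 / (1 + x i ^ 2)) * g x) := by
        apply lintegral_mono
        intro x
        simp only
        rw [enorm_mul, ENNReal.mul_rpow_of_nonneg _ _ hp.le, ← mul_assoc,
          ← ENNReal.ofReal_mul hCD.le]
        gcongr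
        · rw [← ofReal_norm_eq_enorm, ENNReal.ofReal_rpow_of_nonneg (norm_nonneg _) hp.le]
          exact ENNReal.ofReal_le_ofReal (hD x y hy)
        · exact ENNReal.rpow_le_rpow (hSS x) hp.le
    _ = ENNReal.ofReal CD * ∫⁻ x : Fin 3 → ℝ, ENNReal.ofReal (∏ i, 1 / (1 + x i ^ 2)) * g x := by
        rw [lintegral_const_mul]
        refine Measurable.mul ?_ hgm
        exact (by fun_prop : Measurable fun x : Fin 3 → ℝ => ∏ i, 1 / (1 + x i ^ 2)).ennreal_ofReal
    _ ≤ ENNReal.ofReal CD * (ENNReal.ofReal 1000 * 9) := by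
        gcongr
        exact hmain.trans (by gcongr)
    _ = ENNReal.ofReal (CD * (1000 * 9)) := by
        rw [ENNReal.ofReal_mul hCD.le, ENNReal.ofReal_mul (by norm_num)]
        congr 2
        norm_num

end Pool.Agent.Z26.HU.XG4
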