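import Mathlib
import Pool.Agent.Z26.HU.G0

set_option autoImplicit false

namespace Pool.Agent.Z26.HU.XG5

open MeasureTheory Finset


theorem norm_ee (t : ℂ) : ‖ee t‖ = Real.exp (-(2 * Real.pi * t.im)) := by
  unfold ee
  rw [Complex.norm_exp]
  congr 1
  simp [Complex.mul_re, Complex.mul_im]

theorem ee_add_int (t : ℂ) (n : ℤ) : ee (t + n) = ee t := by
  unfold ee
  rw [mul_add, Complex.exp_add]
  have : Complex.exp (2 * Real.pi * Complex.I * (n : ℂ)) = 1 := by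
    rw [Complex.exp_eq_one_iff]
    exact ⟨n, by ring⟩
  rw [this, mul_one]

theorem dz_im (ξ : Fin 3 → ℤ) (z : Fin 3 → ℂ) : (dz ξ z).im = dr ξ (fun k => (z k).im) := by
  unfold dz dr
  rw [Complex.im_sum]
  refine Finset.sum_congr rfl fun i _ => ?_
  simp [Complex.mul_im]

theorem dr_smul (ξ : Fin 3 → ℤ) (r : ℝ) (y : Fin 3 → ℝ) : dr ξ (fun k => r * y k) = r * dr ξ y := by
  unfold dr
  rw [Finset.mul_sum]
  refine Finset.sum_congr rfl fun i _ => ?_
  ring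

theorem EF_le {n : ℕ} (a : Fin n → ℂ) (ξ : Fin n → Fin 3 → ℤ) (z : Fin 3 → ℂ) :
    ‖EF a ξ z‖ ≤ ∑ i, ‖a i‖ * Real.exp (-(2 * Real.pi * dr (ξ i) (fun k => (z k).im))) := by
  unfold EF
  refine (norm_sum_le _ _).trans (le_of_eq ?_)
  refine Finset.sum_congr rfl fun i _ => ?_
  rw [norm_mul, norm_ee, dz_im]

theorem G_le (h : Hump) (z : Fin 3 → ℂ) :
    ‖h.G z‖ ≤ ∑ i, ‖h.a i‖ * Real.exp (-(2 * Real.pi * h.R * dr (h.ξ i) (fun k => (z k).im))) := by
  unfold Hump.G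
  refine (EF_le _ _ _).trans (le_of_eq ?_)
  refine Finset.sum_congr rfl fun i _ => ?_
  have : (fun k => ((h.R : ℂ) * z k).im) = fun k => (h.R : ℝ) * (z k).im := by
    funext k
    simp [Complex.mul_im]
  rw [this, dr_smul]
  ring_nf

theorem G_le_l1 (h : Hump) (hpos : 0 < h.R) (hcn : ∀ i y, cone y → 0 < dr (h.ξ i) y) (z : Fin 3 → ℂ) (hz : z ∈ tube) :
    ‖h.G z‖ ≤ h.l1 := by
  refine (G_le h z).trans ?_
  unfold Hump.l1
  refine Finset.sum_le_sum fun i _ => ?_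
  have hz' : cone (fun j => (z j).im) := hz
  have h1 := hcn i _ hz'
  have h2 : Real.exp (-(2 * Real.pi * h.R * dr (h.ξ i) (fun k => (z k).im))) ≤ 1 := by
    rw [Real.exp_le_one_iff]
    have : (0:ℝ) < h.R := by exact_mod_cast hpos
    have : 0 < 2 * Real.pi * h.R * dr (h.ξ i) (fun k => (z k).im) := by positivity
    linarith
  nlinarith [norm_nonneg (h.a i), Real.exp_pos (-(2 * Real.pi * h.R * dr (h.ξ i) (fun k => (z k).im)))]

theorem G_le_dec (h : Hump) (z : Fin 3 → ℂ) :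
    ‖h.G z‖ ≤ h.dec (fun k => (z k).im) := by
  refine (G_le h z).trans ?_
  unfold Hump.dec
  refine Finset.sum_le_sum fun i _ => ?_
  have h2 : 0 < Real.exp (-(2 * Real.pi * h.R * dr (h.ξ i) (fun k => (z k).im))) := Real.exp_pos _
  have h3 : (1:ℝ) ≤ (1 + 2 * Real.pi * h.R * ∑ k, |(h.ξ i k : ℝ)|) := by
    have : 0 ≤ 2 * Real.pi * h.R * ∑ k, |(h.ξ i k : ℝ)| := by positivity
    linarith
  have h4 : ‖h.a i‖ ≤ ‖h.a i‖ * (1 + 2 * Real.pi * h.R * ∑ k, |(h.ξ i k : ℝ)|) := by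
    nlinarith [norm_nonneg (h.a i)]
  exact mul_le_mul_of_nonneg_right h4 h2.le

theorem cplx_im (x y : Fin 3 → ℝ) : (fun k => (cplx x y k).im) = y := by
  funext k
  simp [cplx]

theorem G_period (h : Hump) (hpos : 0 < h.R) (x y : Fin 3 → ℝ) :
    h.G (cplx x (fun k => y k / h.R)) = EF h.a h.ξ (cplx (fun k => Int.fract ((h.R : ℝ) * x k)) y) := by
  unfold Hump.G EF
  refine Finset.sum_congr rfl fun i _ => ?_
  congr 1
  have hR : (h.R : ℂ) ≠ 0 := by exact_mod_cast hpos.ne'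
  have : dz (h.ξ i) (fun k => (h.R : ℂ) * cplx x (fun k => y k / h.R) k) =
      dz (h.ξ i) (cplx (fun k => Int.fract ((h.R : ℝ) * x k)) y) + ((∑ k, h.ξ i k * ⌊(h.R : ℝ) * x k⌋ : ℤ) : ℂ) := by
    unfold dz cplx
    push_cast
    rw [← Finset.sum_add_distrib]
    refine Finset.sum_congr rfl fun k _ => ?_
    have hf : ((h.R : ℝ) * x k) = (⌊(h.R : ℝ) * x k⌋ : ℝ) + Int.fract ((h.R : ℝ) * x k) :=
      (Int.floor_add_fract _).symm
    have hf' : ((h.R : ℂ) * (x k : ℂ)) = (⌊(h.R : ℝ) * x k⌋ : ℂ) + ((Int.fract ((h.R : ℝ) * x k) : ℝ) : ℂ) := by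
      have := congrArg (fun t : ℝ => (t : ℂ)) hf
      push_cast at this
      exact this
    have e1 : (h.R : ℂ) * ((x k : ℂ) + (y k : ℂ) / (h.R : ℂ) * Complex.I) = (h.R : ℂ) * (x k : ℂ) + y k * Complex.I := by
      field_simp
    rw [e1, hf']
    ring
  rw [this, ee_add_int]

theorem cont_EF {n : ℕ} (a : Fin n → ℂ) (ξ : Fin n → Fin 3 → ℤ) (y : Fin 3 → ℝ) :
    Continuous fun x : Fin 3 → ℝ => ‖EF a ξ (cplx x y)‖ := by
  unfold EF ee dz cplx
  fun_prop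

theorem meas_cube : MeasurableSet cube := by
  unfold cube
  exact MeasurableSet.univ_pi fun _ => measurableSet_Ico

theorem vol_cube : volume cube ≠ ⊤ := by
  unfold cube
  rw [Real.volume_pi_Ico]
  simp

theorem meas_big (h : Hump) (C : ℝ) :
    MeasurableSet {x | x ∈ cube ∧ ∃ y ∈ h.Y, C < ‖EF h.a h.ξ (cplx x y)‖} := by
  have : {x | x ∈ cube ∧ ∃ y ∈ h.Y, C < ‖EF h.a h.ξ (cplx x y)‖} =
      cube ∩ ⋃ y ∈ h.Y, {x | C < ‖EF h.a h.ξ (cplx x y)‖} := by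
    ext x
    simp only [Set.mem_ofPred_eq, Set.mem_inter_iff, Set.mem_iUnion, exists_prop]
  rw [this]
  refine meas_cube.inter ?_
  refine Finset.measurableSet_biUnion _ fun y _ => ?_
  exact (isOpen_lt continuous_const (cont_EF _ _ _)).measurableSet

/-- blow up on a set of positive measure -/
theorem blowup (H : ℕ → Hump) (ε c : ℝ) (hε : 0 < ε) (hc : 0 < c)
    (hfract : ∀ R : ℕ, 0 < R → MeasurePreserving (fun (x : Fin 3 → ℝ) (i : Fin 3) => Int.fract ((R : ℝ) * x i))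
      (volume.restrict cube) (volume.restrict cube))
    (hok : ∀ j, (H j).Ok ε (2 ^ j * (j / c + (∑ i ∈ range j, (1 / 2 : ℝ) ^ i * (H i).l1) + 1)))
    (hdec : ∀ i j : ℕ, i < j → ∀ y ∈ (H i).Y, (H j).dec (fun k => y k / (H i).R) ≤ 1)
    (hY : ∀ j : ℕ, ∀ y ∈ (H j).Y, ‖y‖ ≤ (H j).R / (j + 1))
    (hsum : ∀ z ∈ tube, Summable fun j : ℕ => ‖(1 / 2 : ℂ) ^ j * (H j).G z‖)
    (D : (Fin 3 → ℂ) → ℂ) (hD : ∀ x ∈ cube, ∀ y : Fin 3 → ℝ, cone y → ‖y‖ ≤ 1 → c ≤ ‖D (cplx x y)‖) :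
    ∃ E : Set (Fin 3 → ℝ), MeasurableSet E ∧ E ⊆ cube ∧ ENNReal.ofReal ε ≤ volume E ∧ ∀ x ∈ E, ∀ M δ : ℝ, 0 < δ →
      ∃ y : Fin 3 → ℝ, cone y ∧ ‖y‖ < δ ∧ M < ‖D (cplx x y) * SS H (cplx x y)‖ := by
  classical
  set C : ℕ → ℝ := fun j => 2 ^ j * (j / c + (∑ i ∈ range j, (1 / 2 : ℝ) ^ i * (H i).l1) + 1) with hC
  set T : ℕ → (Fin 3 → ℝ) → (Fin 3 → ℝ) := fun j x i => Int.fract (((H j).R : ℝ) * x i) with hT
  set Big : ℕ → Set (Fin 3 → ℝ) := fun j => {x | x ∈ cube ∧ ∃ y ∈ (H j).Y, C j < ‖EF (H j).a (H j).ξ (cplx x y)‖} with hBig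
  set E' : ℕ → Set (Fin 3 → ℝ) := fun j => (T j) ⁻¹' (Big j) ∩ cube with hE'
  have hTm : ∀ j, MeasurePreserving (T j) (volume.restrict cube) (volume.restrict cube) := fun j => hfract _ (hok j).pos
  have hBm : ∀ j, MeasurableSet (Big j) := fun j => meas_big (H j) (C j)
  have hEm : ∀ j, MeasurableSet (E' j) := fun j => ((hTm j).measurable (hBm j)).inter meas_cube
  have hEv : ∀ j, ENNReal.ofReal ε ≤ volume (E' j) := by
    intro j
    have h1 := (hTm j).measure_preimage (hBm j).nullMeasurableSet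
    rw [Measure.restrict_apply ((hTm j).measurable (hBm j)), Measure.restrict_apply (hBm j)] at h1
    have h2 : Big j ∩ cube = Big j := by
      apply Set.inter_eq_left.mpr
      intro x hx
      exact hx.1
    rw [h2] at h1
    rw [hE']
    show _ ≤ volume ((T j) ⁻¹' (Big j) ∩ cube)
    rw [h1]
    exact (hok j).big
  -- the main estimate
  have key : ∀ j, ∀ x ∈ E' j, ∃ y : Fin 3 → ℝ, cone y ∧ ‖y‖ ≤ 1 / (j + 1) ∧ (j : ℝ) < ‖D (cplx x y) * SS H (cplx x y)‖ := by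
    intro j x hx
    obtain ⟨hx1, hx2⟩ := hx
    obtain ⟨-, y, hyY, hyC⟩ := hx1
    have hRpos : (0:ℝ) < (H j).R := by exact_mod_cast (hok j).pos
    set y1 : Fin 3 → ℝ := fun k => y k / (H j).R with hy1
    have hcone : cone y1 := by
      have := (hok j).cY y hyY
      obtain ⟨h1, h2⟩ := this
      refine ⟨div_pos h1 hRpos, ?_⟩
      show (y 1 / (H j).R) ^ 2 < (y 0 / (H j).R) * (y 2 / (H j).R)
      rw [div_pow, div_mul_div_comm, ← sq ((H j).R : ℝ)]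
      exact div_lt_div_of_pos_right h2 (by positivity)
    have hnorm : ‖y1‖ ≤ 1 / (j + 1) := by
      have h1 := hY j y hyY
      have h2 : y1 = ((H j).R : ℝ)⁻¹ • y := by
        funext k
        simp [hy1, div_eq_inv_mul]
      rw [h2, norm_smul, norm_inv, Real.norm_of_nonneg hRpos.le]
      calc ((H j).R : ℝ)⁻¹ * ‖y‖ ≤ ((H j).R : ℝ)⁻¹ * ((H j).R / (j + 1)) := by gcongr
        _ = 1 / (j + 1) := by field_simp
    refine ⟨y1, hcone, hnorm, ?_⟩
    have hz : cplx x y1 ∈ tube := by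
      show cone (fun k => (cplx x y1 k).im)
      rw [cplx_im]
      exact hcone
    have hs := hsum _ hz
    have hGj : C j < ‖(H j).G (cplx x y1)‖ := by
      rw [hy1, G_period (H j) (hok j).pos]
      exact hyC
    have hsm : Summable fun i : ℕ => (1 / 2 : ℂ) ^ i * (H i).G (cplx x y1) := hs.of_norm
    have hsplit := hsm.sum_add_tsum_nat_add (j + 1)
    have hSS : SS H (cplx x y1) = (∑ i ∈ range j, (1 / 2 : ℂ) ^ i * (H i).G (cplx x y1)) +
        (1 / 2 : ℂ) ^ j * (H j).G (cplx x y1) + ∑' i : ℕ, (1 / 2 : ℂ) ^ (i + (j + 1)) * (H (i + (j + 1))).G (cplx x y1) := by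
      unfold SS
      rw [← hsplit, Finset.sum_range_succ]
    have hA : ‖∑ i ∈ range j, (1 / 2 : ℂ) ^ i * (H i).G (cplx x y1)‖ ≤ ∑ i ∈ range j, (1 / 2 : ℝ) ^ i * (H i).l1 := by
      refine (norm_sum_le _ _).trans ?_
      refine Finset.sum_le_sum fun i _ => ?_
      rw [norm_mul, norm_pow]
      have : ‖(1 / 2 : ℂ)‖ = 1 / 2 := by norm_num
      rw [this]
      have := G_le_l1 (H i) (hok i).pos (hok i).cn _ hz
      gcongr
    have hB : ‖∑' i : ℕ, (1 / 2 : ℂ) ^ (i + (j + 1)) * (H (i + (j + 1))).G (cplx x y1)‖ ≤ 1 := by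
      have hgeo : HasSum (fun i : ℕ => (1 / 2 : ℝ) ^ (j + 1) * (1 / 2 : ℝ) ^ i) ((1 / 2 : ℝ) ^ (j + 1) * 2) := by
        have := hasSum_geometric_two
        exact this.mul_left _
      have h1 : ‖∑' i : ℕ, (1 / 2 : ℂ) ^ (i + (j + 1)) * (H (i + (j + 1))).G (cplx x y1)‖ ≤ (1 / 2 : ℝ) ^ (j + 1) * 2 := by
        refine tsum_of_norm_bounded hgeo ?_
        intro i
        rw [norm_mul, norm_pow]
        have h2 : ‖(1 / 2 : ℂ)‖ = 1 / 2 := by norm_num
        rw [h2]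
        have h3 : ‖(H (i + (j + 1))).G (cplx x y1)‖ ≤ 1 := by
          refine (G_le_dec _ _).trans ?_
          rw [cplx_im]
          exact hdec j (i + (j + 1)) (by omega) y hyY
        calc (1 / 2 : ℝ) ^ (i + (j + 1)) * ‖(H (i + (j + 1))).G (cplx x y1)‖ ≤ (1 / 2 : ℝ) ^ (i + (j + 1)) * 1 := by gcongr
          _ = (1 / 2 : ℝ) ^ (j + 1) * (1 / 2 : ℝ) ^ i := by ring
      refine h1.trans ?_
      have : (1 / 2 : ℝ) ^ (j + 1) ≤ (1 / 2 : ℝ) ^ 1 := pow_le_pow_of_le_one (by norm_num) (by norm_num) (by omega)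
      linarith
    have hM : j / c + (∑ i ∈ range j, (1 / 2 : ℝ) ^ i * (H i).l1) + 1 < ‖(1 / 2 : ℂ) ^ j * (H j).G (cplx x y1)‖ := by
      rw [norm_mul, norm_pow]
      have h2 : ‖(1 / 2 : ℂ)‖ = 1 / 2 := by norm_num
      rw [h2]
      have h3 : (1 / 2 : ℝ) ^ j * C j = j / c + (∑ i ∈ range j, (1 / 2 : ℝ) ^ i * (H i).l1) + 1 := by
        rw [hC]
        simp only
        rw [← mul_assoc, ← mul_pow]
        norm_num
      rw [← h3]
      have : (0:ℝ) < (1 / 2 : ℝ) ^ j := by positivity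
      exact mul_lt_mul_of_pos_left hGj this
    have hlow : (j : ℝ) / c < ‖SS H (cplx x y1)‖ := by
      rw [hSS]
      set a := ∑ i ∈ range j, (1 / 2 : ℂ) ^ i * (H i).G (cplx x y1)
      set b := (1 / 2 : ℂ) ^ j * (H j).G (cplx x y1)
      set d := ∑' i : ℕ, (1 / 2 : ℂ) ^ (i + (j + 1)) * (H (i + (j + 1))).G (cplx x y1)
      have h1 : ‖b‖ ≤ ‖a + b + d‖ + ‖a‖ + ‖d‖ := by
        calc ‖b‖ = ‖(a + b + d) - a - d‖ := by congr 1; ring
          _ ≤ ‖(a + b + d) - a‖ + ‖d‖ := norm_sub_le _ _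
          _ ≤ ‖a + b + d‖ + ‖a‖ + ‖d‖ := by gcongr; exact norm_sub_le _ _
      linarith
    rw [norm_mul]
    have hD' : c ≤ ‖D (cplx x y1)‖ := by
      refine hD x hx2 y1 hcone (hnorm.trans ?_)
      rw [div_le_one (by positivity)]
      have : (0:ℝ) ≤ j := Nat.cast_nonneg j
      linarith
    calc (j : ℝ) = c * (j / c) := by field_simp
      _ < c * ‖SS H (cplx x y1)‖ := mul_lt_mul_of_pos_left hlow hc
      _ ≤ ‖D (cplx x y1)‖ * ‖SS H (cplx x y1)‖ := by gcongr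
  refine ⟨⋂ n, ⋃ j ≥ n, E' j, ?_, ?_, ?_, ?_⟩
  · exact MeasurableSet.iInter fun n => MeasurableSet.iUnion fun j => MeasurableSet.iUnion fun _ => hEm j
  · intro x hx
    have := Set.mem_iInter.mp hx 0
    simp only [Set.mem_iUnion] at this
    obtain ⟨j, _, hj⟩ := this
    exact hj.2
  · have hanti : Antitone fun n : ℕ => ⋃ j ≥ n, E' j := by
      intro a b hab x hx
      simp only [Set.mem_iUnion] at hx ⊢
      obtain ⟨j, hj, hxj⟩ := hx
      exact ⟨j, le_trans hab hj, hxj⟩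
    have hsub : ∀ n, (⋃ j ≥ n, E' j) ⊆ cube := by
      intro n x hx
      simp only [Set.mem_iUnion] at hx
      obtain ⟨j, _, hj⟩ := hx
      exact hj.2
    have ht := tendsto_measure_iInter_atTop (μ := (volume : Measure (Fin 3 → ℝ))) (s := fun n : ℕ => ⋃ j ≥ n, E' j)
      (fun n => (MeasurableSet.iUnion fun j => MeasurableSet.iUnion fun _ => hEm j).nullMeasurableSet) hanti
      ⟨0, ne_top_of_le_ne_top vol_cube (measure_mono (hsub 0))⟩
    refine ge_of_tendsto ht (Filter.Eventually.of_forall fun n => ?_)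
    refine (hEv n).trans (measure_mono ?_)
    intro x hx
    simp only [Set.mem_iUnion]
    exact ⟨n, le_refl n, hx⟩
  · intro x hx M δ hδ
    obtain ⟨n, hn⟩ := exists_nat_gt (max M (1 / δ))
    have := Set.mem_iInter.mp hx n
    simp only [Set.mem_iUnion] at this
    obtain ⟨j, hj, hxj⟩ := this
    obtain ⟨y, hy1, hy2, hy3⟩ := key j x hxj
    have hnj : (n : ℝ) ≤ j := by exact_mod_cast hj
    refine ⟨y, hy1, lt_of_le_of_lt hy2 ?_, ?_⟩
    · rw [div_lt_iff₀ (by positivity)]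
      have h1 : 1 / δ < j + 1 := by
        have := le_max_right M (1 / δ)
        linarith
      rw [div_lt_iff₀ hδ] at h1
      linarith
    · have := le_max_left M (1 / δ)
      linarith

end Pool.Agent.Z26.HU.XG5
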