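import Mathlib
import Pool.Agent.Z26.HU.H5
import Pool.Agent.Z26.HU.XG1
import Pool.Agent.Z26.HU.XG2
import Pool.Agent.Z26.HU.XG3
import Pool.Agent.Z26.HU.XG4
import Pool.Agent.Z26.HU.XG5

set_option autoImplicit false

namespace Pool.Agent.Z26.HU

open MeasureTheory Finset

/-- a function of the Hardy class with wild unrestricted behaviour -/
theorem main3 (p : ℝ) (hp : 0 < p) (hp2 : p ≤ 2) : ∃ u : (Fin 3 → ℂ) → ℂ, DifferentiableOn ℂ u tube ∧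
    (∃ C : ℝ, ∀ y : Fin 3 → ℝ, cone y → ∫⁻ x : Fin 3 → ℝ, ‖u (cplx x y)‖ₑ ^ p ≤ ENNReal.ofReal C) ∧
    ∃ E : Set (Fin 3 → ℝ), MeasurableSet E ∧ 0 < volume E ∧ ∀ x ∈ E, ∀ M δ : ℝ, 0 < δ →
      ∃ y : Fin 3 → ℝ, cone y ∧ ‖y‖ < δ ∧ M < ‖u (cplx x y)‖ := by
  obtain ⟨D, hDd, ⟨CD, hCD, hDb⟩, c, hc, hDc⟩ := XG1.D_exists p hp
  have hε : 0 < kap ^ 2 / 108 := by have := kap_pos; positivity
  obtain ⟨H, hok, hdec1, hdec2, hY⟩ := XG2.exists_humps (kap ^ 2 / 108) c hε hc KT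
  obtain ⟨hSd, hsum⟩ := SS_diff H (fun j => (hok j).cn) hdec1
  obtain ⟨C, hC⟩ := XG4.hp_bound H (fun j => (hok j).pos) (fun j => (hok j).sl) fract_mp period_bound hsum p hp hp2 D CD hCD hDb
  obtain ⟨E, hEm, hEc, hEv, hE⟩ := XG5.blowup H (kap ^ 2 / 108) c hε hc fract_mp hok hdec2 hY hsum D hDc
  refine ⟨fun z => D z * SS H z, hDd.mul hSd, ⟨C, hC⟩, E, hEm, ?_, hE⟩
  exact lt_of_lt_of_le (ENNReal.ofReal_pos.2 hε) hEv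

end Pool.Agent.Z26.HU
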