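import Mathlib
import Pool.Agent.Z26.HU.H6

set_option autoImplicit false

namespace Pool.Agent.Z26.HU

open MeasureTheory

theorem posDef_two (a b c : ℝ) : (!![a, b; b, c] : Matrix (Fin 2) (Fin 2) ℝ).PosDef ↔ 0 < a ∧ b ^ 2 < a * c := by
  constructor
  · intro h
    have h1 := h.diag_pos (i := 0)
    have h2 := h.det_pos
    rw [Matrix.det_fin_two_of] at h2
    simp at h1
    exact ⟨h1, by nlinarith⟩
  · rintro ⟨ha, hb⟩
    apply Matrix.PosDef.of_dotProduct_mulVec_pos
    · ext i j
      fin_cases i <;> fin_cases j <;> simp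
    · intro x hx
      have e : star x ⬝ᵥ (!![a, b; b, c] : Matrix (Fin 2) (Fin 2) ℝ).mulVec x = a * x 0 ^ 2 + 2 * b * x 0 * x 1 + c * x 1 ^ 2 := by
        simp [dotProduct, Matrix.mulVec, Fin.sum_univ_two]
        ring
      rw [e]
      have hne : x 0 ≠ 0 ∨ x 1 ≠ 0 := by
        by_contra hcon
        push Not at hcon
        apply hx
        ext i
        fin_cases i
        · exact hcon.1
        · exact hcon.2
      have key : a * (a * x 0 ^ 2 + 2 * b * x 0 * x 1 + c * x 1 ^ 2) = (a * x 0 + b * x 1) ^ 2 + (a * c - b ^ 2) * x 1 ^ 2 := by ring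
      have hpos : 0 < a * (a * x 0 ^ 2 + 2 * b * x 0 * x 1 + c * x 1 ^ 2) := by
        rw [key]
        by_cases h1 : x 1 = 0
        · have h0 : x 0 ≠ 0 := by
            rcases hne with h | h
            · exact h
            · exact absurd h1 h
          rw [h1]
          have : 0 < (a * x 0) ^ 2 := by positivity
          nlinarith
        · have : 0 < x 1 ^ 2 := by positivity
          have : 0 < (a * c - b ^ 2) * x 1 ^ 2 := mul_pos (by linarith) this
          nlinarith [sq_nonneg (a * x 0 + b * x 1)]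
      exact pos_of_mul_pos_of_pos_left' hpos ha
where
  pos_of_mul_pos_of_pos_left' {u v : ℝ} (h : 0 < u * v) (hu : 0 < u) : 0 < v := by
    by_contra hv
    push Not at hv
    nlinarith

abbrev Idx : Type := {p : Fin 2 × Fin 2 // p.1 ≤ p.2}

def i00 : Idx := ⟨(0, 0), le_rfl⟩
def i01 : Idx := ⟨(0, 1), by decide⟩
def i11 : Idx := ⟨(1, 1), le_rfl⟩

/-- the three entries -/
def eI : Fin 3 ≃ Idx where
  toFun := ![i00, i01, i11]
  invFun p := if p = i00 then 0 else if p = i01 then 1 else 2
  left_inv j := by fin_cases j <;> decide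
  right_inv := by decide

theorem eI_0 : eI 0 = i00 := rfl
theorem eI_1 : eI 1 = i01 := rfl
theorem eI_2 : eI 2 = i11 := rfl

theorem posDef_iff (y : Idx → ℝ) :
    (Matrix.of (fun (i j : Fin 2) => if h : i ≤ j then y ⟨(i, j), h⟩ else y ⟨(j, i), (not_le.mp h).le⟩)).PosDef ↔
      cone (fun j => y (eI j)) := by
  have e : (Matrix.of (fun (i j : Fin 2) => if h : i ≤ j then y ⟨(i, j), h⟩ else y ⟨(j, i), (not_le.mp h).le⟩)) =
      !![y i00, y i01; y i01, y i11] := by
    ext i j
    fin_cases i <;> fin_cases j <;> rfl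
  rw [e, posDef_two]
  unfold cone
  simp only [eI_0, eI_1, eI_2]

end Pool.Agent.Z26.HU
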