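import Mathlib
import Pool.Agent.Z26.HU.H7

set_option autoImplicit false

/-! From rank two to higher rank. -/

namespace Pool.Agent.Z26.HU.Rk

open MeasureTheory

/-- index set of the entries of a symmetric matrix -/
abbrev JJ (m : ℕ) : Type := {p : Fin m × Fin m // p.1 ≤ p.2}

/-- the symmetric matrix with given entries -/
def SS' (m : ℕ) (y : JJ m → ℝ) : Matrix (Fin m) (Fin m) ℝ :=
  Matrix.of fun i j => if h : i ≤ j then y ⟨(i, j), h⟩ else y ⟨(j, i), (not_le.mp h).le⟩

theorem SS'_diag {m : ℕ} (y : JJ m → ℝ) (i : Fin m) : SS' m y i i = y ⟨(i, i), le_rfl⟩ := by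
  simp [SS']

theorem SS'_lt {m : ℕ} (y : JJ m → ℝ) {i j : Fin m} (h : i ≤ j) :
    SS' m y i j = y ⟨(i, j), h⟩ := by
  simp [SS', h]

theorem SS'_gt {m : ℕ} (y : JJ m → ℝ) {i j : Fin m} (h : i ≤ j) :
    SS' m y j i = y ⟨(i, j), h⟩ := by
  rcases h.eq_or_lt with rfl | h'
  · simp [SS']
  · simp [SS', h'.not_ge]

theorem posDef_pair {m : ℕ} {M : Matrix (Fin m) (Fin m) ℝ} (h : M.PosDef) {i j : Fin m}
    (hij : i ≠ j) : 0 < M i i + M i j + M j i + M j j := by
  have hne : (Pi.single i 1 + Pi.single j 1 : Fin m → ℝ) ≠ 0 := by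
    intro e
    have := congrFun e i
    simp [Pi.single_eq_of_ne hij] at this
  have := h.dotProduct_mulVec_pos hne
  simp only [star_trivial, Matrix.mulVec_add, Matrix.mulVec_single_one, dotProduct_add,
    add_dotProduct, single_one_dotProduct, Matrix.col_apply] at this
  linarith

/-- inclusion of the entries of the leading `2 × 2` block -/
def emb (r : ℕ) (q : Idx) : JJ (2 + r) := ⟨(Fin.castAdd r q.1.1, Fin.castAdd r q.1.2), q.2⟩

theorem emb_inj (r : ℕ) : Function.Injective (emb r) := by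
  rintro ⟨⟨a, b⟩, h⟩ ⟨⟨c, d⟩, h'⟩ e
  simp only [emb, Subtype.mk.injEq, Prod.mk.injEq, Fin.castAdd_inj] at e
  simp [e.1, e.2]

/-- the three entries of the leading block -/
def aR (r : ℕ) (s : Fin 3) : JJ (2 + r) := emb r (eI s)

theorem aR_inj (r : ℕ) : Function.Injective (aR r) := (emb_inj r).comp eI.injective

theorem cone_of_posDef {r : ℕ} {y : JJ (2 + r) → ℝ} (h : (SS' (2 + r) y).PosDef) :
    cone (fun s => y (aR r s)) := by
  refine (posDef_iff (fun q => y (emb r q))).1 ?_
  have h1 := h.submatrix (e := Fin.castAdd r) (Fin.castAdd_injective 2 r)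
  convert h1 using 1
  ext i j
  rw [Matrix.submatrix_apply]
  by_cases hij : i ≤ j
  · rw [SS'_lt y (show Fin.castAdd r i ≤ Fin.castAdd r j from hij)]
    simp [hij, emb]
  · have h' : j ≤ i := (not_le.1 hij).le
    rw [SS'_gt y (show Fin.castAdd r j ≤ Fin.castAdd r i from h')]
    simp [hij, emb]

/-- complementary entries -/
abbrev RR (r : ℕ) : Type := {k : JJ (2 + r) // k ∉ Set.range (aR r)}

noncomputable instance (r : ℕ) : Fintype (RR r) := Fintype.ofFinite _

/-- splitting of the entries -/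
noncomputable def eR (r : ℕ) : Fin 3 ⊕ RR r ≃ JJ (2 + r) := by
  classical
  exact ((Equiv.ofInjective (aR r) (aR_inj r)).sumCongr (Equiv.refl _)).trans
    (Equiv.Set.sumCompl (Set.range (aR r)))

theorem eR_inl (r : ℕ) (s : Fin 3) : eR r (Sum.inl s) = aR r s := rfl

theorem eR_inr (r : ℕ) (k : RR r) : eR r (Sum.inr k) = k.1 := rfl

theorem split_mp {J ι κ : Type} [Fintype J] [Fintype ι] [Fintype κ] (e : ι ⊕ κ ≃ J) :
    MeasurePreserving (fun x : J → ℝ => ((fun i => x (e (Sum.inl i))),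
      (fun k => x (e (Sum.inr k))))) volume (volume.prod volume) := by
  have h1 := (volume_measurePreserving_piCongrLeft (fun _ : J => ℝ) e).symm
  have h2 := (volume_measurePreserving_sumPiEquivProdPi (fun _ : ι ⊕ κ => ℝ))
  exact h2.comp h1

end Pool.Agent.Z26.HU.Rk
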