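import Mathlib
import Pool.Agent.Z26.HU.R1

set_option autoImplicit false

namespace Pool.Agent.Z26.HU.Rk

open MeasureTheory Complex

/-- the linear functional attached to an entry -/
def lam {𝕜 : Type} [CommSemiring 𝕜] {m : ℕ} (k : JJ m) (z : JJ m → 𝕜) : 𝕜 :=
  if k.1.1 = k.1.2 then z k
  else z ⟨(k.1.1, k.1.1), le_rfl⟩ + z ⟨(k.1.2, k.1.2), le_rfl⟩ + 2 * z k

theorem lam_cplx {m : ℕ} (k : JJ m) (x y : JJ m → ℝ) :
    lam k (fun j => (x j : ℂ) + (y j : ℂ) * I) = (lam k x : ℝ) + (lam k y : ℝ) * I := by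
  unfold lam
  split_ifs
  · rfl
  · push_cast; ring

theorem lam_im {m : ℕ} (k : JJ m) (z : JJ m → ℂ) : (lam k z).im = lam k (fun j => (z j).im) := by
  unfold lam
  split_ifs
  · rfl
  · simp

theorem lam_pos {m : ℕ} {y : JJ m → ℝ} (h : (SS' m y).PosDef) (k : JJ m) : 0 < lam k y := by
  obtain ⟨⟨i, j⟩, hij⟩ := k
  unfold lam
  split_ifs with e
  · have e' : i = j := e
    subst e'
    have := h.diag_pos (i := i)
    rwa [SS'_diag] at this
  · have := posDef_pair h (show i ≠ j from e)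
    rw [SS'_diag, SS'_diag, SS'_lt y hij, SS'_gt y hij] at this
    simp only
    linarith

theorem lam_cont {m : ℕ} (k : JJ m) : Continuous fun x : JJ m → ℝ => lam k x := by
  unfold lam
  split_ifs <;> fun_prop

theorem lam_diff {m : ℕ} (k : JJ m) : Differentiable ℂ fun x : JJ m → ℂ => lam k x := by
  unfold lam
  split_ifs <;> fun_prop

/-- the functional as a linear map -/
def lamL {m : ℕ} (k : JJ m) : (JJ m → ℝ) →ₗ[ℝ] ℝ where
  toFun := lam k
  map_add' x y := by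
    unfold lam
    split_ifs
    · rfl
    · simp only [Pi.add_apply]; ring
  map_smul' c x := by
    unfold lam
    split_ifs
    · rfl
    · simp only [Pi.smul_apply, smul_eq_mul, RingHom.id_apply]; ring

open Classical in
/-- the change of variables -/
noncomputable def LL (r : ℕ) : (JJ (2 + r) → ℝ) →ₗ[ℝ] (JJ (2 + r) → ℝ) :=
  LinearMap.pi fun k => if k ∈ Set.range (aR r) then LinearMap.proj k else lamL k

theorem LL_a {r : ℕ} (x : JJ (2 + r) → ℝ) (s : Fin 3) : LL r x (aR r s) = x (aR r s) := by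
  simp [LL]

theorem LL_R {r : ℕ} (x : JJ (2 + r) → ℝ) (k : RR r) : LL r x k.1 = lam k.1 x := by
  have := k.2
  simp only [LL, LinearMap.pi_apply, if_neg this]
  rfl

theorem LL_det (r : ℕ) : LinearMap.det (LL r) ≠ 0 := by
  intro h
  have h1 := LinearMap.bot_lt_ker_of_det_eq_zero h
  have h2 : LinearMap.ker (LL r) = ⊥ := by
    rw [LinearMap.ker_eq_bot']
    intro x hx
    have hk : ∀ k : JJ (2 + r), k ∈ Set.range (aR r) → x k = 0 := by
      rintro _ ⟨s, rfl⟩
      rw [← LL_a x s, hx]; rfl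
    have hk' : ∀ k : JJ (2 + r), k ∉ Set.range (aR r) → lam k x = 0 := by
      intro k hk
      have := LL_R x ⟨k, hk⟩
      rw [hx] at this
      exact this.symm
    have hdiag : ∀ i, x ⟨(i, i), le_rfl⟩ = 0 := by
      intro i
      by_cases c : (⟨(i, i), le_rfl⟩ : JJ (2 + r)) ∈ Set.range (aR r)
      · exact hk _ c
      · have := hk' _ c
        simpa [lam] using this
    funext k
    by_cases c : k ∈ Set.range (aR r)
    · exact hk _ c
    · have := hk' _ c
      unfold lam at this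
      split_ifs at this with e
      · exact this
      · rw [hdiag, hdiag] at this
        simp only [Pi.zero_apply]
        linarith
  exact h1.ne' h2

/-- the bound for the factors -/
theorem factor {p : ℝ} (hp : 0 < p) {N : ℕ} (hN : 2 ≤ N * p) (t s : ℝ) (hs : 0 < s) :
    ‖(((t : ℂ) + (s : ℂ) * I + I)⁻¹) ^ N‖ₑ ^ p ≤ ENNReal.ofReal ((1 + t ^ 2)⁻¹) := by
  set w : ℂ := (t : ℂ) + (s : ℂ) * I + I with hw
  have hn : 1 + t ^ 2 ≤ ‖w‖ ^ 2 := by
    rw [← Complex.normSq_eq_norm_sq, Complex.normSq_apply]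
    simp only [hw, add_re, mul_re, ofReal_re, ofReal_im, I_re, I_im, add_im, mul_im]
    nlinarith
  have h1 : 1 ≤ ‖w‖ := by nlinarith [norm_nonneg w, sq_nonneg t]
  have h0 : 0 < ‖w‖ := by linarith
  have hi : ‖w⁻¹‖ ≤ 1 := by rw [norm_inv]; exact inv_le_one_of_one_le₀ h1
  rw [← ofReal_norm, ENNReal.ofReal_rpow_of_nonneg (norm_nonneg _) hp.le]
  refine ENNReal.ofReal_le_ofReal ?_
  rw [norm_pow, ← Real.rpow_natCast, ← Real.rpow_mul (norm_nonneg _)]
  calc ‖w⁻¹‖ ^ ((N : ℝ) * p) ≤ ‖w⁻¹‖ ^ (2 : ℝ) :=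
        Real.rpow_le_rpow_of_exponent_ge (norm_pos_iff.2 (inv_ne_zero (norm_pos_iff.1 h0))) hi hN
    _ = (‖w‖ ^ 2)⁻¹ := by
        rw [norm_inv, Real.rpow_two, inv_pow]
    _ ≤ (1 + t ^ 2)⁻¹ := by gcongr

theorem B_fin (κ : Type) [Fintype κ] :
    ∫⁻ t : κ → ℝ, ∏ k, ENNReal.ofReal ((1 + (t k) ^ 2)⁻¹) < ⊤ := by
  have h : Integrable (fun t : κ → ℝ => ∏ k, (1 + (t k) ^ 2)⁻¹) :=
    Integrable.fintype_prod (f := fun _ x => (1 + x ^ 2)⁻¹) fun _ => integrable_inv_one_add_sq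
  have := h.lintegral_lt_top
  refine lt_of_le_of_lt (lintegral_mono fun t => ?_) this
  rw [ENNReal.ofReal_prod_of_nonneg fun k _ => by positivity]

end Pool.Agent.Z26.HU.Rk
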