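import Mathlib
import Pool.Agent.Z26.HU.R2

set_option autoImplicit false

namespace Pool.Agent.Z26.HU.Rk

open MeasureTheory Complex

/-- the extended function -/
noncomputable def uu (r N : ℕ) (u : (Fin 3 → ℂ) → ℂ) (z : JJ (2 + r) → ℂ) : ℂ :=
  u (fun s => z (aR r s)) * ∏ k : RR r, ((lam k.1 z + I)⁻¹) ^ N

theorem uu_cplx (r N : ℕ) (u : (Fin 3 → ℂ) → ℂ) (x y : JJ (2 + r) → ℝ) :
    uu r N u (fun k => (x k : ℂ) + (y k : ℂ) * I) =
      u (cplx (fun s => x (aR r s)) (fun s => y (aR r s))) *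
        ∏ k : RR r, (((lam k.1 x : ℝ) : ℂ) + ((lam k.1 y : ℝ) : ℂ) * I + I)⁻¹ ^ N := by
  unfold uu
  simp only [lam_cplx]
  rfl

theorem uu_diff {r N : ℕ} {u : (Fin 3 → ℂ) → ℂ} (hd : DifferentiableOn ℂ u tube) :
    DifferentiableOn ℂ (uu r N u)
      {z : JJ (2 + r) → ℂ | (SS' (2 + r) (fun k => (z k).im)).PosDef} := by
  refine DifferentiableOn.mul (hd.comp (by fun_prop) fun z hz => cone_of_posDef hz) ?_
  have h1 : ∀ k : RR r, DifferentiableOn ℂ (fun z : JJ (2 + r) → ℂ => ((lam k.1 z + I)⁻¹) ^ N)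
      {z : JJ (2 + r) → ℂ | (SS' (2 + r) (fun k => (z k).im)).PosDef} := fun k => by
    refine DifferentiableOn.fun_pow (DifferentiableOn.fun_inv
      (((lam_diff k.1).differentiableOn).add_const _) fun z hz e => ?_) _
    have h1 := lam_pos hz k.1
    rw [← lam_im] at h1
    have := congrArg Complex.im e
    simp only [add_im, I_im, zero_im] at this
    linarith
  exact fun z hz => (HasFDerivWithinAt.finsetProd (u := Finset.univ) fun k _ =>
    (h1 k z hz).hasFDerivWithinAt).differentiableWithinAt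

theorem uu_bound {r N : ℕ} {u : (Fin 3 → ℂ) → ℂ} (hd : DifferentiableOn ℂ u tube) {p : ℝ}
    (hp : 0 < p) (hN : 2 ≤ N * p) {C : ℝ} (hC : ∀ y : Fin 3 → ℝ, cone y →
      ∫⁻ x : Fin 3 → ℝ, ‖u (cplx x y)‖ₑ ^ p ≤ ENNReal.ofReal C) :
    ∃ C' : ℝ, ∀ y : JJ (2 + r) → ℝ, (SS' (2 + r) y).PosDef →
      ∫⁻ x : JJ (2 + r) → ℝ, ‖uu r N u (fun k => (x k : ℂ) + (y k : ℂ) * I)‖ₑ ^ p ≤
        ENNReal.ofReal C' := by
  set K : ENNReal := ENNReal.ofReal |(LinearMap.det (LL r))⁻¹| * (ENNReal.ofReal C *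
    ∫⁻ t : RR r → ℝ, ∏ k, ENNReal.ofReal ((1 + (t k) ^ 2)⁻¹)) with hK
  have hKf : K ≠ ⊤ := ENNReal.mul_ne_top ENNReal.ofReal_ne_top
    (ENNReal.mul_ne_top ENNReal.ofReal_ne_top (B_fin _).ne)
  refine ⟨K.toReal, fun y hy => ?_⟩
  rw [ENNReal.ofReal_toReal hKf]
  have hc := cone_of_posDef hy
  set y3 : Fin 3 → ℝ := fun s => y (aR r s) with hy3
  let A : (Fin 3 → ℝ) → ENNReal := fun t => ‖u (cplx t y3)‖ₑ ^ p
  let B : (RR r → ℝ) → ENNReal := fun t => ∏ k, ENNReal.ofReal ((1 + (t k) ^ 2)⁻¹)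
  have hA : Measurable A := by
    have h1 : Continuous fun t : Fin 3 → ℝ => u (cplx t y3) := by
      rw [continuous_iff_continuousAt]
      intro t
      have ht : cplx t y3 ∈ tube := by
        change cone fun j => (cplx t y3 j).im
        have : (fun j => (cplx t y3 j).im) = y3 := by
          funext j
          simp [cplx]
        rw [this]
        exact hc
      have hopen : IsOpen tube := by
        have h1 : Continuous fun z : Fin 3 → ℂ => (z 0).im := by fun_prop
        have h2 : Continuous fun z : Fin 3 → ℂ => (z 1).im ^ 2 := by fun_prop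
        have h3 : Continuous fun z : Fin 3 → ℂ => (z 0).im * (z 2).im := by fun_prop
        exact (isOpen_lt continuous_const h1).inter (isOpen_lt h2 h3)
      have h2 : ContinuousAt u (cplx t y3) :=
        (hd.differentiableAt (hopen.mem_nhds ht)).continuousAt
      have h3 : Continuous (fun t : Fin 3 → ℝ => cplx t y3) := by
        unfold cplx
        exact continuous_pi fun j =>
          (Complex.continuous_ofReal.comp (continuous_apply j)).add continuous_const
      exact ContinuousAt.comp (g := u) h2 h3.continuousAt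
    exact (h1.measurable.enorm).pow_const _
  have hB : Measurable B := by
    refine Finset.measurable_fun_prod _ fun k _ => ?_
    exact ENNReal.measurable_ofReal.comp (by fun_prop)
  let G : (JJ (2 + r) → ℝ) → ENNReal := fun t =>
    A (fun s => t (eR r (Sum.inl s))) * B (fun k => t (eR r (Sum.inr k)))
  have hG : Measurable G := by
    refine Measurable.mul (hA.comp (by fun_prop)) (hB.comp (by fun_prop))
  calc ∫⁻ x : JJ (2 + r) → ℝ, ‖uu r N u (fun k => (x k : ℂ) + (y k : ℂ) * I)‖ₑ ^ p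
      ≤ ∫⁻ x : JJ (2 + r) → ℝ, G (LL r x) := by
        refine lintegral_mono fun x => ?_
        rw [uu_cplx, enorm_mul, ENNReal.mul_rpow_of_nonneg _ _ hp.le]
        refine mul_le_mul' (le_of_eq ?_) ?_
        · simp only [A, eR_inl, LL_a]
          rfl
        · simp only [B, eR_inr, LL_R]
          have e : ∀ f : RR r → ℂ, ‖∏ k, f k‖ₑ = ∏ k, ‖f k‖ₑ := fun f => by
            rw [← ofReal_norm, norm_prod, ENNReal.ofReal_prod_of_nonneg fun _ _ => norm_nonneg _]
            simp only [ofReal_norm]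
          rw [e, ← ENNReal.prod_rpow_of_nonneg hp.le]
          exact Finset.prod_le_prod' fun k _ => factor hp hN _ _ (lam_pos hy k.1)
    _ = ∫⁻ t, G t ∂(Measure.map (LL r) volume) := by
        rw [lintegral_map hG]
        exact (LinearMap.continuous_of_finiteDimensional _).measurable
    _ = ENNReal.ofReal |(LinearMap.det (LL r))⁻¹| * ∫⁻ t, G t := by
        rw [Real.map_linearMap_volume_pi_eq_smul_volume_pi (LL_det r), lintegral_smul_measure,
          smul_eq_mul]
    _ = ENNReal.ofReal |(LinearMap.det (LL r))⁻¹| * ((∫⁻ t, A t) * ∫⁻ t, B t) := by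
        congr 1
        rw [← lintegral_prod_mul hA.aemeasurable hB.aemeasurable,
          ← (split_mp (eR r)).lintegral_comp (f := fun q => A q.1 * B q.2)
            ((hA.comp measurable_fst).mul (hB.comp measurable_snd))]
    _ ≤ K := by
        rw [hK]
        gcongr
        exact hC y3 hc

end Pool.Agent.Z26.HU.Rk
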