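import Mathlib
import Pool.Agent.Z26.HU.R3

set_option autoImplicit false

namespace Pool.Agent.Z26.HU.Rk

open MeasureTheory Complex

/-- block diagonal extension -/
noncomputable def ext (r : ℕ) (y3 : Fin 3 → ℝ) (ε : ℝ) (k : JJ (2 + r)) : ℝ :=
  if h : k.1.2.val < 2 then
    y3 (eI.symm ⟨(⟨k.1.1.val, lt_of_le_of_lt k.2 h⟩, ⟨k.1.2.val, h⟩), k.2⟩)
  else if k.1.1 = k.1.2 then ε else 0

theorem ext_a (r : ℕ) (y3 : Fin 3 → ℝ) (ε : ℝ) (s : Fin 3) : ext r y3 ε (aR r s) = y3 s := by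
  unfold ext
  have h : (aR r s).1.2.val < 2 := (eI s).1.2.2
  rw [dif_pos h]
  congr 1
  exact eI.symm_apply_apply s

theorem ext_norm {r : ℕ} {y3 : Fin 3 → ℝ} {ε δ : ℝ} (hδ : 0 < δ) (h3 : ‖y3‖ < δ) (hε : 0 < ε)
    (he : ε < δ) : ‖ext r y3 ε‖ < δ := by
  rw [pi_norm_lt_iff hδ]
  intro k
  unfold ext
  split_ifs
  · exact (norm_le_pi_norm y3 _).trans_lt h3
  · rwa [Real.norm_of_nonneg hε.le]
  · simpa using hδ

/-- the leading block -/
noncomputable def M2 (y3 : Fin 3 → ℝ) : Matrix (Fin 2) (Fin 2) ℝ :=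
  Matrix.of (fun (i j : Fin 2) => if h : i ≤ j then y3 (eI.symm ⟨(i, j), h⟩)
    else y3 (eI.symm ⟨(j, i), (not_le.mp h).le⟩))

theorem M2_pos {y3 : Fin 3 → ℝ} (h : cone y3) : (M2 y3).PosDef := by
  refine (posDef_iff fun q => y3 (eI.symm q)).2 ?_
  simpa only [Equiv.symm_apply_apply] using h

theorem ext_cc {r : ℕ} (y3 : Fin 3 → ℝ) (ε : ℝ) (i j : Fin 2) :
    SS' (2 + r) (ext r y3 ε) (Fin.castAdd r i) (Fin.castAdd r j) = M2 y3 i j := by
  by_cases hij : i ≤ j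
  · rw [SS'_lt _ (show Fin.castAdd r i ≤ Fin.castAdd r j from hij)]
    simp only [M2, Matrix.of_apply, dif_pos hij, ext, Fin.val_castAdd, j.2, dif_pos, Fin.eta]
  · have h' : j ≤ i := (not_le.1 hij).le
    rw [SS'_gt _ (show Fin.castAdd r j ≤ Fin.castAdd r i from h')]
    simp only [M2, Matrix.of_apply, dif_neg hij, ext, Fin.val_castAdd, i.2, dif_pos, Fin.eta]

theorem ext_cn {r : ℕ} (y3 : Fin 3 → ℝ) (ε : ℝ) (i : Fin 2) (j : Fin r) :
    SS' (2 + r) (ext r y3 ε) (Fin.castAdd r i) (Fin.natAdd 2 j) = 0 := by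
  have h : Fin.castAdd r i ≤ Fin.natAdd 2 j := by
    rw [Fin.le_def]; simp only [Fin.val_castAdd, Fin.val_natAdd]; omega
  have h' : Fin.castAdd r i ≠ Fin.natAdd 2 j := by
    intro e
    have := congrArg Fin.val e
    simp only [Fin.val_castAdd, Fin.val_natAdd] at this
    omega
  rw [SS'_lt _ h]
  unfold ext
  rw [dif_neg (by simp only [Fin.val_natAdd]; omega), if_neg h']

theorem ext_nc {r : ℕ} (y3 : Fin 3 → ℝ) (ε : ℝ) (i : Fin 2) (j : Fin r) :
    SS' (2 + r) (ext r y3 ε) (Fin.natAdd 2 j) (Fin.castAdd r i) = 0 := by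
  have h : Fin.castAdd r i ≤ Fin.natAdd 2 j := by
    rw [Fin.le_def]; simp only [Fin.val_castAdd, Fin.val_natAdd]; omega
  rw [SS'_gt _ h, ← SS'_lt (ext r y3 ε) h, ext_cn]

theorem ext_nn {r : ℕ} (y3 : Fin 3 → ℝ) (ε : ℝ) (i j : Fin r) :
    SS' (2 + r) (ext r y3 ε) (Fin.natAdd 2 i) (Fin.natAdd 2 j) = if i = j then ε else 0 := by
  have key : ∀ i j : Fin r, ∀ h : Fin.natAdd 2 i ≤ Fin.natAdd 2 j,
      ext r y3 ε ⟨(Fin.natAdd 2 i, Fin.natAdd 2 j), h⟩ = if i = j then ε else 0 := by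
    intro i j h
    unfold ext
    rw [dif_neg (by simp only [Fin.val_natAdd]; omega)]
    simp only [Fin.natAdd_inj]
  by_cases h : Fin.natAdd 2 i ≤ Fin.natAdd 2 j
  · rw [SS'_lt _ h, key]
  · have h' := (not_le.1 h).le
    rw [SS'_gt _ h', key]
    simp only [eq_comm]

theorem ext_posDef {r : ℕ} {y3 : Fin 3 → ℝ} {ε : ℝ} (h : cone y3) (hε : 0 < ε) :
    (SS' (2 + r) (ext r y3 ε)).PosDef := by
  refine Matrix.PosDef.of_dotProduct_mulVec_pos ?_ ?_
  · refine Matrix.IsHermitian.ext fun i j => ?_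
    rw [star_trivial]
    rcases le_total i j with h | h
    · rw [SS'_lt _ h, SS'_gt _ h]
    · rw [SS'_lt _ h, SS'_gt _ h]
  · intro x hx
    have e : star x ⬝ᵥ (SS' (2 + r) (ext r y3 ε)).mulVec x =
        (fun i => x (Fin.castAdd r i)) ⬝ᵥ (M2 y3).mulVec (fun i => x (Fin.castAdd r i)) +
          ∑ i : Fin r, ε * x (Fin.natAdd 2 i) ^ 2 := by
      simp only [dotProduct, Matrix.mulVec, star_trivial, Fin.sum_univ_add, ext_cc, ext_cn, ext_nc,
        ext_nn, zero_mul, Finset.sum_const_zero, add_zero, zero_add, ite_mul, Finset.sum_ite_eq,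
        Finset.mem_univ, if_true]
      congr 1
      exact Finset.sum_congr rfl fun i _ => by ring
    rw [e]
    by_cases h0 : (fun i => x (Fin.castAdd r i)) = 0
    · rw [h0, Matrix.mulVec_zero, dotProduct_zero, zero_add]
      obtain ⟨i, hi⟩ : ∃ i : Fin r, x (Fin.natAdd 2 i) ≠ 0 := by
        by_contra hc
        push Not at hc
        apply hx
        funext j
        refine Fin.addCases (fun i => ?_) (fun i => ?_) j
        · exact congrFun h0 i
        · exact hc i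
      exact Finset.sum_pos' (fun i _ => by positivity) ⟨i, Finset.mem_univ _, by positivity⟩
    · have h1 := (M2_pos h).dotProduct_mulVec_pos h0
      rw [star_trivial] at h1
      have h2 : 0 ≤ ∑ i : Fin r, ε * x (Fin.natAdd 2 i) ^ 2 :=
        Finset.sum_nonneg fun i _ => by positivity
      linarith

theorem lam_le {m : ℕ} (k : JJ m) (y : JJ m → ℝ) : |lam k y| ≤ 4 * ‖y‖ := by
  have h : ∀ j, |y j| ≤ ‖y‖ := fun j => norm_le_pi_norm y j
  unfold lam
  split_ifs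
  · linarith [h k, norm_nonneg y]
  · have h1 := abs_add_le (y ⟨(k.1.1, k.1.1), le_rfl⟩ + y ⟨(k.1.2, k.1.2), le_rfl⟩) (2 * y k)
    have h2 := abs_add_le (y ⟨(k.1.1, k.1.1), le_rfl⟩) (y ⟨(k.1.2, k.1.2), le_rfl⟩)
    rw [abs_mul, abs_two] at h1
    linarith [h k, h ⟨(k.1.1, k.1.1), le_rfl⟩, h ⟨(k.1.2, k.1.2), le_rfl⟩]

theorem higher (r : ℕ) (p : ℝ) (hp : 0 < p) (hp2 : p ≤ 2) : ∃ u : (JJ (2 + r) → ℂ) → ℂ,
    DifferentiableOn ℂ u {z : JJ (2 + r) → ℂ | (SS' (2 + r) (fun k => (z k).im)).PosDef} ∧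
    (∃ C : ℝ, ∀ y : JJ (2 + r) → ℝ, (SS' (2 + r) y).PosDef →
      ∫⁻ x : JJ (2 + r) → ℝ, ‖u (fun k => (x k : ℂ) + (y k : ℂ) * I)‖ₑ ^ p ≤
        ENNReal.ofReal C) ∧
    ∃ E : Set (JJ (2 + r) → ℝ), MeasurableSet E ∧ 0 < volume E ∧ ∀ x ∈ E, ∀ M δ : ℝ, 0 < δ →
      ∃ y : JJ (2 + r) → ℝ, (SS' (2 + r) y).PosDef ∧ ‖y‖ < δ ∧
        M < ‖u (fun k => (x k : ℂ) + (y k : ℂ) * I)‖ := by
  obtain ⟨u, hd, ⟨C, hC⟩, E, hEm, hEv, hE⟩ := main3 p hp hp2
  obtain ⟨N, hN⟩ := exists_nat_ge (2 / p)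
  have hN' : 2 ≤ N * p := by rwa [div_le_iff₀ hp] at hN
  refine ⟨uu r N u, uu_diff hd, uu_bound hd hp hN' hC, {x | (fun s => x (aR r s)) ∈ E}, ?_, ?_, ?_⟩
  · exact (measurable_pi_lambda _ fun s => measurable_pi_apply _) hEm
  · have h := (split_mp (eR r)).measure_preimage (s := E ×ˢ Set.univ)
      (hEm.prod MeasurableSet.univ).nullMeasurableSet
    rw [Measure.prod_prod] at h
    have e : (fun x : JJ (2 + r) → ℝ => ((fun i => x (eR r (Sum.inl i))),
        (fun k => x (eR r (Sum.inr k))))) ⁻¹' (E ×ˢ Set.univ) = {x | (fun s => x (aR r s)) ∈ E} := by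
      ext x
      simp [eR_inl]
    rw [e] at h
    rw [h]
    exact ENNReal.mul_pos hEv.ne' (isOpen_univ.measure_pos volume Set.univ_nonempty).ne'
  · intro x hx M δ hδ
    set c : ℝ := ∏ k : RR r, ((|lam k.1 x| + 5)⁻¹) ^ N with hc
    have hc0 : 0 < c := Finset.prod_pos fun k _ => by positivity
    obtain ⟨y3, h1, h2, h3⟩ := hE _ hx (|M| / c) (min δ 1) (by positivity)
    refine ⟨ext r y3 (min δ 1 / 2), ext_posDef h1 (by positivity), ?_, ?_⟩
    · exact (ext_norm (δ := min δ 1) (by positivity) h2 (by positivity)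
        (half_lt_self (by positivity))).trans_le (min_le_left _ _)
    · have hn : ‖ext r y3 (min δ 1 / 2)‖ < 1 := (ext_norm (δ := min δ 1) (by positivity) h2
        (by positivity) (half_lt_self (by positivity))).trans_le (min_le_right _ _)
      rw [uu_cplx, norm_mul]
      simp only [ext_a]
      have h4 : c ≤ ‖∏ k : RR r, (((lam k.1 x : ℝ) : ℂ) +
          ((lam k.1 (ext r y3 (min δ 1 / 2)) : ℝ) : ℂ) * I + I)⁻¹ ^ N‖ := by
        rw [norm_prod]
        refine Finset.prod_le_prod (fun k _ => by positivity) fun k _ => ?_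
        rw [norm_pow, norm_inv]
        have h5 := lam_le k.1 (ext r y3 (min δ 1 / 2))
        have h7 := lam_pos (ext_posDef (r := r) h1 (show 0 < min δ 1 / 2 by positivity)) k.1
        set w : ℂ := ((lam k.1 x : ℝ) : ℂ) +
          ((lam k.1 (ext r y3 (min δ 1 / 2)) : ℝ) : ℂ) * I + I with hw
        have h6 : ‖w‖ ≤ |lam k.1 x| + 5 := by
          have e1 : ‖w‖ ≤ |lam k.1 x| + |lam k.1 (ext r y3 (min δ 1 / 2))| + 1 := by
            rw [hw]
            refine (norm_add_le _ _).trans (add_le_add ((norm_add_le _ _).trans (add_le_add ?_ ?_)) ?_)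
            · rw [Complex.norm_real, Real.norm_eq_abs]
            · rw [norm_mul, Complex.norm_real, Real.norm_eq_abs, norm_I, mul_one]
            · rw [norm_I]
          linarith
        have h8 : 0 < ‖w‖ := by
          rw [norm_pos_iff]
          intro e
          have := congrArg Complex.im e
          simp only [hw, add_im, ofReal_im, mul_im, ofReal_re, I_re, I_im, zero_im] at this
          linarith
        gcongr
      have h5 : |M| < ‖u (cplx (fun s => x (aR r s)) y3)‖ * c := by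
        rwa [div_lt_iff₀ hc0] at h3
      calc M ≤ |M| := le_abs_self M
        _ < _ := h5
        _ ≤ _ := mul_le_mul_of_nonneg_left h4 (norm_nonneg _)

end Pool.Agent.Z26.HU.Rk
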